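import Pool.Agent.W47.Bridge1

/-!
POLY: definitions for polygons in brick wall coordinates.
-/

set_option autoImplicit false

namespace HexObs

namespace CC

/-- polygons that occupy exactly the rows 1, ..., T, started at the rightmost site of the lowest row that
has no neighbour above (i.e. of the form (2k, 1)), which is (0, 1), with first step to the left. -/
def PolC (T : ℕ) (L : List (ℤ × ℤ)) : Prop :=
  L.IsChain Edge ∧ L.Nodup ∧ (∀ p ∈ L, 1 ≤ p.2 ∧ p.2 ≤ T) ∧ (∃ M, L = (0, 1) :: (-1, 1) :: M) ∧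
    L.getLast? = some (1, 1) ∧ (∃ x : ℤ, (x, (T : ℤ)) ∈ L) ∧ ∀ k : ℤ, 1 ≤ k → (2 * k, 1) ∉ L

/-- polygons with n + 1 sites through the origin, with the origin as the starting point and an orientation
(the addition of Fin (n + 1) is cyclic). -/
def Loop (n : ℕ) (f : Fin (n + 1) → ℤ × ℤ) : Prop :=
  f 0 = (0, 0) ∧ Function.Injective f ∧ ∀ i : Fin (n + 1), Edge (f i) (f (i + 1))

/-- the sites of f occupy exactly T rows. -/
def Rows {n : ℕ} (T : ℕ) (f : Fin (n + 1) → ℤ × ℤ) : Prop :=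
  ∃ a : ℤ, (∀ i, a ≤ (f i).2 ∧ (f i).2 < a + T) ∧ (∃ i, (f i).2 = a) ∧ ∃ i, (f i).2 = a + T - 1

end CC

end HexObs
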