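import Pool.Agent.HexPoly.LoopDefs

/-!
POLY P9: rotation by 120 degrees in brick wall coordinates, the area bound.
-/

set_option autoImplicit false

namespace HexObs

namespace CC

/-- rotation by 120 degrees in brick wall coordinates -/
def rot (p : ℤ × ℤ) : ℤ × ℤ := ((-p.1 - 3 * p.2 + 1) / 2, (p.1 - p.2 + 1) / 2)

theorem rot_inj {p q : ℤ × ℤ} (h : rot p = rot q) : p = q := by
  obtain ⟨x, y⟩ := p
  obtain ⟨x', y'⟩ := q
  unfold rot at h
  simp only [Prod.mk.injEq] at h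
  obtain ⟨h1, h2⟩ := h
  have e2 : y = y' := by
    rcases Int.emod_two_eq_zero_or_one (x + y) with h0 | h0 <;>
      rcases Int.emod_two_eq_zero_or_one (x' + y') with h0' | h0'
    · have a1 : 2 * ((-x - 3 * y + 1) / 2) = -x - 3 * y := by omega
      have a2 : 2 * ((x - y + 1) / 2) = x - y := by omega
      have a3 : 2 * ((-x' - 3 * y' + 1) / 2) = -x' - 3 * y' := by omega
      have a4 : 2 * ((x' - y' + 1) / 2) = x' - y' := by omega
      omega
    · have a1 : 2 * ((-x - 3 * y + 1) / 2) = -x - 3 * y := by omega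
      have a2 : 2 * ((x - y + 1) / 2) = x - y := by omega
      have a3 : 2 * ((-x' - 3 * y' + 1) / 2) = -x' - 3 * y' + 1 := by omega
      have a4 : 2 * ((x' - y' + 1) / 2) = x' - y' + 1 := by omega
      omega
    · have a1 : 2 * ((-x - 3 * y + 1) / 2) = -x - 3 * y + 1 := by omega
      have a2 : 2 * ((x - y + 1) / 2) = x - y + 1 := by omega
      have a3 : 2 * ((-x' - 3 * y' + 1) / 2) = -x' - 3 * y' := by omega
      have a4 : 2 * ((x' - y' + 1) / 2) = x' - y' := by omega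
      omega
    · have a1 : 2 * ((-x - 3 * y + 1) / 2) = -x - 3 * y + 1 := by omega
      have a2 : 2 * ((x - y + 1) / 2) = x - y + 1 := by omega
      have a3 : 2 * ((-x' - 3 * y' + 1) / 2) = -x' - 3 * y' + 1 := by omega
      have a4 : 2 * ((x' - y' + 1) / 2) = x' - y' + 1 := by omega
      omega
  subst e2
  have e1 : x = x' := by omega
  rw [e1]

lemma rot_edge {p q : ℤ × ℤ} (h : Edge p q) : Edge (rot p) (rot q) := by
  obtain ⟨x, y⟩ := p
  obtain ⟨x', y'⟩ := q
  unfold Edge rot at *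
  simp only [Prod.mk.injEq, Int.even_iff] at h ⊢
  rcases h with ⟨h1, h2⟩ | ⟨h1, h2⟩ | ⟨⟨h1, h2⟩, h3⟩ | ⟨⟨h1, h2⟩, h3⟩
  · rcases Int.emod_two_eq_zero_or_one (x + y) with h0 | h0
    · right; right; left
      refine ⟨⟨?_, ?_⟩, ?_⟩ <;> omega
    · right; left
      constructor <;> omega
  · rcases Int.emod_two_eq_zero_or_one (x' + y') with h0 | h0
    · right; right; right
      refine ⟨⟨?_, ?_⟩, ?_⟩ <;> omega
    · left
      constructor <;> omega
  · right; left
    constructor <;> omega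
  · left
    constructor <;> omega

theorem rot_loop {n : ℕ} {f : Fin (n + 1) → ℤ × ℤ} (h : Loop n f) : Loop n (fun i => rot (f i)) := by
  obtain ⟨h0, h1, h2⟩ := h
  refine ⟨?_, ?_, fun i => rot_edge (h2 i)⟩
  · simp only [h0]
    decide
  · intro i j hij
    exact h1 (rot_inj hij)

lemma rows_exist {n : ℕ} (f : Fin (n + 1) → ℤ × ℤ) : ∃ T : ℕ, ∃ a : ℤ,
    (∀ i, a ≤ (f i).2 ∧ (f i).2 < a + T) ∧ (∃ i, (f i).2 = a) ∧ ∃ i, (f i).2 = a + T - 1 := by
  obtain ⟨i0, h0⟩ := Finite.exists_min (fun i => (f i).2)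
  obtain ⟨i1, h1⟩ := Finite.exists_max (fun i => (f i).2)
  have h01 := h0 i1
  refine ⟨((f i1).2 - (f i0).2 + 1).toNat, (f i0).2, ?_, ⟨i0, rfl⟩, i1, ?_⟩
  · intro i
    have := h0 i
    have := h1 i
    constructor <;> omega
  · omega

theorem rows_area {n : ℕ} {f : Fin (n + 1) → ℤ × ℤ} (h : Loop n f) :
    ∃ T T' : ℕ, Rows T f ∧ Rows T' (fun i => rot (f i)) ∧ n + 1 ≤ 2 * T * T' := by
  obtain ⟨T, a, h1, h2, h3⟩ := rows_exist f
  obtain ⟨T', a', h1', h2', h3'⟩ := rows_exist (fun i => rot (f i))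
  refine ⟨T, T', ⟨a, h1, h2, h3⟩, ⟨a', h1', h2', h3'⟩, ?_⟩
  have hinj : ∀ i ∈ (Finset.univ : Finset (Fin (n + 1))), ∀ j ∈ (Finset.univ : Finset (Fin (n + 1))),
      (((f i).2, (rot (f i)).2, ((f i).1 + (f i).2) % 2) : ℤ × ℤ × ℤ) =
        ((f j).2, (rot (f j)).2, ((f j).1 + (f j).2) % 2) → i = j := by
    intro i _ j _ hij
    apply h.2.1
    simp only [Prod.mk.injEq, rot] at hij
    obtain ⟨e1, e2, e3⟩ := hij
    ext
    · omega
    · exact e1
  have hsub : ∀ i ∈ (Finset.univ : Finset (Fin (n + 1))),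
      (((f i).2, (rot (f i)).2, ((f i).1 + (f i).2) % 2) : ℤ × ℤ × ℤ) ∈
        (Finset.Ico a (a + T)) ×ˢ ((Finset.Ico a' (a' + T')) ×ˢ (Finset.Ico (0 : ℤ) 2)) := by
    intro i _
    simp only [Finset.mem_product, Finset.mem_Ico]
    refine ⟨h1 i, h1' i, ?_, ?_⟩
    · omega
    · omega
  have hc := Finset.card_le_card_of_injOn _ hsub (fun i hi j hj => hinj i hi j hj)
  rw [Finset.card_product, Finset.card_product, Int.card_Ico, Int.card_Ico, Int.card_Ico, Finset.card_univ,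
    Fintype.card_fin] at hc
  have e1 : (a + T - a).toNat = T := by omega
  have e2 : (a' + T' - a').toNat = T' := by omega
  have e3 : ((2 : ℤ) - 0).toNat = 2 := by omega
  rw [e1, e2, e3] at hc
  calc n + 1 ≤ T * (T' * 2) := hc
    _ = 2 * T * T' := by ring

end CC

end HexObs
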