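import Pool.Agent.HexPoly.Root
import Pool.Agent.HexPoly.RotL
import Pool.Agent.W47.Bridge
import Pool.Agent.HexSlit.Count
import Pool.Agent.Slit.WordsLe

/-!
POLY, module P11: from the height bound for polygons to the number of polygons and the closing
probability.
-/

set_option autoImplicit false

open Finset

namespace HexObs

namespace CC

/-- self-avoiding walks with n steps from the origin. -/
def Walk (n : ℕ) (f : Fin (n + 1) → ℤ × ℤ) : Prop :=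
  f 0 = (0, 0) ∧ Function.Injective f ∧ ∀ i : Fin n, Edge (f i.castSucc) (f i.succ)

namespace P11

/-! ### Finiteness -/

lemma edge_abs {p q : ℤ × ℤ} (h : Edge p q) : |q.1| ≤ |p.1| + 1 ∧ |q.2| ≤ |p.2| + 1 := by
  have key : |q.1 - p.1| ≤ 1 ∧ |q.2 - p.2| ≤ 1 := by
    rcases h with h | h | ⟨h, _⟩ | ⟨h, _⟩
    · rw [h]; simp
    · rw [h]; simp
    · rw [h]; simp
    · rw [h]; simp
  constructor
  · have := abs_sub_abs_le_abs_sub q.1 p.1
    linarith [key.1]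
  · have := abs_sub_abs_le_abs_sub q.2 p.2
    linarith [key.2]

lemma walk_abs {n : ℕ} {f : Fin (n + 1) → ℤ × ℤ} (h : Walk n f) (i : ℕ) (hi : i < n + 1) :
    |(f ⟨i, hi⟩).1| ≤ i ∧ |(f ⟨i, hi⟩).2| ≤ i := by
  induction i with
  | zero =>
    have h0 : f ⟨0, hi⟩ = (0, 0) := h.1
    rw [h0]
    simp
  | succ i ih =>
    have h1 := ih (by omega)
    have h2 := edge_abs (h.2.2 ⟨i, by omega⟩)
    have e1 : (⟨i, by omega⟩ : Fin n).castSucc = (⟨i, by omega⟩ : Fin (n + 1)) := rfl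
    have e2 : (⟨i, by omega⟩ : Fin n).succ = (⟨i + 1, hi⟩ : Fin (n + 1)) := rfl
    rw [e1, e2] at h2
    push_cast
    exact ⟨by linarith [h1.1, h2.1], by linarith [h1.2, h2.2]⟩

lemma walk_box {n : ℕ} {f : Fin (n + 1) → ℤ × ℤ} (h : Walk n f) (i : Fin (n + 1)) :
    |(f i).1| ≤ n ∧ |(f i).2| ≤ n := by
  have h1 := walk_abs h i.1 i.2
  have h2 : (i.1 : ℤ) ≤ n := by exact_mod_cast Nat.lt_succ_iff.1 i.2
  exact ⟨h1.1.trans h2, h1.2.trans h2⟩

lemma walk_finite (n : ℕ) : {f | Walk n f}.Finite := by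
  have hf : (Set.univ.pi fun _ : Fin (n + 1) =>
      ((Set.Icc (-(n : ℤ)) n) ×ˢ (Set.Icc (-(n : ℤ)) n) : Set (ℤ × ℤ))).Finite :=
    Set.Finite.pi fun _ => (Set.finite_Icc _ _).prod (Set.finite_Icc _ _)
  refine hf.subset ?_
  intro f hf
  rw [Set.mem_univ_pi]
  intro i
  have h := walk_box hf i
  exact ⟨abs_le.1 h.1, abs_le.1 h.2⟩

lemma loop_walk {n : ℕ} {f : Fin (n + 1) → ℤ × ℤ} (h : Loop n f) : Walk n f := by
  refine ⟨h.1, h.2.1, fun i => ?_⟩
  have h1 := h.2.2 i.castSucc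
  rwa [Fin.coeSucc_eq_succ] at h1

lemma loop_finite (n : ℕ) : {f | Loop n f}.Finite :=
  (walk_finite n).subset fun _ h => loop_walk h

lemma rows_finite (n T : ℕ) : {f : Fin (n + 1) → ℤ × ℤ | Loop n f ∧ Rows T f}.Finite :=
  (loop_finite n).subset fun _ h => h.1

/-- a loop with `n + 1` sites has at most `2 n + 1` rows. -/
lemma rows_le {n T : ℕ} {f : Fin (n + 1) → ℤ × ℤ} (h : Loop n f) (hT : Rows T f) :
    T ≤ 2 * n + 1 := by
  obtain ⟨a, -, ⟨i, hi⟩, ⟨j, hj⟩⟩ := hT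
  have h1 := abs_le.1 (walk_box (loop_walk h) i).2
  have h2 := abs_le.1 (walk_box (loop_walk h) j).2
  rw [hi] at h1
  rw [hj] at h2
  have : (T : ℤ) ≤ 2 * n + 1 := by linarith [h1.1, h2.2]
  exact_mod_cast this

lemma rows_pos {n T : ℕ} {f : Fin (n + 1) → ℤ × ℤ} (hT : Rows T f) : 1 ≤ T := by
  obtain ⟨a, h, -, -⟩ := hT
  have := h 0
  have h1 : (0 : ℤ) < T := by linarith [this.1, this.2]
  exact_mod_cast h1

/-! ### Loops with given height -/

/-- the critical weight of a site -/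
noncomputable def xx : ℝ := (Real.sqrt (2 + Real.sqrt 2))⁻¹

lemma xx_pos : 0 < xx := by unfold xx; positivity

/-- the number of loops with `T` rows -/
noncomputable def cR (n T : ℕ) : ℝ := (Set.ncard {f : Fin (n + 1) → ℤ × ℤ | Loop n f ∧ Rows T f} : ℝ)

/-- the number of loops -/
noncomputable def cL (n : ℕ) : ℝ := (Set.ncard {f : Fin (n + 1) → ℤ × ℤ | Loop n f} : ℝ)

lemma cR_nonneg (n T : ℕ) : 0 ≤ cR n T := Nat.cast_nonneg _

lemma cL_nonneg (n : ℕ) : 0 ≤ cL n := Nat.cast_nonneg _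

/-- the lists of the loops -/
lemma exists_lists {n T : ℕ} (hn : 2 ≤ n) : ∃ Q : Finset (List (ℤ × ℤ)),
    (∀ L ∈ Q, PolC T L ∧ L.length = n + 1) ∧ cR n T ≤ Q.card * (2 * (n + 1)) := by
  classical
  obtain ⟨F, hF, hP⟩ := root (n := n) (T := T) hn
  have hfin := rows_finite n T
  let A := hfin.toFinset
  refine ⟨A.image (fun f => (F f).1), ?_, ?_⟩
  · intro L hL
    rw [mem_image] at hL
    obtain ⟨f, hf, rfl⟩ := hL
    rw [Set.Finite.mem_toFinset] at hf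
    exact hP f hf.1 hf.2
  · have h1 : A.card ≤ (A.image (fun f => (F f).1) ×ˢ (univ : Finset (Fin (n + 1) × Bool))).card := by
      apply card_le_card_of_injOn F
      · intro f hf
        rw [mem_coe] at hf
        rw [mem_coe, mem_product]
        exact ⟨mem_image_of_mem _ hf, mem_univ _⟩
      · intro f hf g hg hfg
        rw [mem_coe, Set.Finite.mem_toFinset] at hf hg
        exact hF hf hg hfg
    rw [card_product, card_univ, Fintype.card_prod, Fintype.card_fin, Fintype.card_bool] at h1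
    unfold cR
    rw [Set.ncard_eq_toFinset_card _ hfin]
    have h2 : ((A.card : ℕ) : ℝ) ≤
        (((A.image (fun f => (F f).1)).card * ((n + 1) * 2) : ℕ) : ℝ) := by exact_mod_cast h1
    refine h2.trans (le_of_eq ?_)
    push_cast
    ring

/-- part one -/
lemma height_bound {C : ℝ} (hC : 0 < C) {T : ℕ} (hT : 1 ≤ T)
    (h : ∑' L : {L // PolC T L}, wt L ≤ ENNReal.ofReal (C / (T : ℝ) ^ 3)) (M : ℕ) :
    ∑ n ∈ Ico 2 M, cR n T * xx ^ (n + 1) / (n + 1) ≤ 2 * C / (T : ℝ) ^ 3 := by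
  classical
  have hex : ∀ n : ℕ, ∃ Q : Finset (List (ℤ × ℤ)), 2 ≤ n →
      (∀ L ∈ Q, PolC T L ∧ L.length = n + 1) ∧ cR n T ≤ Q.card * (2 * (n + 1)) := by
    intro n
    by_cases hn : 2 ≤ n
    · obtain ⟨Q, hQ⟩ := exists_lists (T := T) hn
      exact ⟨Q, fun _ => hQ⟩
    · exact ⟨∅, fun h => absurd h hn⟩
  choose Q hQ using hex
  have hx := xx_pos
  -- the union of the lists
  have hdis : ((Ico 2 M : Finset ℕ) : Set ℕ).PairwiseDisjoint Q := by
    intro i hi j hj hij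
    rw [Function.onFun, disjoint_left]
    intro L hL hL'
    rw [mem_coe, mem_Ico] at hi hj
    have h1 := ((hQ i hi.1).1 L hL).2
    have h2 := ((hQ j hj.1).1 L hL').2
    omega
  have hsum : ∑ n ∈ Ico 2 M, ((Q n).card : ℝ) * xx ^ (n + 1) =
      ∑ L ∈ (Ico 2 M).biUnion Q, xx ^ L.length := by
    rw [sum_biUnion hdis]
    apply sum_congr rfl
    intro n hn
    rw [mem_Ico] at hn
    rw [← nsmul_eq_mul, ← sum_const]
    apply sum_congr rfl
    intro L hL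
    rw [((hQ n hn.1).1 L hL).2]
  have hle : ∑ L ∈ (Ico 2 M).biUnion Q, xx ^ L.length ≤ C / (T : ℝ) ^ 3 := by
    have hpol : ∀ L ∈ (Ico 2 M).biUnion Q, PolC T L := by
      intro L hL
      rw [mem_biUnion] at hL
      obtain ⟨n, hn, hL⟩ := hL
      rw [mem_Ico] at hn
      exact ((hQ n hn.1).1 L hL).1
    have h1 : ENNReal.ofReal (∑ L ∈ (Ico 2 M).biUnion Q, xx ^ L.length) ≤
        ENNReal.ofReal (C / (T : ℝ) ^ 3) := by
      refine le_trans ?_ h
      rw [ENNReal.ofReal_sum_of_nonneg (fun L _ => pow_nonneg hx.le _)]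
      have h2 : ∑ L ∈ (Ico 2 M).biUnion Q, ENNReal.ofReal (xx ^ L.length) =
          ∑ L ∈ ((Ico 2 M).biUnion Q).subtype (PolC T), wt L := by
        rw [sum_subtype_eq_sum_filter (f := fun L => wt L)]
        rw [filter_true_of_mem hpol]
        rfl
      rw [h2]
      exact ENNReal.sum_le_tsum _
    exact (ENNReal.ofReal_le_ofReal_iff (by positivity)).1 h1
  calc ∑ n ∈ Ico 2 M, cR n T * xx ^ (n + 1) / (n + 1)
      ≤ ∑ n ∈ Ico 2 M, 2 * (((Q n).card : ℝ) * xx ^ (n + 1)) := by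
        apply sum_le_sum
        intro n hn
        rw [mem_Ico] at hn
        have h3 := (hQ n hn.1).2
        have hn0 : (0 : ℝ) < (n : ℝ) + 1 := by positivity
        rw [div_le_iff₀ hn0]
        have h4 : 0 ≤ xx ^ (n + 1) := pow_nonneg hx.le _
        calc cR n T * xx ^ (n + 1) ≤ ((Q n).card * (2 * ((n : ℝ) + 1))) * xx ^ (n + 1) :=
              mul_le_mul_of_nonneg_right h3 h4
          _ = _ := by ring
    _ = 2 * ∑ L ∈ (Ico 2 M).biUnion Q, xx ^ L.length := by rw [← mul_sum, hsum]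
    _ ≤ 2 * (C / (T : ℝ) ^ 3) := by linarith
    _ = _ := by ring

/-! ### All loops -/

lemma cL_le {n : ℕ} (hn : 2 ≤ n) :
    cL n ≤ 2 * ∑ T ∈ (Icc 1 (2 * n + 1)).filter (fun T => n + 1 ≤ 2 * T ^ 2), cR n T := by
  classical
  have hfin := loop_finite n
  set S := (Icc 1 (2 * n + 1)).filter (fun T => n + 1 ≤ 2 * T ^ 2) with hS
  let A : Finset (Fin (n + 1) → ℤ × ℤ) := hfin.toFinset
  let B : ℕ → Finset (Fin (n + 1) → ℤ × ℤ) := fun T => (rows_finite n T).toFinset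
  let G : Finset (Fin (n + 1) → ℤ × ℤ) := S.biUnion B
  have hG : ∀ {f : Fin (n + 1) → ℤ × ℤ} {T : ℕ}, Loop n f → Rows T f → n + 1 ≤ 2 * T ^ 2 → f ∈ G := by
    intro f T h1 h2 h3
    rw [mem_biUnion]
    refine ⟨T, ?_, ?_⟩
    · rw [hS, mem_filter, mem_Icc]
      exact ⟨⟨rows_pos h2, rows_le h1 h2⟩, h3⟩
    · rw [Set.Finite.mem_toFinset]
      exact ⟨h1, h2⟩
  have hcard : G.card ≤ ∑ T ∈ S, (B T).card := card_biUnion_le
  have hA : A ⊆ G ∪ A.filter (fun f => (fun i => rot (f i)) ∈ G) := by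
    intro f hf
    rw [Set.Finite.mem_toFinset] at hf
    have hf' : Loop n f := hf
    obtain ⟨T, T', h1, h2, h3⟩ := rows_area hf'
    rw [mem_union]
    by_cases h4 : n + 1 ≤ 2 * T ^ 2
    · exact Or.inl (hG hf' h1 h4)
    · right
      rw [mem_filter, Set.Finite.mem_toFinset]
      refine ⟨hf, hG (rot_loop hf') h2 ?_⟩
      by_contra h5
      have h6 : 2 * T ^ 2 < n + 1 := by omega
      have h7 : 2 * T' ^ 2 < n + 1 := by omega
      rcases le_total T T' with h8 | h8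
      · have : 2 * T * T' ≤ 2 * T' ^ 2 := by nlinarith
        omega
      · have : 2 * T * T' ≤ 2 * T ^ 2 := by nlinarith
        omega
  have h2 : (A.filter (fun f => (fun i => rot (f i)) ∈ G)).card ≤ G.card := by
    apply card_le_card_of_injOn (fun f => fun i => rot (f i))
    · intro f hf
      rw [mem_coe, mem_filter] at hf
      exact hf.2
    · intro f _ g _ hfg
      funext i
      exact rot_inj (congrFun hfg i)
  have h3 : A.card ≤ 2 * ∑ T ∈ S, (B T).card := by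
    have h4 := card_le_card hA
    have h5 := card_union_le G (A.filter (fun f => (fun i => rot (f i)) ∈ G))
    omega
  have e1 : cL n = A.card := by
    unfold cL
    rw [Set.ncard_eq_toFinset_card _ hfin]
  have e2 : ∀ T, cR n T = (B T).card := by
    intro T
    unfold cR
    rw [Set.ncard_eq_toFinset_card _ (rows_finite n T)]
  rw [e1]
  simp only [e2]
  exact_mod_cast h3

/-- the telescoping bound -/
lemma sum_cubes (N R : ℕ) (hN : 1 ≤ N) :
    ∑ T ∈ (Icc 1 R).filter (fun T => N + 1 ≤ 2 * T ^ 2), (1 : ℝ) / (T : ℝ) ^ 3 ≤ (8 / 3) / (N : ℝ) := by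
  have hN0 : (0 : ℝ) < N := by exact_mod_cast hN
  let g : ℕ → ℝ := fun T => min (1 / (T : ℝ) ^ 2) (2 / ((N : ℝ) + 1))
  have hstep : ∀ T : ℕ, 1 ≤ T →
      (if N + 1 ≤ 2 * T ^ 2 then 1 / (T : ℝ) ^ 3 else 0) ≤ (4 / 3) * (g T - g (T + 1)) := by
    intro T hT
    have hT0 : (1 : ℝ) ≤ T := by exact_mod_cast hT
    have hmono : g (T + 1) ≤ g T := by
      apply min_le_min_right
      push_cast
      apply one_div_le_one_div_of_le (by positivity)
      nlinarith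
    split_ifs with h1
    · have h2 : ((N : ℝ) + 1) ≤ 2 * (T : ℝ) ^ 2 := by exact_mod_cast h1
      have e1 : g T = 1 / (T : ℝ) ^ 2 := by
        apply min_eq_left
        rw [div_le_div_iff₀ (by positivity) (by positivity)]
        linarith
      have e2 : g (T + 1) ≤ 1 / ((T : ℝ) + 1) ^ 2 := by
        have h3 : g (T + 1) ≤ 1 / (((T + 1 : ℕ) : ℝ)) ^ 2 := min_le_left _ _
        rw [Nat.cast_add, Nat.cast_one] at h3
        exact h3
      have e3 : 1 / (T : ℝ) ^ 3 ≤ (4 / 3) * (1 / (T : ℝ) ^ 2 - 1 / ((T : ℝ) + 1) ^ 2) := by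
        rw [div_sub_div _ _ (by positivity) (by positivity), ← sub_nonneg]
        have e4 : (4 / 3) * ((1 * ((T : ℝ) + 1) ^ 2 - (T : ℝ) ^ 2 * 1) / ((T : ℝ) ^ 2 * ((T : ℝ) + 1) ^ 2)) -
            1 / (T : ℝ) ^ 3 = ((4 / 3) * T * (2 * T + 1) - (T + 1) ^ 2) / ((T : ℝ) ^ 3 * ((T : ℝ) + 1) ^ 2) := by
          field_simp
          ring
        rw [e4]
        apply div_nonneg _ (by positivity)
        nlinarith
      rw [e1]
      linarith
    · have : 0 ≤ g T - g (T + 1) := by linarith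
      positivity
  have htel : ∀ R : ℕ, ∑ T ∈ Icc 1 R, (g T - g (T + 1)) = g 1 - g (R + 1) := by
    intro R
    induction R with
    | zero => simp
    | succ R ih =>
      rw [sum_Icc_succ_top (by omega), ih]
      ring
  rw [sum_filter]
  calc ∑ T ∈ Icc 1 R, (if N + 1 ≤ 2 * T ^ 2 then 1 / (T : ℝ) ^ 3 else 0)
      ≤ ∑ T ∈ Icc 1 R, (4 / 3) * (g T - g (T + 1)) :=
        sum_le_sum fun T hT => hstep T (mem_Icc.1 hT).1
    _ = (4 / 3) * (g 1 - g (R + 1)) := by rw [← mul_sum, htel]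
    _ ≤ (4 / 3) * (2 / N) := by
        have h1 : g 1 ≤ 2 / ((N : ℝ) + 1) := min_le_right _ _
        have h2 : 0 ≤ g (R + 1) := by
          apply le_min <;> positivity
        have h3 : 2 / ((N : ℝ) + 1) ≤ 2 / N := by
          apply div_le_div_of_nonneg_left (by norm_num) hN0 (by linarith)
        nlinarith
    _ = (8 / 3) / N := by ring

/-- part two -/
lemma all_bound {C : ℝ} (hC : 0 < C)
    (h : ∀ T : ℕ, 1 ≤ T → ∀ M : ℕ, ∑ n ∈ Ico 2 M, cR n T * xx ^ (n + 1) / (n + 1) ≤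
      2 * C / (T : ℝ) ^ 3) {N : ℕ} (hN : 2 ≤ N) (M : ℕ) :
    ∑ n ∈ Ico N M, cL n * xx ^ (n + 1) / (n + 1) ≤ (32 / 3) * C / N := by
  classical
  have hx := xx_pos
  set S := (Icc 1 (2 * M + 1)).filter (fun T => N + 1 ≤ 2 * T ^ 2) with hS
  have h1 : ∀ n ∈ Ico N M, cL n * xx ^ (n + 1) / (n + 1) ≤
      2 * ∑ T ∈ S, cR n T * xx ^ (n + 1) / (n + 1) := by
    intro n hn
    rw [mem_Ico] at hn
    have h2 := cL_le (n := n) (by omega)
    have h3 : ∑ T ∈ (Icc 1 (2 * n + 1)).filter (fun T => n + 1 ≤ 2 * T ^ 2), cR n T ≤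
        ∑ T ∈ S, cR n T := by
      apply sum_le_sum_of_subset_of_nonneg
      · intro T hT
        rw [mem_filter, mem_Icc] at hT
        rw [hS, mem_filter, mem_Icc]
        exact ⟨⟨hT.1.1, by omega⟩, by omega⟩
      · intro T _ _
        exact cR_nonneg n T
    have h4 : cL n ≤ 2 * ∑ T ∈ S, cR n T := by linarith
    have h5 : 0 ≤ xx ^ (n + 1) / ((n : ℝ) + 1) := by positivity
    have h6 := mul_le_mul_of_nonneg_right h4 h5
    calc cL n * xx ^ (n + 1) / (n + 1) = cL n * (xx ^ (n + 1) / ((n : ℝ) + 1)) := by ring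
      _ ≤ (2 * ∑ T ∈ S, cR n T) * (xx ^ (n + 1) / ((n : ℝ) + 1)) := h6
      _ = 2 * ∑ T ∈ S, cR n T * xx ^ (n + 1) / (n + 1) := by
        rw [mul_assoc, sum_mul]
        congr 1
        apply sum_congr rfl
        intro T _
        ring
  calc ∑ n ∈ Ico N M, cL n * xx ^ (n + 1) / (n + 1)
      ≤ ∑ n ∈ Ico N M, 2 * ∑ T ∈ S, cR n T * xx ^ (n + 1) / (n + 1) := sum_le_sum h1
    _ = 2 * ∑ T ∈ S, ∑ n ∈ Ico N M, cR n T * xx ^ (n + 1) / (n + 1) := by
        rw [← mul_sum, sum_comm]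
    _ ≤ 2 * ∑ T ∈ S, 2 * C * (1 / (T : ℝ) ^ 3) := by
        apply mul_le_mul_of_nonneg_left _ (by norm_num)
        apply sum_le_sum
        intro T hT
        rw [hS, mem_filter, mem_Icc] at hT
        refine le_trans ?_ ((h T hT.1.1 M).trans (le_of_eq (by ring)))
        apply sum_le_sum_of_subset_of_nonneg
        · intro n hn
          rw [mem_Ico] at hn ⊢
          omega
        · intro n _ _
          have := cR_nonneg n T
          positivity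
    _ = 4 * C * ∑ T ∈ S, 1 / (T : ℝ) ^ 3 := by
        rw [← mul_sum]
        ring
    _ ≤ 4 * C * ((8 / 3) / N) :=
        mul_le_mul_of_nonneg_left (sum_cubes N (2 * M + 1) (by omega)) (by positivity)
    _ = _ := by ring

/-! ### The number of walks -/

lemma edge_iff (p q : ℤ × ℤ) : HexMu.HexAdj p q ↔ Edge p q := by
  unfold HexMu.HexAdj Edge
  simp only [Prod.ext_iff, Prod.fst_sub, Prod.snd_sub]
  constructor
  · rintro (⟨h1, h2⟩ | ⟨h1, h2⟩ | ⟨⟨h1, h2⟩, h3⟩ | ⟨⟨h1, h2⟩, h3⟩)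
    · exact Or.inl ⟨by linarith, by linarith⟩
    · exact Or.inr (Or.inl ⟨by linarith, by linarith⟩)
    · exact Or.inr (Or.inr (Or.inl ⟨⟨by linarith, by linarith⟩, h3⟩))
    · exact Or.inr (Or.inr (Or.inr ⟨⟨by linarith, by linarith⟩, h3⟩))
  · rintro (⟨h1, h2⟩ | ⟨h1, h2⟩ | ⟨⟨h1, h2⟩, h3⟩ | ⟨⟨h1, h2⟩, h3⟩)
    · exact Or.inl ⟨by linarith, by linarith⟩
    · exact Or.inr (Or.inl ⟨by linarith, by linarith⟩)
    · exact Or.inr (Or.inr (Or.inl ⟨⟨by linarith, by linarith⟩, h3⟩))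
    · exact Or.inr (Or.inr (Or.inr ⟨⟨by linarith, by linarith⟩, h3⟩))

/-- the number of walks -/
noncomputable def cW (n : ℕ) : ℝ := (Set.ncard {f : Fin (n + 1) → ℤ × ℤ | Walk n f} : ℝ)

lemma walk_lower : ∃ c : ℝ, 0 < c ∧ ∀ n : ℕ, 1 ≤ n →
    c * (n : ℝ) ^ ((1 : ℝ) / 180) * (xx⁻¹) ^ n ≤ cW n := by
  obtain ⟨c, hc, h⟩ := HexSlit.count_lower
  refine ⟨c / 2, by positivity, fun n hn => ?_⟩
  have hx : xx⁻¹ = HexObs.xc⁻¹ := by
    rw [HexObs.CC.xc_eq]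
    rfl
  have h1 := h n hn
  have ha : ∀ n : ℕ, Set.ncard {f : Fin (n + 1) → ℤ × ℤ | Walk n f} =
      Set.ncard {f : Fin (n + 1) → ℤ × ℤ |
      f 0 = 0 ∧ Function.Injective f ∧ ∀ i : Fin n, HexMu.HexAdj (f i.castSucc) (f i.succ)} := by
    intro n
    apply congrArg Set.ncard
    ext f
    simp only [Set.mem_ofPred_eq]
    unfold Walk
    constructor
    · rintro ⟨h1, h2, h3⟩
      exact ⟨h1, h2, fun i => (edge_iff _ _).2 (h3 i)⟩
    · rintro ⟨h1, h2, h3⟩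
      exact ⟨h1, h2, fun i => (edge_iff _ _).1 (h3 i)⟩
  have h2 := HexMu.words_le (a := fun n => Set.ncard {f : Fin (n + 1) → ℤ × ℤ | Walk n f}) ha hn
  rw [hx]
  have h3 : ((HexSlit.sawWords n).ncard : ℝ) ≤ 2 * cW n := h2
  have h4 := h1.trans h3
  linarith

lemma inv_xx_le : xx⁻¹ ≤ 2 := by
  unfold xx
  rw [inv_inv]
  have h2 : Real.sqrt 2 ≤ 2 := by
    rw [Real.sqrt_le_left (by norm_num)]
    norm_num
  have h4 : Real.sqrt (2 + Real.sqrt 2) ≤ Real.sqrt (2 ^ 2) := Real.sqrt_le_sqrt (by linarith)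
  rwa [Real.sqrt_sq (by norm_num)] at h4

/-- part three -/
lemma one_bound {C : ℝ} (hC : 0 < C) (h : ∀ N : ℕ, 2 ≤ N → ∀ M : ℕ,
    ∑ n ∈ Ico N M, cL n * xx ^ (n + 1) / (n + 1) ≤ (32 / 3) * C / N) {n : ℕ} (hn : 2 ≤ n) :
    cL n ≤ 32 * C * (xx⁻¹) ^ n := by
  have hx := xx_pos
  have hx2 := inv_xx_le
  have h1 := h n hn (n + 1)
  rw [Nat.Ico_succ_singleton, sum_singleton] at h1
  have hn0 : (2 : ℝ) ≤ n := by exact_mod_cast hn
  have h2 : cL n * xx ^ (n + 1) ≤ (32 / 3) * C / n * (n + 1) := by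
    rwa [div_le_iff₀ (by positivity)] at h1
  have h3 : (32 / 3) * C / n * ((n : ℝ) + 1) ≤ 16 * C := by
    rw [div_mul_eq_mul_div, div_le_iff₀ (by positivity)]
    nlinarith
  have h4 : cL n * xx ^ (n + 1) ≤ 16 * C := h2.trans h3
  have h5 : 0 ≤ (xx⁻¹) ^ (n + 1) := by positivity
  have h6 := mul_le_mul_of_nonneg_right h4 h5
  have h7 : cL n * xx ^ (n + 1) * (xx⁻¹) ^ (n + 1) = cL n := by
    rw [mul_assoc, ← mul_pow, mul_inv_cancel₀ hx.ne', one_pow, mul_one]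
  rw [h7] at h6
  calc cL n ≤ 16 * C * (xx⁻¹) ^ (n + 1) := h6
    _ = 16 * C * (xx⁻¹) ^ n * xx⁻¹ := by rw [pow_succ]; ring
    _ ≤ 16 * C * (xx⁻¹) ^ n * 2 := mul_le_mul_of_nonneg_left hx2 (by positivity)
    _ = _ := by ring

/-- part four -/
lemma closing {C c : ℝ} (hC : 0 < C) (hc : 0 < c) (h : ∀ N : ℕ, 2 ≤ N → ∀ M : ℕ,
    ∑ n ∈ Ico N M, cL n * xx ^ (n + 1) / (n + 1) ≤ (32 / 3) * C / N)
    (hW : ∀ n : ℕ, 1 ≤ n → c * (n : ℝ) ^ ((1 : ℝ) / 180) * (xx⁻¹) ^ n ≤ cW n) {N : ℕ} (hN : 2 ≤ N) :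
    ∑ n ∈ Ico N (2 * N), cL n / cW n ≤ (128 / 3) * (C / c) / (N : ℝ) ^ ((1 : ℝ) / 180) := by
  have hx := xx_pos
  have hx2 := inv_xx_le
  have hN0 : (0 : ℝ) < N := by
    have : 0 < N := by omega
    exact_mod_cast this
  set P := (N : ℝ) ^ ((1 : ℝ) / 180) with hP
  have hP0 : 0 < P := Real.rpow_pos_of_pos hN0 _
  have h1 : ∀ n ∈ Ico N (2 * N), cL n / cW n ≤
      (4 * N / (c * P)) * (cL n * xx ^ (n + 1) / (n + 1)) := by
    intro n hn
    rw [mem_Ico] at hn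
    have h2 := hW n (by omega)
    have h3 : P ≤ (n : ℝ) ^ ((1 : ℝ) / 180) :=
      Real.rpow_le_rpow hN0.le (by exact_mod_cast hn.1) (by norm_num)
    have h4 : c * P * (xx⁻¹) ^ n ≤ cW n := by
      refine le_trans ?_ h2
      apply mul_le_mul_of_nonneg_right _ (by positivity)
      exact mul_le_mul_of_nonneg_left h3 hc.le
    have h5 : 0 < c * P * (xx⁻¹) ^ n := by positivity
    have h6 : cL n / cW n ≤ cL n / (c * P * (xx⁻¹) ^ n) :=
      div_le_div_of_nonneg_left (cL_nonneg n) h5 h4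
    refine h6.trans ?_
    have h7 : cL n / (c * P * (xx⁻¹) ^ n) = (1 / (c * P)) * (cL n * xx ^ n) := by
      rw [inv_pow]
      field_simp
    rw [h7]
    have h8 : xx ^ n ≤ 4 * N * (xx ^ (n + 1) / (n + 1)) := by
      have h9 : xx ^ n = xx⁻¹ * xx ^ (n + 1) := by
        rw [pow_succ]
        field_simp
      have h10 : ((n : ℝ) + 1) ≤ 2 * N := by
        have : n + 1 ≤ 2 * N := by omega
        exact_mod_cast this
      have h11 : xx⁻¹ * ((n : ℝ) + 1) ≤ 4 * N := by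
        calc xx⁻¹ * ((n : ℝ) + 1) ≤ 2 * (2 * N) :=
              mul_le_mul hx2 h10 (by positivity) (by norm_num)
          _ = 4 * N := by ring
      rw [h9, ← mul_div_assoc, le_div_iff₀ (by positivity)]
      calc xx⁻¹ * xx ^ (n + 1) * ((n : ℝ) + 1) = (xx⁻¹ * ((n : ℝ) + 1)) * xx ^ (n + 1) := by ring
        _ ≤ 4 * N * xx ^ (n + 1) := mul_le_mul_of_nonneg_right h11 (by positivity)
    have h12 := mul_le_mul_of_nonneg_left h8 (cL_nonneg n)
    have h13 := mul_le_mul_of_nonneg_left h12 (show 0 ≤ 1 / (c * P) by positivity)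
    refine h13.trans (le_of_eq ?_)
    ring
  calc ∑ n ∈ Ico N (2 * N), cL n / cW n
      ≤ ∑ n ∈ Ico N (2 * N), (4 * N / (c * P)) * (cL n * xx ^ (n + 1) / (n + 1)) := sum_le_sum h1
    _ = (4 * N / (c * P)) * ∑ n ∈ Ico N (2 * N), cL n * xx ^ (n + 1) / (n + 1) := by
        rw [← mul_sum]
    _ ≤ (4 * N / (c * P)) * ((32 / 3) * C / N) :=
        mul_le_mul_of_nonneg_left (h N hN (2 * N)) (by positivity)
    _ = _ := by
        field_simp
        ring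

end P11

open P11

/-- P11 with the gain of `HexSlit.count_lower`. -/
theorem count' {C : ℝ} (hC : 0 < C) (h : ∀ T : ℕ, 1 ≤ T →
    ∑' L : {L // PolC T L}, wt L ≤ ENNReal.ofReal (C / (T : ℝ) ^ 3)) : ∃ K : ℝ, 0 < K ∧
    (∀ T : ℕ, 1 ≤ T → ∀ M : ℕ, ∑ n ∈ Finset.Ico 2 M,
      (Set.ncard {f | Loop n f ∧ Rows T f} : ℝ) * (Real.sqrt (2 + Real.sqrt 2))⁻¹ ^ (n + 1) / (n + 1) ≤
        K / (T : ℝ) ^ 3) ∧
    (∀ N : ℕ, 2 ≤ N → ∀ M : ℕ, ∑ n ∈ Finset.Ico N M,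
      (Set.ncard {f | Loop n f} : ℝ) * (Real.sqrt (2 + Real.sqrt 2))⁻¹ ^ (n + 1) / (n + 1) ≤ K / N) ∧
    (∀ n : ℕ, 2 ≤ n → (Set.ncard {f | Loop n f} : ℝ) ≤ K * Real.sqrt (2 + Real.sqrt 2) ^ n) ∧
    ∀ N : ℕ, 2 ≤ N → ∑ n ∈ Finset.Ico N (2 * N),
      (Set.ncard {f | Loop n f} : ℝ) / (Set.ncard {f | Walk n f} : ℝ) ≤
        K / (N : ℝ) ^ ((1 : ℝ) / 180) := by
  obtain ⟨c, hc, hW⟩ := walk_lower
  have h1 : ∀ T : ℕ, 1 ≤ T → ∀ M : ℕ, ∑ n ∈ Ico 2 M, cR n T * xx ^ (n + 1) / (n + 1) ≤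
      2 * C / (T : ℝ) ^ 3 := fun T hT M => height_bound hC hT (h T hT) M
  have h2 : ∀ N : ℕ, 2 ≤ N → ∀ M : ℕ, ∑ n ∈ Ico N M, cL n * xx ^ (n + 1) / (n + 1) ≤
      (32 / 3) * C / N := fun N hN M => all_bound hC h1 hN M
  have hCc : 0 < C / c := by positivity
  refine ⟨43 * C + (128 / 3) * (C / c), by positivity, ?_, ?_, ?_, ?_⟩
  · intro T hT M
    refine (h1 T hT M).trans ?_
    apply div_le_div_of_nonneg_right _ (by positivity)
    linarith
  · intro N hN M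
    refine (h2 N hN M).trans ?_
    apply div_le_div_of_nonneg_right _ (by positivity)
    linarith
  · intro n hn
    have h3 := one_bound hC h2 hn
    have e : xx⁻¹ = Real.sqrt (2 + Real.sqrt 2) := by unfold xx; rw [inv_inv]
    rw [e] at h3
    refine h3.trans ?_
    apply mul_le_mul_of_nonneg_right _ (by positivity)
    linarith
  · intro N hN
    refine (closing hC hc h2 hW hN).trans ?_
    apply div_le_div_of_nonneg_right _ (Real.rpow_nonneg (Nat.cast_nonneg _) _)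
    linarith

theorem count {C : ℝ} (hC : 0 < C) (h : ∀ T : ℕ, 1 ≤ T →
    ∑' L : {L // PolC T L}, wt L ≤ ENNReal.ofReal (C / (T : ℝ) ^ 3)) : ∃ K : ℝ, 0 < K ∧
    (∀ T : ℕ, 1 ≤ T → ∀ M : ℕ, ∑ n ∈ Finset.Ico 2 M,
      (Set.ncard {f | Loop n f ∧ Rows T f} : ℝ) * (Real.sqrt (2 + Real.sqrt 2))⁻¹ ^ (n + 1) / (n + 1) ≤
        K / (T : ℝ) ^ 3) ∧
    (∀ N : ℕ, 2 ≤ N → ∀ M : ℕ, ∑ n ∈ Finset.Ico N M,
      (Set.ncard {f | Loop n f} : ℝ) * (Real.sqrt (2 + Real.sqrt 2))⁻¹ ^ (n + 1) / (n + 1) ≤ K / N) ∧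
    (∀ n : ℕ, 2 ≤ n → (Set.ncard {f | Loop n f} : ℝ) ≤ K * Real.sqrt (2 + Real.sqrt 2) ^ n) ∧
    ∀ N : ℕ, 2 ≤ N → ∑ n ∈ Finset.Ico N (2 * N),
      (Set.ncard {f | Loop n f} : ℝ) / (Set.ncard {f | Walk n f} : ℝ) ≤ K := by
  obtain ⟨K, hK, h1, h2, h3, h4⟩ := count' hC h
  refine ⟨K, hK, h1, h2, h3, fun N hN => (h4 N hN).trans ?_⟩
  apply div_le_self hK.le
  apply Real.one_le_rpow _ (by norm_num)
  have : 1 ≤ N := by omega
  exact_mod_cast this

end CC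

end HexObs
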