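import Pool.Agent.HexSlit.Count
import Pool.Agent.Slit.WordsLe
import Pool.Agent.HexPoly.LoopDefs
import Pool.Agent.W47.Bridge

/-!
POLY: the lower bound for the number of walks in the notation of this project.
-/

set_option autoImplicit false

namespace HexObs

namespace CC

/-- self-avoiding walks with n steps from the origin. -/
def WalkP (n : ℕ) (f : Fin (n + 1) → ℤ × ℤ) : Prop :=
  f 0 = (0, 0) ∧ Function.Injective f ∧ ∀ i : Fin n, Edge (f i.castSucc) (f i.succ)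

lemma edge_iff (p q : ℤ × ℤ) : Edge p q ↔ (q - p = (1, 0) ∨ q - p = (-1, 0) ∨
    (q - p = (0, 1) ∧ Even (p.1 + p.2)) ∨ (q - p = (0, -1) ∧ Even (q.1 + q.2))) := by
  obtain ⟨a, b⟩ := p
  obtain ⟨c, d⟩ := q
  unfold Edge
  simp only [Prod.mk.injEq, Prod.mk_sub_mk]
  constructor
  · rintro (h | h | ⟨h, he⟩ | ⟨h, he⟩)
    · left; omega
    · right; left; omega
    · right; right; left; exact ⟨by omega, he⟩
    · right; right; right; exact ⟨by omega, he⟩
  · rintro (h | h | ⟨h, he⟩ | ⟨h, he⟩)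
    · left; omega
    · right; left; omega
    · right; right; left; exact ⟨by omega, he⟩
    · right; right; right; exact ⟨by omega, he⟩

theorem walk_lower : ∃ c : ℝ, 0 < c ∧ ∀ n : ℕ, 1 ≤ n →
    c * (n : ℝ) ^ ((1 : ℝ) / 180) * Real.sqrt (2 + Real.sqrt 2) ^ n ≤ (Set.ncard {f | WalkP n f} : ℝ) := by
  obtain ⟨c, hc, h⟩ := HexSlit.count_lower
  refine ⟨c / 2, by positivity, ?_⟩
  intro n hn
  have e : ∀ m : ℕ, Set.ncard {f | WalkP m f} = Set.ncard {f : Fin (m + 1) → ℤ × ℤ |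
            f 0 = 0 ∧ Function.Injective f ∧
            ∀ i : Fin m, (fun p q : ℤ × ℤ =>
              q - p = (1, 0) ∨ q - p = (-1, 0) ∨
              (q - p = (0, 1) ∧ Even (p.1 + p.2)) ∨
              (q - p = (0, -1) ∧ Even (q.1 + q.2))) (f i.castSucc) (f i.succ)} := by
    intro m
    congr 1
    ext f
    simp only [Set.mem_ofPred_eq]
    unfold WalkP
    constructor
    · rintro ⟨h1, h2, h3⟩
      exact ⟨h1, h2, fun i => (edge_iff _ _).1 (h3 i)⟩
    · rintro ⟨h1, h2, h3⟩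
      exact ⟨h1, h2, fun i => (edge_iff _ _).2 (h3 i)⟩
  have h2 := HexMu.words_le (a := fun m => Set.ncard {f | WalkP m f}) e hn
  have h3 := h n hn
  have h7 : ((HexSlit.sawWords n).ncard : ℝ) ≤ 2 * (Set.ncard {f | WalkP n f} : ℝ) := h2
  rw [show HexObs.xc⁻¹ = Real.sqrt (2 + Real.sqrt 2) by rw [xc_eq, inv_inv]] at h3
  have h8 := h3.trans h7
  calc c / 2 * (n : ℝ) ^ ((1 : ℝ) / 180) * Real.sqrt (2 + Real.sqrt 2) ^ n
      = (c * (n : ℝ) ^ ((1 : ℝ) / 180) * Real.sqrt (2 + Real.sqrt 2) ^ n) / 2 := by ring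
    _ ≤ _ := by linarith

end CC

end HexObs
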