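import Pool.Agent.HexPoly.PolB
import Pool.Agent.HexPoly.Count
import Pool.Agent.HexPoly.WalkLow

/-!
POLY: the final statements.
-/

set_option autoImplicit false

open ENNReal

namespace HexObs

namespace CC

lemma walk_eq (n : ℕ) : {f | WalkP n f} = {f | Walk n f} := rfl

theorem final : ∃ K : ℝ, 0 < K ∧
    (∀ T : ℕ, 1 ≤ T → ∀ M : ℕ, ∑ n ∈ Finset.Ico 2 M,
      (Set.ncard {f | Loop n f ∧ Rows T f} : ℝ) * (Real.sqrt (2 + Real.sqrt 2))⁻¹ ^ (n + 1) / (n + 1) ≤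
        K / (T : ℝ) ^ 3) ∧
    (∀ N : ℕ, 2 ≤ N → ∀ M : ℕ, ∑ n ∈ Finset.Ico N M,
      (Set.ncard {f | Loop n f} : ℝ) * (Real.sqrt (2 + Real.sqrt 2))⁻¹ ^ (n + 1) / (n + 1) ≤ K / N) ∧
    (∀ n : ℕ, 2 ≤ n → (Set.ncard {f | Loop n f} : ℝ) ≤ K * Real.sqrt (2 + Real.sqrt 2) ^ n) ∧
    ∀ N : ℕ, 2 ≤ N → ∑ n ∈ Finset.Ico N (2 * N),
      (Set.ncard {f | Loop n f} : ℝ) / (Set.ncard {f | Walk n f} : ℝ) ≤ K / (N : ℝ) ^ ((1 : ℝ) / 180) := by
  obtain ⟨C, hC, h⟩ := pol_bound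
  obtain ⟨K, hK, h1, h2, h3, _⟩ := count hC h
  obtain ⟨c, hc, hw⟩ := walk_lower
  set μ : ℝ := Real.sqrt (2 + Real.sqrt 2) with hμ
  have hμ0 : 0 < μ := by positivity
  refine ⟨K + 3 * μ * K / c, by positivity, ?_, ?_, ?_, ?_⟩
  · intro T hT M
    refine (h1 T hT M).trans ?_
    have : 0 < (T : ℝ) := by exact_mod_cast hT
    have h5 : 0 ≤ 3 * μ * K / c := by positivity
    gcongr
    linarith
  · intro N hN M
    refine (h2 N hN M).trans ?_
    have : 0 < (N : ℝ) := by exact_mod_cast (by omega : 0 < N)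
    have h5 : 0 ≤ 3 * μ * K / c := by positivity
    gcongr
    linarith
  · intro n hn
    refine (h3 n hn).trans ?_
    have h5 : 0 ≤ 3 * μ * K / c := by positivity
    gcongr
    linarith
  · intro N hN
    have hN0 : 0 < (N : ℝ) := by exact_mod_cast (by omega : 0 < N)
    have hN2 : (2 : ℝ) ≤ N := by exact_mod_cast hN
    have hp : 0 < (N : ℝ) ^ ((1 : ℝ) / 180) := Real.rpow_pos_of_pos hN0 _
    -- each term
    have key : ∀ n ∈ Finset.Ico N (2 * N), (Set.ncard {f | Loop n f} : ℝ) / (Set.ncard {f | Walk n f} : ℝ) ≤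
        (3 * μ * N / (c * (N : ℝ) ^ ((1 : ℝ) / 180))) *
          ((Set.ncard {f | Loop n f} : ℝ) * μ⁻¹ ^ (n + 1) / (n + 1)) := by
      intro n hn
      rw [Finset.mem_Ico] at hn
      have hn1 : (N : ℝ) ≤ n := by exact_mod_cast hn.1
      have hn2 : (n : ℝ) < 2 * N := by exact_mod_cast hn.2
      have hw1 := hw n (by omega)
      rw [walk_eq] at hw1
      have hlow : c * (N : ℝ) ^ ((1 : ℝ) / 180) * μ ^ n ≤ (Set.ncard {f | Walk n f} : ℝ) := by
        refine le_trans ?_ hw1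
        have : (N : ℝ) ^ ((1 : ℝ) / 180) ≤ (n : ℝ) ^ ((1 : ℝ) / 180) :=
          Real.rpow_le_rpow hN0.le hn1 (by norm_num)
        gcongr
      have hpos : 0 < c * (N : ℝ) ^ ((1 : ℝ) / 180) * μ ^ n := by positivity
      have hR : (0 : ℝ) ≤ (Set.ncard {f | Loop n f} : ℝ) := Nat.cast_nonneg _
      calc (Set.ncard {f | Loop n f} : ℝ) / (Set.ncard {f | Walk n f} : ℝ)
          ≤ (Set.ncard {f | Loop n f} : ℝ) / (c * (N : ℝ) ^ ((1 : ℝ) / 180) * μ ^ n) :=
            div_le_div_of_nonneg_left hR hpos hlow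
        _ = (μ * ((n : ℝ) + 1) / (c * (N : ℝ) ^ ((1 : ℝ) / 180))) *
          ((Set.ncard {f | Loop n f} : ℝ) * μ⁻¹ ^ (n + 1) / (n + 1)) := by
            have h6 : ((n : ℝ) + 1) ≠ 0 := by positivity
            rw [inv_pow, pow_succ]
            field_simp
        _ ≤ _ := by
            have h7 : (n : ℝ) + 1 ≤ 3 * N := by linarith
            have h8 : 0 ≤ (Set.ncard {f | Loop n f} : ℝ) * μ⁻¹ ^ (n + 1) / (n + 1) := by positivity
            apply mul_le_mul_of_nonneg_right _ h8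
            apply div_le_div_of_nonneg_right _ (by positivity)
            nlinarith
    refine (Finset.sum_le_sum key).trans ?_
    rw [← Finset.mul_sum]
    have h9 := h2 N hN (2 * N)
    have h10 : 0 ≤ 3 * μ * N / (c * (N : ℝ) ^ ((1 : ℝ) / 180)) := by positivity
    refine (mul_le_mul_of_nonneg_left h9 h10).trans ?_
    have h11 : 3 * μ * N / (c * (N : ℝ) ^ ((1 : ℝ) / 180)) * (K / N) =
        (3 * μ * K / c) / (N : ℝ) ^ ((1 : ℝ) / 180) := by
      field_simp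
    rw [h11]
    apply div_le_div_of_nonneg_right _ hp.le
    linarith

end CC

end HexObs
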