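import Pool.Agent.HexPoly.Defs

/-!
POLY, P1: explorers beside a bridge (W47 (A) for a fixed obstacle).
-/

set_option autoImplicit false

namespace HexObs

namespace Ex

open Complex Finset ENNReal

namespace Beside

/-- the computation, with the kernel of the arcs. -/
theorem num {T : ℕ} (hT : 1 ≤ T) (K : ℕ → ℕ → ℝ≥0∞) (hsym : ∀ x y, K x y = K y x)
    (hle : ∀ x y, y < x → K x y ≤ GG T (x - y)) (B In Out : ℕ → ℝ≥0∞) (hB : ∀ m, B m ≤ BT T)
    (hin : ∀ m, In m = ∑ y ∈ range m, K m y) (hout : ∀ m, Out m = ∑' k : ℕ, K m (m + 1 + k)) (D : ℕ) :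
    ENNReal.ofReal (1 - 1 / Real.sqrt 2) * ∑ j ∈ range D, tail T (j + 1) +
      ∑ m ∈ range D, (ENNReal.ofReal (Real.sin (Real.pi / 8)) * B m + In m) ≤
    ∑ m ∈ range D, (ENNReal.ofReal (Real.sin (Real.pi / 8)) + ENNReal.ofReal (1 / Real.sqrt 2) * Out m) := by
  have hid := BT_add_AT hT
  rw [cos38] at hid
  have hs := sin8_pos
  have hBTtop : BT T ≠ ∞ := BT_ne_top hT
  have hATtop : AT T ≠ ∞ := AT_ne_top hT
  have harcs : AT T = 2 * ∑' k : ℕ, GG T (k + 1) := arcs_total hT
  set a : ℝ≥0∞ := ∑' k : ℕ, GG T (k + 1) with ha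
  have hatop : a ≠ ∞ := by
    intro h
    rw [h, ENNReal.mul_top (by norm_num)] at harcs
    exact hATtop harcs
  have htail : ∀ d, tail T (d + 1) ≠ ∞ := by
    intro d
    have h := head_add_tail T d
    exact ne_top_of_le_ne_top hatop (by rw [ha, ← h]; exact le_add_self)
  have hKout : ∀ d, Out d ≤ a := by
    intro d
    rw [hout d, ha]
    apply ENNReal.tsum_le_tsum
    intro k
    rw [hsym]
    have := hle (d + 1 + k) d (by omega)
    have e : d + 1 + k - d = k + 1 := by omega
    rwa [e] at this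
  have hKin : ∀ d, In d + tail T (d + 1) ≤ a := by
    intro d
    have h1 : In d ≤ ∑ y ∈ range d, GG T (y + 1) := by
      rw [hin d, ← Finset.sum_range_reflect (fun y => GG T (y + 1)) d]
      apply Finset.sum_le_sum
      intro y hy
      rw [Finset.mem_range] at hy
      have := hle d y hy
      have e : d - 1 - y + 1 = d - y := by omega
      rw [e]
      exact this
    calc In d + tail T (d + 1) ≤ ∑ y ∈ range d, GG T (y + 1) + tail T (d + 1) := by gcongr
      _ = a := by rw [head_add_tail, ha]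
  have hintop : ∀ d, In d ≠ ∞ := fun d => ne_top_of_le_ne_top hatop (le_trans le_self_add (hKin d))
  have houttop : ∀ d, Out d ≠ ∞ := fun d => ne_top_of_le_ne_top hatop (hKout d)
  have hBtop : ∀ d, B d ≠ ∞ := fun d => ne_top_of_le_ne_top hBTtop (hB d)
  have hS : ∑ d ∈ range D, In d ≤ ∑ d ∈ range D, Out d := by
    calc ∑ d ∈ range D, In d = ∑ d ∈ range D, ∑ y ∈ range d, K d y :=
          Finset.sum_congr rfl (fun d _ => hin d)
      _ = ∑ d ∈ range D, ∑ y ∈ Finset.Ico (d + 1) D, K d y := kernel_swap K hsym D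
      _ ≤ ∑ d ∈ range D, Out d := by
          apply Finset.sum_le_sum
          intro d _
          rw [hout d, Finset.sum_Ico_eq_sum_range]
          exact ENNReal.sum_le_tsum _
  -- passage to the reals
  set u : ℝ := (BT T).toReal with hu
  set ar : ℝ := a.toReal with har
  set s : ℝ := Real.sin (Real.pi / 8) with hsdef
  have hu_eq : u + s * (2 * ar) = 1 := by
    have h1 : (BT T + ENNReal.ofReal s * AT T).toReal = (1 : ℝ≥0∞).toReal := by rw [hid]
    rw [ENNReal.toReal_add hBTtop (ENNReal.mul_ne_top ENNReal.ofReal_ne_top hATtop),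
      ENNReal.toReal_mul, ENNReal.toReal_ofReal hs.le, harcs, ENNReal.toReal_mul,
      ENNReal.toReal_one] at h1
    simpa using h1
  have hsq : 0 < Real.sqrt 2 := by positivity
  have hc := one_sub_inv_sqrt
  rw [← hsdef] at hc
  have hc0 : 0 ≤ 1 - 1 / Real.sqrt 2 := by rw [hc]; positivity
  have hc1 : 0 ≤ 1 / Real.sqrt 2 := by positivity
  have hBr : ∀ d, (B d).toReal ≤ u := fun d => ENNReal.toReal_mono hBTtop (hB d)
  have hinr : ∀ d, (In d).toReal + (tail T (d + 1)).toReal ≤ ar := by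
    intro d
    rw [har, ← ENNReal.toReal_add (hintop d) (htail d)]
    exact ENNReal.toReal_mono hatop (hKin d)
  have hSr : ∑ d ∈ range D, (In d).toReal ≤ ∑ d ∈ range D, (Out d).toReal := by
    rw [← ENNReal.toReal_sum (fun d _ => hintop d), ← ENNReal.toReal_sum (fun d _ => houttop d)]
    exact ENNReal.toReal_mono (ENNReal.sum_ne_top.2 (fun d _ => houttop d)) hS
  have hLtop : ENNReal.ofReal (1 - 1 / Real.sqrt 2) * ∑ j ∈ range D, tail T (j + 1) ≠ ∞ :=
    ENNReal.mul_ne_top ENNReal.ofReal_ne_top (ENNReal.sum_ne_top.2 (fun d _ => htail d))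
  have hL2top : ∀ m, ENNReal.ofReal s * B m + In m ≠ ∞ := fun m =>
    ENNReal.add_ne_top.2 ⟨ENNReal.mul_ne_top ENNReal.ofReal_ne_top (hBtop m), hintop m⟩
  have hRtop : ∀ m, ENNReal.ofReal s + ENNReal.ofReal (1 / Real.sqrt 2) * Out m ≠ ∞ := fun m =>
    ENNReal.add_ne_top.2 ⟨ENNReal.ofReal_ne_top, ENNReal.mul_ne_top ENNReal.ofReal_ne_top (houttop m)⟩
  rw [← ENNReal.toReal_le_toReal (ENNReal.add_ne_top.2 ⟨hLtop, ENNReal.sum_ne_top.2 (fun m _ => hL2top m)⟩)
    (ENNReal.sum_ne_top.2 (fun m _ => hRtop m)), ENNReal.toReal_add hLtop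
    (ENNReal.sum_ne_top.2 (fun m _ => hL2top m)), ENNReal.toReal_mul, ENNReal.toReal_ofReal hc0,
    ENNReal.toReal_sum (fun d _ => htail d), ENNReal.toReal_sum (fun m _ => hL2top m),
    ENNReal.toReal_sum (fun m _ => hRtop m)]
  have e1 : ∀ m, (ENNReal.ofReal s * B m + In m).toReal = s * (B m).toReal + (In m).toReal := by
    intro m
    rw [ENNReal.toReal_add (ENNReal.mul_ne_top ENNReal.ofReal_ne_top (hBtop m)) (hintop m),
      ENNReal.toReal_mul, ENNReal.toReal_ofReal hs.le]
  have e2 : ∀ m, (ENNReal.ofReal s + ENNReal.ofReal (1 / Real.sqrt 2) * Out m).toReal =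
      s + 1 / Real.sqrt 2 * (Out m).toReal := by
    intro m
    rw [ENNReal.toReal_add ENNReal.ofReal_ne_top (ENNReal.mul_ne_top ENNReal.ofReal_ne_top (houttop m)),
      ENNReal.toReal_mul, ENNReal.toReal_ofReal hs.le, ENNReal.toReal_ofReal hc1]
  simp only [e1, e2]
  rw [Finset.sum_add_distrib, Finset.sum_add_distrib, ← Finset.mul_sum, ← Finset.mul_sum, Finset.sum_const,
    Finset.card_range, nsmul_eq_mul]
  set SI : ℝ := ∑ d ∈ range D, (In d).toReal with hSI
  set SO : ℝ := ∑ d ∈ range D, (Out d).toReal with hSO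
  set ST : ℝ := ∑ d ∈ range D, (tail T (d + 1)).toReal with hST
  set SB : ℝ := ∑ d ∈ range D, (B d).toReal with hSB
  have hI : SI + ST ≤ D * ar := by
    have h1 : ∑ d ∈ range D, ((In d).toReal + (tail T (d + 1)).toReal) ≤ ∑ _d ∈ range D, ar :=
      Finset.sum_le_sum (fun d _ => hinr d)
    rw [Finset.sum_add_distrib, Finset.sum_const, Finset.card_range, nsmul_eq_mul] at h1
    exact h1
  have hSBle : SB ≤ D * u := by
    have h1 : ∑ d ∈ range D, (B d).toReal ≤ ∑ _d ∈ range D, u := Finset.sum_le_sum (fun d _ => hBr d)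
    rw [Finset.sum_const, Finset.card_range, nsmul_eq_mul] at h1
    exact h1
  have h5 := mul_le_mul_of_nonneg_left hI hc0
  have h6 := mul_le_mul_of_nonneg_left hSBle hs.le
  have h7 := mul_le_mul_of_nonneg_left hSr hc1
  have h8 : (1 - 1 / Real.sqrt 2) * (D * ar) = D * s - s * (D * u) := by
    have h9 : 1 - u = s * (2 * ar) := by linarith
    calc (1 - 1 / Real.sqrt 2) * (D * ar) = D * (s * (s * (2 * ar))) := by rw [hc]; ring
      _ = D * s - s * (D * u) := by rw [← h9]; ring
  have h10 : (1 - 1 / Real.sqrt 2) * SI = SI - 1 / Real.sqrt 2 * SI := by ring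
  rw [mul_add, h8, h10] at h5
  linarith

lemma arc_symm (T : ℕ) (Z : Set Pt) (i j : ℤ) :
    gf (Arc (St T) Z (foot oo up i) up (foot oo up j)) = gf (Arc (St T) Z (foot oo up j) up (foot oo up i)) := by
  rw [k2_arc, k2_arc]
  have h1 := gf_rev (Ω := St T \ Z) (v0 := foot oo up i) (d0 := up) (w := foot oo up j) (e := -up)
    (fun h => k2_foot_notMem T i h.1) (fun h => k2_foot_notMem T j h.1)
  rwa [neg_neg] at h1

lemma arc_le (T : ℕ) (Z : Set Pt) (i j : ℤ) (k : ℕ) (hk : (k : ℤ) = |j - i|) :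
    gf (Arc (St T) Z (foot oo up i) up (foot oo up j)) ≤ GG T k := by
  rw [← k3_gf T i j k hk]
  apply gf_mono
  rintro t ⟨ht, ht'⟩
  exact ⟨dn_anti (Set.empty_subset Z) ht, ht'⟩

lemma br_le {T : ℕ} (hT : 1 ≤ T) (Z : Set Pt) (i : ℤ) : gf (Br (St T) Z (foot oo up i) up) ≤ BT T :=
  HexW.gf_Br_le_one K1.up_dirs hT i Z

end Beside

open Beside

/-- explorers on the right of a bridge: W47 (A) for a fixed obstacle. -/
theorem beside_right {T : ℕ} (hT : 1 ≤ T) {r : ℤ} {Y Z : Set Pt} {s : List Bool}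
    (hs : s ∈ Br (St T) Y (foot oo up r) up) (hZ : vis (foot oo up r) up s ⊆ Z) (D : ℕ) :
    ENNReal.ofReal (1 - 1 / Real.sqrt 2) * ∑ j ∈ Finset.range D, tail T (j + 1) +
      ∑ m ∈ Finset.range D, (ENNReal.ofReal (Real.sin (Real.pi / 8)) *
          gf (Br (St T) Z (foot oo up (r + 1 + m)) up) + gf (DnL (St T) Z (foot oo up (r + 1 + m)) up)) ≤
    ∑ m ∈ Finset.range D, (ENNReal.ofReal (Real.sin (Real.pi / 8)) +
      ENNReal.ofReal (1 / Real.sqrt 2) * gf (DnR (St T) Z (foot oo up (r + 1 + m)) up)) := by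
  apply num hT (fun x y => gf (Arc (St T) Z (foot oo up (r + 1 + x)) up (foot oo up (r + 1 + y))))
    (fun x y => arc_symm T Z _ _)
    (B := fun m => gf (Br (St T) Z (foot oo up (r + 1 + m)) up))
    (In := fun m => gf (DnL (St T) Z (foot oo up (r + 1 + m)) up))
    (Out := fun m => gf (DnR (St T) Z (foot oo up (r + 1 + m)) up))
  · intro x y hxy
    apply arc_le
    have : r + 1 + (y : ℤ) - (r + 1 + (x : ℤ)) = -((x : ℤ) - y) := by ring
    rw [this, abs_neg, abs_of_nonneg (by omega)]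
    omega
  · intro m
    exact br_le hT Z _
  · intro m
    have e1 : DnL (St T) Z (foot oo up (r + 1 + m)) up =
        ⋃ y : Fin m, Arc (St T) Z (foot oo up (r + 1 + m)) up (foot oo up (r + 1 + ((y : ℕ) : ℤ))) := by
      ext t
      rw [Set.mem_iUnion]
      constructor
      · rintro ⟨h1, h2⟩
        obtain ⟨b, hb, hside⟩ := dn_br_side K1.up_dirs hT h1 hs hZ
        rw [hb, cross_foot K1.up_dirs] at h2
        have hb1 : r < b := by omega
        have hb2 : b < r + 1 + m := by omega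
        refine ⟨⟨(b - (r + 1)).toNat, by omega⟩, h1, ?_⟩
        rw [hb]
        congr 1
        show b = r + 1 + (((b - (r + 1)).toNat : ℕ) : ℤ)
        omega
      · rintro ⟨y, h1, h2⟩
        refine ⟨h1, ?_⟩
        have := y.2
        rw [h2, cross_foot K1.up_dirs]
        omega
    show gf (DnL (St T) Z (foot oo up (r + 1 + m)) up) = _
    rw [e1, K1.gf_iUnion, tsum_fintype,
      Fin.sum_univ_eq_sum_range (fun y => gf (Arc (St T) Z (foot oo up (r + 1 + m)) up (foot oo up (r + 1 + (y : ℤ))))) m]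
    intro i j t hi hj
    have := K1.arc_unique hi hj
    apply Fin.ext
    omega
  · intro m
    have e1 : DnR (St T) Z (foot oo up (r + 1 + m)) up =
        ⋃ k : ℕ, Arc (St T) Z (foot oo up (r + 1 + m)) up (foot oo up (r + 1 + ((m + 1 + k : ℕ) : ℤ))) := by
      ext t
      rw [Set.mem_iUnion]
      constructor
      · rintro ⟨h1, h2⟩
        obtain ⟨b, hb⟩ := dn_tip_foot K1.up_dirs h1
        rw [hb, cross_foot K1.up_dirs] at h2
        refine ⟨(b - (r + 1 + m + 1)).toNat, h1, ?_⟩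
        rw [hb]
        congr 1
        push_cast
        omega
      · rintro ⟨k, h1, h2⟩
        refine ⟨h1, ?_⟩
        rw [h2, cross_foot K1.up_dirs]
        push_cast
        omega
    show gf (DnR (St T) Z (foot oo up (r + 1 + m)) up) = _
    rw [e1, K1.gf_iUnion]
    intro i j t hi hj
    have := K1.arc_unique hi hj
    push_cast at this
    omega

/-- the mirror image. -/
theorem beside_left {T : ℕ} (hT : 1 ≤ T) {r : ℤ} {Y Z : Set Pt} {s : List Bool}
    (hs : s ∈ Br (St T) Y (foot oo up r) up) (hZ : vis (foot oo up r) up s ⊆ Z) (D : ℕ) :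
    ENNReal.ofReal (1 - 1 / Real.sqrt 2) * ∑ j ∈ Finset.range D, tail T (j + 1) +
      ∑ m ∈ Finset.range D, (ENNReal.ofReal (Real.sin (Real.pi / 8)) *
          gf (Br (St T) Z (foot oo up (r - 1 - m)) up) + gf (DnR (St T) Z (foot oo up (r - 1 - m)) up)) ≤
    ∑ m ∈ Finset.range D, (ENNReal.ofReal (Real.sin (Real.pi / 8)) +
      ENNReal.ofReal (1 / Real.sqrt 2) * gf (DnL (St T) Z (foot oo up (r - 1 - m)) up)) := by
  apply num hT (fun x y => gf (Arc (St T) Z (foot oo up (r - 1 - x)) up (foot oo up (r - 1 - y))))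
    (fun x y => arc_symm T Z _ _)
    (B := fun m => gf (Br (St T) Z (foot oo up (r - 1 - m)) up))
    (In := fun m => gf (DnR (St T) Z (foot oo up (r - 1 - m)) up))
    (Out := fun m => gf (DnL (St T) Z (foot oo up (r - 1 - m)) up))
  · intro x y hxy
    apply arc_le
    have : r - 1 - (y : ℤ) - (r - 1 - (x : ℤ)) = (x : ℤ) - y := by ring
    rw [this, abs_of_nonneg (by omega)]
    omega
  · intro m
    exact br_le hT Z _
  · intro m
    have e1 : DnR (St T) Z (foot oo up (r - 1 - m)) up =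
        ⋃ y : Fin m, Arc (St T) Z (foot oo up (r - 1 - m)) up (foot oo up (r - 1 - ((y : ℕ) : ℤ))) := by
      ext t
      rw [Set.mem_iUnion]
      constructor
      · rintro ⟨h1, h2⟩
        obtain ⟨b, hb, hside⟩ := dn_br_side K1.up_dirs hT h1 hs hZ
        rw [hb, cross_foot K1.up_dirs] at h2
        have hb1 : b < r := by omega
        have hb2 : r - 1 - m < b := by omega
        refine ⟨⟨(r - 1 - b).toNat, by omega⟩, h1, ?_⟩
        rw [hb]
        congr 1
        show b = r - 1 - (((r - 1 - b).toNat : ℕ) : ℤ)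
        omega
      · rintro ⟨y, h1, h2⟩
        refine ⟨h1, ?_⟩
        have := y.2
        rw [h2, cross_foot K1.up_dirs]
        omega
    show gf (DnR (St T) Z (foot oo up (r - 1 - m)) up) = _
    rw [e1, K1.gf_iUnion, tsum_fintype,
      Fin.sum_univ_eq_sum_range (fun y => gf (Arc (St T) Z (foot oo up (r - 1 - m)) up (foot oo up (r - 1 - (y : ℤ))))) m]
    intro i j t hi hj
    have := K1.arc_unique hi hj
    apply Fin.ext
    omega
  · intro m
    have e1 : DnL (St T) Z (foot oo up (r - 1 - m)) up =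
        ⋃ k : ℕ, Arc (St T) Z (foot oo up (r - 1 - m)) up (foot oo up (r - 1 - ((m + 1 + k : ℕ) : ℤ))) := by
      ext t
      rw [Set.mem_iUnion]
      constructor
      · rintro ⟨h1, h2⟩
        obtain ⟨b, hb⟩ := dn_tip_foot K1.up_dirs h1
        rw [hb, cross_foot K1.up_dirs] at h2
        refine ⟨(r - 1 - m - 1 - b).toNat, h1, ?_⟩
        rw [hb]
        congr 1
        push_cast
        omega
      · rintro ⟨k, h1, h2⟩
        refine ⟨h1, ?_⟩
        rw [h2, cross_foot K1.up_dirs]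
        push_cast
        omega
    show gf (DnL (St T) Z (foot oo up (r - 1 - m)) up) = _
    rw [e1, K1.gf_iUnion]
    intro i j t hi hj
    have := K1.arc_unique hi hj
    push_cast at this
    omega

end Ex

end HexObs
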