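import Pool.Agent.HexPoly.Fin
import Pool.Agent.HexSPR.Rel

/-!
POLY: pairs and triples of disjoint bridges, the tops of the first two adjacent.
-/

set_option autoImplicit false

namespace HexObs

namespace Ex

open Complex Finset ENNReal

/-- the column of ends. -/
def col (z : ℤ) : Set Pt := {w | w.1 = z}

/-- sum over the pairs of disjoint bridges from the feet a, b with adjacent tops. -/
noncomputable def pF (T : ℕ) (a b : ℤ) (F : Set Pt → ℝ≥0∞) : ℝ≥0∞ :=
  ∑' z : ℤ, overE (St T) (foot oo up a) up (col z) (overE (St T) (foot oo up b) up (col (z + 2)) F) ∅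

/-- sum over the triples of disjoint bridges from the feet a, b, c; the tops of the first two are adjacent. -/
noncomputable def tF (T : ℕ) (a b c : ℤ) (F : Set Pt → ℝ≥0∞) : ℝ≥0∞ :=
  pF T a b (overE (St T) (foot oo up c) up Set.univ F)

/-- pairs of disjoint bridges, feet at distance n, adjacent tops. -/
noncomputable def t2 (T : ℕ) (n : ℤ) : ℝ≥0∞ := pF T 0 n (fun _ => 1)

/-- triples of disjoint bridges, feet at distances n and m, the tops of the first two adjacent. -/
noncomputable def t3 (T : ℕ) (n m : ℤ) : ℝ≥0∞ := tF T 0 n (n + m) (fun _ => 1)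

/-! linearity -/

lemma overE_add (Ω : Set Pt) (v d0 : Pt) (W : Set Pt) (F G : Set Pt → ℝ≥0∞) (X : Set Pt) :
    overE Ω v d0 W (fun Y => F Y + G Y) X = overE Ω v d0 W F X + overE Ω v d0 W G X := by
  unfold overE
  rw [← ENNReal.tsum_add]
  apply tsum_congr
  intro s
  by_cases hs : s ∈ BrE Ω X v d0 W
  · rw [Set.indicator_of_mem hs, Set.indicator_of_mem hs, Set.indicator_of_mem hs, mul_add]
  · rw [Set.indicator_of_notMem hs, Set.indicator_of_notMem hs, Set.indicator_of_notMem hs, add_zero]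

/-- monotonicity with the information on the walker. -/
lemma overE_le_of {Ω : Set Pt} {v d0 : Pt} {W : Set Pt} {F G : Set Pt → ℝ≥0∞} {X : Set Pt}
    (h : ∀ s ∈ BrE Ω X v d0 W, F (X ∪ vis v d0 s) ≤ G (X ∪ vis v d0 s)) :
    overE Ω v d0 W F X ≤ overE Ω v d0 W G X := by
  unfold overE
  apply ENNReal.tsum_le_tsum
  intro s
  by_cases hs : s ∈ BrE Ω X v d0 W
  · rw [Set.indicator_of_mem hs, Set.indicator_of_mem hs]
    exact mul_le_mul_right (h s hs) _
  · rw [Set.indicator_of_notMem hs, Set.indicator_of_notMem hs]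

lemma pF_add (T : ℕ) (a b : ℤ) (F G : Set Pt → ℝ≥0∞) :
    pF T a b (fun Z => F Z + G Z) = pF T a b F + pF T a b G := by
  unfold pF
  rw [← ENNReal.tsum_add]
  apply tsum_congr
  intro z
  rw [← overE_add]
  congr 1
  funext Y
  exact overE_add _ _ _ _ _ _ _

lemma pF_mul (T : ℕ) (a b : ℤ) (c : ℝ≥0∞) (F : Set Pt → ℝ≥0∞) :
    pF T a b (fun Z => c * F Z) = c * pF T a b F := by
  unfold pF
  rw [← ENNReal.tsum_mul_left]
  apply tsum_congr
  intro z
  rw [← overE_const_mul]
  congr 1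
  funext Y
  exact overE_const_mul _ _ _ _ _ _ _

lemma pF_zero (T : ℕ) (a b : ℤ) : pF T a b (fun _ => 0) = 0 := by
  have h := pF_mul T a b 0 (fun _ => 0)
  simp only [zero_mul] at h
  exact h

lemma pF_sum {ι : Type*} (T : ℕ) (a b : ℤ) (S : Finset ι) (F : ι → Set Pt → ℝ≥0∞) :
    pF T a b (fun Z => ∑ i ∈ S, F i Z) = ∑ i ∈ S, pF T a b (F i) := by
  classical
  induction S using Finset.induction_on with
  | empty => simp only [Finset.sum_empty]; exact pF_zero T a b
  | insert i S hi ih =>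
    simp only [Finset.sum_insert hi]
    rw [pF_add, ih]

/-- monotonicity with the information on the walkers. -/
lemma pF_mono {T : ℕ} {a b : ℤ} {F G : Set Pt → ℝ≥0∞}
    (h : ∀ z : ℤ, ∀ s ∈ BrE (St T) ∅ (foot oo up a) up (col z),
      ∀ t ∈ BrE (St T) (∅ ∪ vis (foot oo up a) up s) (foot oo up b) up (col (z + 2)),
      F (∅ ∪ vis (foot oo up a) up s ∪ vis (foot oo up b) up t) ≤
        G (∅ ∪ vis (foot oo up a) up s ∪ vis (foot oo up b) up t)) :
    pF T a b F ≤ pF T a b G := by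
  unfold pF
  apply ENNReal.tsum_le_tsum
  intro z
  apply overE_le_of
  intro s hs
  apply overE_le_of
  intro t ht
  exact h z s hs t ht

lemma pF_congr {T : ℕ} {a b : ℤ} {F G : Set Pt → ℝ≥0∞}
    (h : ∀ z : ℤ, ∀ s ∈ BrE (St T) ∅ (foot oo up a) up (col z),
      ∀ t ∈ BrE (St T) (∅ ∪ vis (foot oo up a) up s) (foot oo up b) up (col (z + 2)),
      F (∅ ∪ vis (foot oo up a) up s ∪ vis (foot oo up b) up t) =
        G (∅ ∪ vis (foot oo up a) up s ∪ vis (foot oo up b) up t)) :
    pF T a b F = pF T a b G :=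
  le_antisymm (pF_mono fun z s hs t ht => (h z s hs t ht).le) (pF_mono fun z s hs t ht => (h z s hs t ht).ge)

lemma tF_add (T : ℕ) (a b c : ℤ) (F G : Set Pt → ℝ≥0∞) :
    tF T a b c (fun Z => F Z + G Z) = tF T a b c F + tF T a b c G := by
  unfold tF
  rw [← pF_add]
  congr 1
  funext Y
  exact overE_add _ _ _ _ _ _ _

lemma tF_mul (T : ℕ) (a b c : ℤ) (k : ℝ≥0∞) (F : Set Pt → ℝ≥0∞) :
    tF T a b c (fun Z => k * F Z) = k * tF T a b c F := by
  unfold tF
  rw [← pF_mul]
  congr 1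
  funext Y
  exact overE_const_mul _ _ _ _ _ _ _

lemma tF_zero (T : ℕ) (a b c : ℤ) : tF T a b c (fun _ => 0) = 0 := by
  have h := tF_mul T a b c 0 (fun _ => 0)
  simp only [zero_mul] at h
  exact h

lemma tF_sum {ι : Type*} (T : ℕ) (a b c : ℤ) (S : Finset ι) (F : ι → Set Pt → ℝ≥0∞) :
    tF T a b c (fun Z => ∑ i ∈ S, F i Z) = ∑ i ∈ S, tF T a b c (F i) := by
  classical
  induction S using Finset.induction_on with
  | empty => simp only [Finset.sum_empty]; exact tF_zero T a b c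
  | insert i S hi ih =>
    simp only [Finset.sum_insert hi]
    rw [tF_add, ih]

lemma tF_mono {T : ℕ} {a b c : ℤ} {F G : Set Pt → ℝ≥0∞}
    (h : ∀ z : ℤ, ∀ s ∈ BrE (St T) ∅ (foot oo up a) up (col z),
      ∀ t ∈ BrE (St T) (∅ ∪ vis (foot oo up a) up s) (foot oo up b) up (col (z + 2)),
      ∀ r ∈ BrE (St T) (∅ ∪ vis (foot oo up a) up s ∪ vis (foot oo up b) up t) (foot oo up c) up Set.univ,
      F (∅ ∪ vis (foot oo up a) up s ∪ vis (foot oo up b) up t ∪ vis (foot oo up c) up r) ≤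
        G (∅ ∪ vis (foot oo up a) up s ∪ vis (foot oo up b) up t ∪ vis (foot oo up c) up r)) :
    tF T a b c F ≤ tF T a b c G := by
  unfold tF
  apply pF_mono
  intro z s hs t ht
  apply overE_le_of
  intro r hr
  exact h z s hs t ht r hr

/-! the limits of Fin.lean in this notation -/

lemma pF_gf (T : ℕ) (a b : ℤ) (D : Set Pt → Set (List Bool)) :
    pF T a b (fun Z => gf (D Z)) = ∑' z : ℤ, Q2E (St T) oo up a (col z) b (col (z + 2)) D ∅ := rfl

lemma tF_gf (T : ℕ) (a b c : ℤ) (D : Set Pt → Set (List Bool)) :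
    tF T a b c (fun Z => gf (D Z)) =
      ∑' z : ℤ, Q3E (St T) oo up a (col z) b (col (z + 2)) c Set.univ D ∅ := rfl

lemma pF_one (T : ℕ) (a b : ℤ) :
    pF T a b (fun _ => 1) = ∑' z : ℤ, P2E (St T) oo up a (col z) b (col (z + 2)) ∅ := by
  unfold pF P2E
  apply tsum_congr
  intro z
  congr 1
  funext Y
  exact overE_one _ _ _ _ _

lemma tF_one (T : ℕ) (a b c : ℤ) :
    tF T a b c (fun _ => 1) = ∑' z : ℤ, P3E (St T) oo up a (col z) b (col (z + 2)) c Set.univ ∅ := by
  unfold tF pF P3E Q2E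
  apply tsum_congr
  intro z
  congr 1
  funext Y
  congr 1
  funext Z
  exact overE_one _ _ _ _ _

/-! translations -/

lemma col_trans (k z : ℤ) : (fun p => p + k • hz up) ⁻¹' (col z) = col (z - 2 * k) := by
  ext p
  unfold col
  have h : hz up = (2, -1) := by decide
  simp only [Set.mem_preimage, Set.mem_ofPred_eq, h, Prod.fst_add, Prod.smul_fst, smul_eq_mul]
  constructor <;> intro h <;> linarith

lemma overE_shift (T : ℕ) (a k : ℤ) (W : Set Pt) {F G : Set Pt → ℝ≥0∞}
    (hFG : ∀ Y, F Y = G ((fun p => p + k • hz up) ⁻¹' Y)) (X : Set Pt) :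
    overE (St T) (foot oo up (a + k)) up W F X =
      overE (St T) (foot oo up a) up ((fun p => p + k • hz up) ⁻¹' W) G ((fun p => p + k • hz up) ⁻¹' X) := by
  unfold St
  rw [HexW.foot_add, overE_trans (strip oo up T) (foot oo up a) (k • hz up) up W hFG, HexW.strip_trans]

lemma pF_trans (T : ℕ) (a b k : ℤ) {F G : Set Pt → ℝ≥0∞}
    (hFG : ∀ Y, F Y = G ((fun p => p + k • hz up) ⁻¹' Y)) :
    pF T (a + k) (b + k) F = pF T a b G := by
  unfold pF
  have h : ∀ z : ℤ, overE (St T) (foot oo up (a + k)) up (col z)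
      (overE (St T) (foot oo up (b + k)) up (col (z + 2)) F) ∅ =
      overE (St T) (foot oo up a) up (col (z - 2 * k))
      (overE (St T) (foot oo up b) up (col (z - 2 * k + 2)) G) ∅ := by
    intro z
    rw [overE_shift T a k (col z)
      (G := overE (St T) (foot oo up b) up ((fun p => p + k • hz up) ⁻¹' (col (z + 2))) G)
      (fun Y => overE_shift T b k (col (z + 2)) hFG Y) ∅, Set.preimage_empty, col_trans, col_trans]
    congr 4
    ring
  rw [tsum_congr h]
  exact (Equiv.subRight (2 * k)).tsum_eq (fun z : ℤ => overE (St T) (foot oo up a) up (col z)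
      (overE (St T) (foot oo up b) up (col (z + 2)) G) ∅)

lemma tF_trans (T : ℕ) (a b c k : ℤ) {F G : Set Pt → ℝ≥0∞}
    (hFG : ∀ Y, F Y = G ((fun p => p + k • hz up) ⁻¹' Y)) :
    tF T (a + k) (b + k) (c + k) F = tF T a b c G := by
  unfold tF
  apply pF_trans
  intro Y
  exact overE_shift T c k Set.univ hFG Y

lemma t2_foot (T : ℕ) (a n : ℤ) : pF T a (a + n) (fun _ => 1) = t2 T n := by
  have h := pF_trans T 0 n a (F := fun _ => 1) (G := fun _ => 1) (fun _ => rfl)
  rw [zero_add, add_comm n a] at h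
  exact h

lemma t3_foot (T : ℕ) (a n m : ℤ) : tF T a (a + n) (a + n + m) (fun _ => 1) = t3 T n m := by
  have h := tF_trans T 0 n (n + m) a (F := fun _ => 1) (G := fun _ => 1) (fun _ => rfl)
  rw [zero_add, add_comm n a, show n + m + a = a + n + m by ring] at h
  exact h

/-! simple bounds -/

lemma tF_le_mul (T : ℕ) (a b c : ℤ) {F : Set Pt → ℝ≥0∞} {k : ℝ≥0∞} (hF : ∀ Z, F Z ≤ k) :
    tF T a b c F ≤ k * tF T a b c (fun _ => 1) := by
  rw [← tF_mul]
  apply tF_mono
  intro z s _ t _ r _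
  rw [mul_one]
  exact hF _

lemma pF_le_mul (T : ℕ) (a b : ℤ) {F : Set Pt → ℝ≥0∞} {k : ℝ≥0∞} (hF : ∀ Z, F Z ≤ k) :
    pF T a b F ≤ k * pF T a b (fun _ => 1) := by
  rw [← pF_mul]
  apply pF_mono
  intro z s _ t _
  rw [mul_one]
  exact hF _

/-- adding a third bridge costs at most u. -/
lemma tF_one_le (T : ℕ) (a b c : ℤ) : tF T a b c (fun _ => 1) ≤ BT T * pF T a b (fun _ => 1) := by
  apply pF_le_mul
  intro Z
  rw [overE_one]
  exact gf_BrE_le c _ _

lemma t3_le (T : ℕ) (n m : ℤ) : t3 T n m ≤ BT T * t2 T n := tF_one_le T 0 n (n + m)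

end Ex

end HexObs
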