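import Pool.Agent.HexPoly.Free

/-!
Three and four explorers with prescribed ends of the first two walkers, finite domains.
-/

set_option autoImplicit false

namespace HexObs

namespace Ex

open Complex Finset ENNReal

/-- three walkers with prescribed ends and a disjoint word of the family D. -/
noncomputable def Q3E (Ω : Set Pt) (v0 d0 : Pt) (a : ℤ) (Wa : Set Pt) (b : ℤ) (Wb : Set Pt) (c : ℤ) (Wc : Set Pt)
    (D : Set Pt → Set (List Bool)) (X : Set Pt) : ℝ≥0∞ :=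
  overE Ω (foot v0 d0 a) d0 Wa (fun Y => Q2E Ω v0 d0 b Wb c Wc D Y) X

/-- triples of disjoint bridges with prescribed ends. -/
noncomputable def P3E (Ω : Set Pt) (v0 d0 : Pt) (a : ℤ) (Wa : Set Pt) (b : ℤ) (Wb : Set Pt) (c : ℤ) (Wc : Set Pt)
    (X : Set Pt) : ℝ≥0∞ :=
  Q2E Ω v0 d0 a Wa b Wb (fun Z => BrE Ω Z (foot v0 d0 c) d0 Wc) X

lemma Q3E_toReal {Ω : Finset Pt} {v0 d0 p : Pt} {a b c : ℤ} {Wa Wb Wc : Set Pt} {D : Set Pt → Set (List Bool)}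
    (hD : ∀ Z, InArr Ω p d0 (D Z)) :
    (Q3E (Ω : Set Pt) v0 d0 a Wa b Wb c Wc D ∅).toReal =
      tri Ω d0 (foot v0 d0 a) Wa (foot v0 d0 b) Wb (foot v0 d0 c) Wc (fun Z => gr Ω p d0 (D Z)) := by
  have h1 : ∀ Z, gf (D Z) ≠ ∞ := fun Z => gf_ne_top (hD Z)
  have h2 : ∀ Y, overE (Ω : Set Pt) (foot v0 d0 c) d0 Wc (fun Z => gf (D Z)) Y ≠ ∞ :=
    fun Y => overE_ne_top _ _ _ _ _ h1 Y
  have h3 : ∀ Y, overE (Ω : Set Pt) (foot v0 d0 b) d0 Wb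
      (fun Y => overE (Ω : Set Pt) (foot v0 d0 c) d0 Wc (fun Z => gf (D Z)) Y) Y ≠ ∞ :=
    fun Y => overE_ne_top _ _ _ _ _ h2 Y
  unfold Q3E Q2E tri
  rw [overE_toReal _ _ _ _ _ h3]
  congr 1
  funext Y
  rw [overE_toReal _ _ _ _ _ h2]
  congr 1
  funext Z
  rw [overE_toReal _ _ _ _ _ h1]
  congr 1
  funext Z'
  exact gf_toReal (hD Z')

lemma P3E_toReal (Ω : Finset Pt) (v0 d0 : Pt) (a b c : ℤ) (Wa Wb Wc : Set Pt) :
    (P3E (Ω : Set Pt) v0 d0 a Wa b Wb c Wc ∅).toReal =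
      obE Ω (foot v0 d0 a) d0 Wa (obE Ω (foot v0 d0 b) d0 Wb
        (fun Y => gr Ω (foot v0 d0 c) d0 (BrE (Ω : Set Pt) Y (foot v0 d0 c) d0 Wc))) ∅ :=
  obE_obE_toReal (fun Z => brE_arr Ω Z _ _ _)

lemma Q2E_toReal' {Ω : Finset Pt} {v0 d0 p : Pt} {a b : ℤ} {Wa Wb : Set Pt} {D : Set Pt → Set (List Bool)}
    (hD : ∀ Z, InArr Ω p d0 (D Z)) :
    (Q2E (Ω : Set Pt) v0 d0 a Wa b Wb D ∅).toReal =
      duo Ω d0 (foot v0 d0 a) Wa (foot v0 d0 b) Wb (fun Z => gr Ω p d0 (D Z)) :=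
  Q2E_toReal hD

/-- geometry of feet. -/
lemma ft_ne {v0 d0 : Pt} (h0 : d0 ∈ dirs) {a b : ℤ} (h : a < b) :
    0 < cross d0 (foot v0 d0 a - foot v0 d0 b) ∧ cross d0 (foot v0 d0 b - foot v0 d0 a) < 0 := by
  rw [t3_cross_foot h0, t3_cross_foot h0]
  constructor <;> linarith

/-- a walker behind another one cannot be hit. -/
lemma zh_block {Ω : Finset Pt} {v0 d0 : Pt} {a b c : ℤ} (hb : GoodDom Ω (foot v0 d0 b) d0)
    (h : (a < b ∧ b < c) ∨ (c < b ∧ b < a)) {X : Set Pt} {s : List Bool}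
    (hs : s ∈ Br (Ω : Set Pt) ∅ (foot v0 d0 b) d0) (hX : vis (foot v0 d0 b) d0 s ⊆ X) (W : Set Pt) (f : ℤ → ℝ) :
    ZhE Ω X (foot v0 d0 a) (foot v0 d0 c) d0 W f = 0 := by
  refine zhE_blocked hb (by rw [t3_cl_foot, t3_cl_foot]) (by rw [t3_cl_foot, t3_cl_foot]) (t3_ip_foot _ _ _ _)
    (t3_ip_foot _ _ _ _) ?_ hs hX W f
  rcases h with ⟨h1, h2⟩ | ⟨h1, h2⟩
  · exact Or.inl ⟨(ft_ne hb.dir h1).1, (ft_ne hb.dir h2).2⟩
  · exact Or.inr ⟨(ft_ne hb.dir h2).2, (ft_ne hb.dir h1).1⟩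

/-- the swap with phases. -/
lemma zh_swap {Ω : Finset Pt} {v0 d0 : Pt} {a b : ℤ} (ha : GoodDom Ω (foot v0 d0 a) d0)
    (hb : GoodDom Ω (foot v0 d0 b) d0) (h : a < b) (X W : Set Pt) (m : ℝ) :
    ZhE Ω X (foot v0 d0 b) (foot v0 d0 a) d0 W (ph m) =
      ZhE Ω X (foot v0 d0 a) (foot v0 d0 b) d0 W (ph (m + 2)) := by
  rw [swap_sumE (X := X) (p := foot v0 d0 a) (q := foot v0 d0 b) ha hb (t3_ip_foot _ _ _ _)
    (by rw [t3_cl_foot, t3_cl_foot]) (ft_ne ha.dir h).2 W (ph m), ph_shift]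

lemma sin7 : Real.sin (7 * (Real.pi / 8)) = Real.sin (Real.pi / 8) := by
  rw [show (7 : ℝ) * (Real.pi / 8) = Real.pi - Real.pi / 8 by ring, Real.sin_pi_sub]

/-- FOUR EXPLORERS in a finite domain; feet a < b < b + 1 < c. -/
theorem I4_fin {Ω : Finset Pt} {v0 d0 : Pt} (V W U : Set Pt) {a b c : ℤ} (hab : a < b) (hbc : b + 1 < c)
    (ga : GoodDom Ω (foot v0 d0 a) d0) (gb : GoodDom Ω (foot v0 d0 b) d0)
    (gb1 : GoodDom Ω (foot v0 d0 (b + 1)) d0) (gc : GoodDom Ω (foot v0 d0 c) d0) :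
    Real.sin (3 * Real.pi / 8) * (P3E (Ω : Set Pt) v0 d0 a V (b + 1) W c U ∅).toReal +
      Real.sin (Real.pi / 8) * (P3E (Ω : Set Pt) v0 d0 a V b W (b + 1) U ∅).toReal +
      (Q3E (Ω : Set Pt) v0 d0 a V b W (b + 1) U
        (fun Z => DnR (Ω : Set Pt) Z (foot v0 d0 c) d0) ∅).toReal / Real.sqrt 2 +
      Real.sin (Real.pi / 8) * (Q3E (Ω : Set Pt) v0 d0 b V (b + 1) W c U
        (fun Z => Br (Ω : Set Pt) Z (foot v0 d0 a) d0) ∅).toReal +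
      (Q3E (Ω : Set Pt) v0 d0 b V (b + 1) W c U (fun Z => DnR (Ω : Set Pt) Z (foot v0 d0 a) d0) ∅).toReal ≤
    Real.sin (3 * Real.pi / 8) * (P3E (Ω : Set Pt) v0 d0 a V b W c U ∅).toReal +
      Real.sin (3 * Real.pi / 8) * (Q3E (Ω : Set Pt) v0 d0 a V (b + 1) W c U
        (fun Z => Br (Ω : Set Pt) Z (foot v0 d0 b) d0) ∅).toReal +
      Real.sin (Real.pi / 8) * (Q3E (Ω : Set Pt) v0 d0 a V b W (b + 1) U
        (fun Z => Br (Ω : Set Pt) Z (foot v0 d0 c) d0) ∅).toReal +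
      (Q3E (Ω : Set Pt) v0 d0 a V b W (b + 1) U (fun Z => DnL (Ω : Set Pt) Z (foot v0 d0 c) d0) ∅).toReal +
      Real.sin (Real.pi / 8) * (P3E (Ω : Set Pt) v0 d0 b V (b + 1) W c U ∅).toReal +
      (Q3E (Ω : Set Pt) v0 d0 b V (b + 1) W c U
        (fun Z => DnL (Ω : Set Pt) Z (foot v0 d0 a) d0) ∅).toReal / Real.sqrt 2 +
      ((Q3E (Ω : Set Pt) v0 d0 b V (b + 1) W c U (fun Z => Lat (Ω : Set Pt) Z (foot v0 d0 a) d0) ∅).toReal +
      (Q3E (Ω : Set Pt) v0 d0 a V (b + 1) W c U (fun Z => Lat (Ω : Set Pt) Z (foot v0 d0 b) d0) ∅).toReal +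
      (Q3E (Ω : Set Pt) v0 d0 a V b W (b + 1) U (fun Z => Lat (Ω : Set Pt) Z (foot v0 d0 c) d0) ∅).toReal) := by
  rw [P3E_toReal, P3E_toReal, P3E_toReal, P3E_toReal, Q3E_toReal (fun Z => dnr_arr Ω Z _ _),
    Q3E_toReal (fun Z => br_arr Ω Z _ _), Q3E_toReal (fun Z => dnr_arr Ω Z _ _),
    Q3E_toReal (fun Z => br_arr Ω Z _ _), Q3E_toReal (fun Z => br_arr Ω Z _ _),
    Q3E_toReal (fun Z => dnl_arr Ω Z _ _), Q3E_toReal (fun Z => dnl_arr Ω Z _ _),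
    Q3E_toReal (fun Z => lat_arr Ω Z _ _), Q3E_toReal (fun Z => lat_arr Ω Z _ _),
    Q3E_toReal (fun Z => lat_arr Ω Z _ _)]
  have K := slit4E ga (foot v0 d0 b) V (foot v0 d0 (b + 1)) W (foot v0 d0 c) U 7
  have L := slit4E gb (foot v0 d0 a) V (foot v0 d0 (b + 1)) W (foot v0 d0 c) U 5
  have M := slit4E gb1 (foot v0 d0 a) V (foot v0 d0 b) W (foot v0 d0 c) U 3
  have R := slit4E gc (foot v0 d0 a) V (foot v0 d0 b) W (foot v0 d0 (b + 1)) U 1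
  obtain ⟨s4, s2, s8, s5⟩ := sin_vals
  -- blocked walkers
  have K2 : obE Ω (foot v0 d0 b) d0 V (obE Ω (foot v0 d0 c) d0 U (fun X => ZhE Ω X (foot v0 d0 a)
      (foot v0 d0 (b + 1)) d0 W (ph 7))) ∅ = 0 := by
    apply obE_zero
    intro s hs
    apply obE_zero
    intro t _
    exact zh_block gb (Or.inl ⟨hab, by omega⟩) (br_anti (Set.empty_subset _) hs.1)
      (fun x hx => Or.inl (Or.inr hx)) W (ph 7)
  have K3 : obE Ω (foot v0 d0 b) d0 V (obE Ω (foot v0 d0 (b + 1)) d0 W (fun X => ZhE Ω X (foot v0 d0 a)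
      (foot v0 d0 c) d0 U (ph 7))) ∅ = 0 := by
    apply obE_zero
    intro s hs
    apply obE_zero
    intro t _
    exact zh_block gb (Or.inl ⟨hab, by omega⟩) (br_anti (Set.empty_subset _) hs.1)
      (fun x hx => Or.inl (Or.inr hx)) U (ph 7)
  have L3 : obE Ω (foot v0 d0 a) d0 V (obE Ω (foot v0 d0 (b + 1)) d0 W (fun X => ZhE Ω X (foot v0 d0 b)
      (foot v0 d0 c) d0 U (ph 5))) ∅ = 0 := by
    apply obE_zero
    intro s _
    apply obE_zero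
    intro t ht
    exact zh_block gb1 (Or.inl ⟨by omega, hbc⟩) (br_anti (Set.empty_subset _) ht.1)
      (fun x hx => Or.inr hx) U (ph 5)
  have M1 : obE Ω (foot v0 d0 b) d0 W (obE Ω (foot v0 d0 c) d0 U (fun X => ZhE Ω X (foot v0 d0 (b + 1))
      (foot v0 d0 a) d0 V (ph 3))) ∅ = 0 := by
    apply obE_zero
    intro s hs
    apply obE_zero
    intro t _
    exact zh_block gb (Or.inr ⟨hab, by omega⟩) (br_anti (Set.empty_subset _) hs.1)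
      (fun x hx => Or.inl (Or.inr hx)) V (ph 3)
  have R1 : obE Ω (foot v0 d0 b) d0 W (obE Ω (foot v0 d0 (b + 1)) d0 U (fun X => ZhE Ω X (foot v0 d0 c)
      (foot v0 d0 a) d0 V (ph 1))) ∅ = 0 := by
    apply obE_zero
    intro s hs
    apply obE_zero
    intro t _
    exact zh_block gb (Or.inr ⟨hab, by omega⟩) (br_anti (Set.empty_subset _) hs.1)
      (fun x hx => Or.inl (Or.inr hx)) V (ph 1)
  have R2 : obE Ω (foot v0 d0 a) d0 V (obE Ω (foot v0 d0 (b + 1)) d0 U (fun X => ZhE Ω X (foot v0 d0 c)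
      (foot v0 d0 b) d0 W (ph 1))) ∅ = 0 := by
    apply obE_zero
    intro s _
    apply obE_zero
    intro t ht
    exact zh_block gb1 (Or.inr ⟨by omega, hbc⟩) (br_anti (Set.empty_subset _) ht.1)
      (fun x hx => Or.inr hx) W (ph 1)
  -- swaps
  have S1 : (fun X => ZhE Ω X (foot v0 d0 b) (foot v0 d0 a) d0 V (ph 5)) =
      fun X => ZhE Ω X (foot v0 d0 a) (foot v0 d0 b) d0 V (ph 7) := by
    funext X
    rw [zh_swap ga gb hab X V 5]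
    norm_num
  have S2 : (fun X => ZhE Ω X (foot v0 d0 (b + 1)) (foot v0 d0 b) d0 W (ph 3)) =
      fun X => ZhE Ω X (foot v0 d0 b) (foot v0 d0 (b + 1)) d0 W (ph 5) := by
    funext X
    rw [zh_swap gb gb1 (by omega) X W 3]
    norm_num
  have S3 : (fun X => ZhE Ω X (foot v0 d0 c) (foot v0 d0 (b + 1)) d0 U (ph 1)) =
      fun X => ZhE Ω X (foot v0 d0 (b + 1)) (foot v0 d0 c) d0 U (ph 3) := by
    funext X
    rw [zh_swap gb1 gc hbc X U 1]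
    norm_num
  -- free parts
  have FK := (tri_lin4 Ω d0 (foot v0 d0 b) V (foot v0 d0 (b + 1)) W (foot v0 d0 c) U
    (Real.sin (Real.pi / 8)) (-(1 / Real.sqrt 2)) 1 (-1)
    (fun Z => gr Ω (foot v0 d0 a) d0 (Br (Ω : Set Pt) Z (foot v0 d0 a) d0))
    (fun Z => gr Ω (foot v0 d0 a) d0 (DnL (Ω : Set Pt) Z (foot v0 d0 a) d0))
    (fun Z => gr Ω (foot v0 d0 a) d0 (DnR (Ω : Set Pt) Z (foot v0 d0 a) d0))
    (fun Z => gr Ω (foot v0 d0 a) d0 (Lat (Ω : Set Pt) Z (foot v0 d0 a) d0))).symm.le.trans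
    (tri_mono Ω d0 (foot v0 d0 b) V (foot v0 d0 (b + 1)) W (foot v0 d0 c) U _ (fr Ω (foot v0 d0 a) d0 (ph 7))
      (fun s _ t _ r _ Z _ _ _ => fr7_ge ga Z))
  have FL := (tri_mono Ω d0 (foot v0 d0 a) V (foot v0 d0 (b + 1)) W (foot v0 d0 c) U
      (fr Ω (foot v0 d0 b) d0 (ph 5)) _
      (fun s _ t ht r _ Z _ hZ _ => fr5_le gb Z (dnr_zero gb gb1 ht hZ))).trans
    (tri_lin4 Ω d0 (foot v0 d0 a) V (foot v0 d0 (b + 1)) W (foot v0 d0 c) U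
    (Real.sin (3 * Real.pi / 8)) 0 0 1
    (fun Z => gr Ω (foot v0 d0 b) d0 (Br (Ω : Set Pt) Z (foot v0 d0 b) d0))
    (fun Z => gr Ω (foot v0 d0 b) d0 (DnL (Ω : Set Pt) Z (foot v0 d0 b) d0))
    (fun Z => gr Ω (foot v0 d0 b) d0 (DnR (Ω : Set Pt) Z (foot v0 d0 b) d0))
    (fun Z => gr Ω (foot v0 d0 b) d0 (Lat (Ω : Set Pt) Z (foot v0 d0 b) d0))).le
  have FM : 0 ≤ tri Ω d0 (foot v0 d0 a) V (foot v0 d0 b) W (foot v0 d0 c) U (fr Ω (foot v0 d0 (b + 1)) d0 (ph 3)) :=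
    tri_nonneg _ _ _ _ _ _ _ _ _ (fun Z => fr3_nonneg gb1 Z)
  have FR := (tri_mono Ω d0 (foot v0 d0 a) V (foot v0 d0 b) W (foot v0 d0 (b + 1)) U
      (fr Ω (foot v0 d0 c) d0 (ph 1)) _
      (fun s _ t _ r _ Z _ _ _ => fr1_le gc Z)).trans
    (tri_lin4 Ω d0 (foot v0 d0 a) V (foot v0 d0 b) W (foot v0 d0 (b + 1)) U
    (Real.sin (Real.pi / 8)) 1 (-(1 / Real.sqrt 2)) 1
    (fun Z => gr Ω (foot v0 d0 c) d0 (Br (Ω : Set Pt) Z (foot v0 d0 c) d0))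
    (fun Z => gr Ω (foot v0 d0 c) d0 (DnL (Ω : Set Pt) Z (foot v0 d0 c) d0))
    (fun Z => gr Ω (foot v0 d0 c) d0 (DnR (Ω : Set Pt) Z (foot v0 d0 c) d0))
    (fun Z => gr Ω (foot v0 d0 c) d0 (Lat (Ω : Set Pt) Z (foot v0 d0 c) d0))).le
  have m1 : Real.sin (3 * (Real.pi / 8)) = Real.sin (3 * Real.pi / 8) := by
    congr 1
    ring
  have m2 : Real.sin (1 * (Real.pi / 8)) = Real.sin (Real.pi / 8) := by
    rw [one_mul]
  have eph : ∀ m : ℝ, (fun w : ℤ => Real.sin ((m + w) * (Real.pi / 8))) = ph m := fun m => rfl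
  simp only [eph] at K L M R
  rw [K2, K3, sin7] at K
  rw [L3, S1, s5] at L
  rw [M1, S2, m1] at M
  rw [R1, R2, S3, m2] at R
  unfold tri at FK FL FM FR ⊢
  obtain ⟨i, hi⟩ : ∃ i : ℝ, i = 1 / Real.sqrt 2 := ⟨_, rfl⟩
  rw [← hi] at FK FR
  have hd : ∀ x : ℝ, x / Real.sqrt 2 = i * x := fun x => by rw [hi]; ring
  simp only [hd]
  linarith

/-- THREE EXPLORERS, on the left of an adjacent pair, in a finite domain; feet a < b < b + 1. -/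
theorem I3_fin {Ω : Finset Pt} {v0 d0 : Pt} (V W : Set Pt) {a b : ℤ} (hab : a < b)
    (ga : GoodDom Ω (foot v0 d0 a) d0) (gb : GoodDom Ω (foot v0 d0 b) d0)
    (gb1 : GoodDom Ω (foot v0 d0 (b + 1)) d0) :
    Real.sin (Real.pi / 8) * (P2E (Ω : Set Pt) v0 d0 b V (b + 1) W ∅).toReal +
      (Q2E (Ω : Set Pt) v0 d0 b V (b + 1) W
        (fun Z => DnL (Ω : Set Pt) Z (foot v0 d0 a) d0) ∅).toReal / Real.sqrt 2 +
      Real.sin (3 * Real.pi / 8) * (P2E (Ω : Set Pt) v0 d0 a V b W ∅).toReal ≤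
    Real.sin (Real.pi / 8) * (Q2E (Ω : Set Pt) v0 d0 b V (b + 1) W
        (fun Z => Br (Ω : Set Pt) Z (foot v0 d0 a) d0) ∅).toReal +
      (Q2E (Ω : Set Pt) v0 d0 b V (b + 1) W (fun Z => DnR (Ω : Set Pt) Z (foot v0 d0 a) d0) ∅).toReal +
      Real.sin (3 * Real.pi / 8) * (P2E (Ω : Set Pt) v0 d0 a V (b + 1) W ∅).toReal +
      Real.sin (3 * Real.pi / 8) * (Q2E (Ω : Set Pt) v0 d0 a V b W
        (fun Z => Br (Ω : Set Pt) Z (foot v0 d0 (b + 1)) d0) ∅).toReal +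
      ((Q2E (Ω : Set Pt) v0 d0 b V (b + 1) W (fun Z => Lat (Ω : Set Pt) Z (foot v0 d0 a) d0) ∅).toReal +
      (Q2E (Ω : Set Pt) v0 d0 a V b W (fun Z => Lat (Ω : Set Pt) Z (foot v0 d0 (b + 1)) d0) ∅).toReal) := by
  rw [P2E_toReal, P2E_toReal, P2E_toReal, Q2E_toReal' (fun Z => dnl_arr Ω Z _ _),
    Q2E_toReal' (fun Z => br_arr Ω Z _ _), Q2E_toReal' (fun Z => dnr_arr Ω Z _ _),
    Q2E_toReal' (fun Z => br_arr Ω Z _ _), Q2E_toReal' (fun Z => lat_arr Ω Z _ _),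
    Q2E_toReal' (fun Z => lat_arr Ω Z _ _)]
  have K := slit3E ga (foot v0 d0 b) V (foot v0 d0 (b + 1)) W 7
  have L := slit3E gb (foot v0 d0 a) V (foot v0 d0 (b + 1)) W 5
  have M := slit3E gb1 (foot v0 d0 a) V (foot v0 d0 b) W 3
  obtain ⟨s4, s2, s8, s5⟩ := sin_vals
  have eph : ∀ m : ℝ, (fun w : ℤ => Real.sin ((m + w) * (Real.pi / 8))) = ph m := fun m => rfl
  simp only [eph] at K L M
  -- blocked walkers
  have K3 : ∑ s ∈ fam Ω (foot v0 d0 b) d0 (BrE (Ω : Set Pt) ∅ (foot v0 d0 b) d0 V), xc ^ s.length *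
      ZhE Ω (vis (foot v0 d0 b) d0 s) (foot v0 d0 a) (foot v0 d0 (b + 1)) d0 W (ph 7) = 0 := by
    apply Finset.sum_eq_zero
    intro s hs
    rw [mem_brEF] at hs
    rw [zh_block gb (Or.inl ⟨hab, by omega⟩) hs.1 (le_refl _) W (ph 7), mul_zero]
  have M1 : ∑ t ∈ fam Ω (foot v0 d0 b) d0 (BrE (Ω : Set Pt) ∅ (foot v0 d0 b) d0 W), xc ^ t.length *
      ZhE Ω (vis (foot v0 d0 b) d0 t) (foot v0 d0 (b + 1)) (foot v0 d0 a) d0 V (ph 3) = 0 := by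
    apply Finset.sum_eq_zero
    intro s hs
    rw [mem_brEF] at hs
    rw [zh_block gb (Or.inr ⟨hab, by omega⟩) hs.1 (le_refl _) V (ph 3), mul_zero]
  -- swaps
  have S1 : ∀ X, ZhE Ω X (foot v0 d0 b) (foot v0 d0 a) d0 V (ph 5) =
      ZhE Ω X (foot v0 d0 a) (foot v0 d0 b) d0 V (ph 7) := by
    intro X
    rw [zh_swap ga gb hab X V 5]
    norm_num
  have S2 : ∀ X, ZhE Ω X (foot v0 d0 (b + 1)) (foot v0 d0 b) d0 W (ph 3) =
      ZhE Ω X (foot v0 d0 b) (foot v0 d0 (b + 1)) d0 W (ph 5) := by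
    intro X
    rw [zh_swap gb gb1 (by omega) X W 3]
    norm_num
  -- free parts
  have FK := (duo_lin4 Ω d0 (foot v0 d0 b) V (foot v0 d0 (b + 1)) W
    (Real.sin (Real.pi / 8)) (-(1 / Real.sqrt 2)) 1 (-1)
    (fun Z => gr Ω (foot v0 d0 a) d0 (Br (Ω : Set Pt) Z (foot v0 d0 a) d0))
    (fun Z => gr Ω (foot v0 d0 a) d0 (DnL (Ω : Set Pt) Z (foot v0 d0 a) d0))
    (fun Z => gr Ω (foot v0 d0 a) d0 (DnR (Ω : Set Pt) Z (foot v0 d0 a) d0))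
    (fun Z => gr Ω (foot v0 d0 a) d0 (Lat (Ω : Set Pt) Z (foot v0 d0 a) d0)))
  have FL : 0 ≤ duo Ω d0 (foot v0 d0 a) V (foot v0 d0 (b + 1)) W (fr Ω (foot v0 d0 b) d0 (ph 5)) :=
    duo_nonneg _ _ _ _ _ _ _ (fun Z => fr5_nonneg gb Z)
  have FM := (duo_mono Ω d0 (foot v0 d0 a) V (foot v0 d0 b) W
      (fr Ω (foot v0 d0 (b + 1)) d0 (ph 3)) _
      (fun s _ t ht Z _ hZ => fr3_le gb1 Z (dnl_zero gb gb1 ht hZ))).trans
    (duo_lin4 Ω d0 (foot v0 d0 a) V (foot v0 d0 b) W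
    (Real.sin (3 * Real.pi / 8)) 0 0 1
    (fun Z => gr Ω (foot v0 d0 (b + 1)) d0 (Br (Ω : Set Pt) Z (foot v0 d0 (b + 1)) d0))
    (fun Z => gr Ω (foot v0 d0 (b + 1)) d0 (DnL (Ω : Set Pt) Z (foot v0 d0 (b + 1)) d0))
    (fun Z => gr Ω (foot v0 d0 (b + 1)) d0 (DnR (Ω : Set Pt) Z (foot v0 d0 (b + 1)) d0))
    (fun Z => gr Ω (foot v0 d0 (b + 1)) d0 (Lat (Ω : Set Pt) Z (foot v0 d0 (b + 1)) d0))).le
  have FK' := duo_mono Ω d0 (foot v0 d0 b) V (foot v0 d0 (b + 1)) W (fr Ω (foot v0 d0 a) d0 (ph 7))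
    (fun Z => Real.sin (Real.pi / 8) * gr Ω (foot v0 d0 a) d0 (Br (Ω : Set Pt) Z (foot v0 d0 a) d0) +
      (-(1 / Real.sqrt 2)) * gr Ω (foot v0 d0 a) d0 (DnL (Ω : Set Pt) Z (foot v0 d0 a) d0) +
      1 * gr Ω (foot v0 d0 a) d0 (DnR (Ω : Set Pt) Z (foot v0 d0 a) d0) +
      1 * gr Ω (foot v0 d0 a) d0 (Lat (Ω : Set Pt) Z (foot v0 d0 a) d0))
      (fun s _ t _ Z _ _ => by
        rw [fr_eq ga]
        have h1 := lat_le (Ω := Ω) (p := foot v0 d0 a) (d0 := d0) (ph 7) Z (fun w => Real.sin_le_one _)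
        have h0 : ph 7 0 = Real.sin (Real.pi / 8) := by
          unfold ph
          rw [show (7 + ((0 : ℤ) : ℝ)) * (Real.pi / 8) = Real.pi - Real.pi / 8 by push_cast; ring, Real.sin_pi_sub]
        have h3 : ph 7 3 = -(1 / Real.sqrt 2) := by
          unfold ph
          rw [show (7 + ((3 : ℤ) : ℝ)) * (Real.pi / 8) = 2 * (Real.pi / 8) + Real.pi by push_cast; ring,
            Real.sin_add_pi, s2]
        have h3' : ph 7 (-3) = 1 := by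
          unfold ph
          rw [show (7 + ((-3 : ℤ) : ℝ)) * (Real.pi / 8) = 4 * (Real.pi / 8) by push_cast; ring, s4]
        rw [h0, h3, h3']
        linarith)
  rw [duo_lin4] at FK'
  have m1 : Real.sin (3 * (Real.pi / 8)) = Real.sin (3 * Real.pi / 8) := by
    congr 1
    ring
  rw [K3, sin7] at K
  simp only [S1] at L
  rw [s5] at L
  simp only [S2] at M
  rw [M1, m1] at M
  unfold duo at FL FM FK' ⊢
  obtain ⟨i, hi⟩ : ∃ i : ℝ, i = 1 / Real.sqrt 2 := ⟨_, rfl⟩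
  rw [← hi] at FK'
  have hd : ∀ x : ℝ, x / Real.sqrt 2 = i * x := fun x => by rw [hi]; ring
  simp only [hd]
  linarith

end Ex

end HexObs
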