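import Pool.Agent.HexPoly.Slit4
import Pool.Agent.HexObs.Planar2

/-!
The free exits of the explorers: bounds for the four phases; triple sums.
-/

set_option autoImplicit false

namespace HexObs

namespace Ex

open Complex Finset ENNReal

/-! triple sums -/

/-- sum over three walkers. -/
noncomputable def tri (Ω : Finset Pt) (d0 p1 : Pt) (V1 : Set Pt) (p2 : Pt) (V2 : Set Pt) (p3 : Pt) (V3 : Set Pt)
    (F : Set Pt → ℝ) : ℝ :=
  obE Ω p1 d0 V1 (obE Ω p2 d0 V2 (obE Ω p3 d0 V3 F)) ∅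

lemma tri_add (Ω : Finset Pt) (d0 p1 : Pt) (V1 : Set Pt) (p2 : Pt) (V2 : Set Pt) (p3 : Pt) (V3 : Set Pt)
    (F G : Set Pt → ℝ) :
    tri Ω d0 p1 V1 p2 V2 p3 V3 (fun Z => F Z + G Z) =
      tri Ω d0 p1 V1 p2 V2 p3 V3 F + tri Ω d0 p1 V1 p2 V2 p3 V3 G := by
  unfold tri
  have e1 : obE Ω p3 d0 V3 (fun Z => F Z + G Z) = fun Y => obE Ω p3 d0 V3 F Y + obE Ω p3 d0 V3 G Y :=
    funext (fun Y => obE_add Ω p3 d0 V3 F G Y)
  have e2 : obE Ω p2 d0 V2 (fun Y => obE Ω p3 d0 V3 F Y + obE Ω p3 d0 V3 G Y) =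
      fun Y => obE Ω p2 d0 V2 (obE Ω p3 d0 V3 F) Y + obE Ω p2 d0 V2 (obE Ω p3 d0 V3 G) Y :=
    funext (fun Y => obE_add Ω p2 d0 V2 (obE Ω p3 d0 V3 F) (obE Ω p3 d0 V3 G) Y)
  rw [e1, e2]
  exact obE_add Ω p1 d0 V1 _ _ ∅

lemma tri_mul (Ω : Finset Pt) (d0 p1 : Pt) (V1 : Set Pt) (p2 : Pt) (V2 : Set Pt) (p3 : Pt) (V3 : Set Pt)
    (c : ℝ) (F : Set Pt → ℝ) :
    tri Ω d0 p1 V1 p2 V2 p3 V3 (fun Z => c * F Z) = c * tri Ω d0 p1 V1 p2 V2 p3 V3 F := by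
  unfold tri
  have e1 : obE Ω p3 d0 V3 (fun Z => c * F Z) = fun Y => c * obE Ω p3 d0 V3 F Y :=
    funext (fun Y => obE_mul Ω p3 d0 V3 c F Y)
  have e2 : obE Ω p2 d0 V2 (fun Y => c * obE Ω p3 d0 V3 F Y) =
      fun Y => c * obE Ω p2 d0 V2 (obE Ω p3 d0 V3 F) Y :=
    funext (fun Y => obE_mul Ω p2 d0 V2 c (obE Ω p3 d0 V3 F) Y)
  rw [e1, e2]
  exact obE_mul Ω p1 d0 V1 c _ ∅

/-- monotonicity, with the information on the three walkers. -/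
lemma tri_mono (Ω : Finset Pt) (d0 p1 : Pt) (V1 : Set Pt) (p2 : Pt) (V2 : Set Pt) (p3 : Pt) (V3 : Set Pt)
    (F G : Set Pt → ℝ)
    (h : ∀ s ∈ Br (Ω : Set Pt) ∅ p1 d0, ∀ t ∈ Br (Ω : Set Pt) ∅ p2 d0, ∀ r ∈ Br (Ω : Set Pt) ∅ p3 d0,
      ∀ Z : Set Pt, vis p1 d0 s ⊆ Z → vis p2 d0 t ⊆ Z → vis p3 d0 r ⊆ Z → F Z ≤ G Z) :
    tri Ω d0 p1 V1 p2 V2 p3 V3 F ≤ tri Ω d0 p1 V1 p2 V2 p3 V3 G := by
  unfold tri
  apply obE_mono
  intro s hs
  apply obE_mono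
  intro t ht
  apply obE_mono
  intro r hr
  exact h s (br_anti (Set.empty_subset _) hs.1) t (br_anti (Set.empty_subset _) ht.1)
    r (br_anti (Set.empty_subset _) hr.1) _ (fun x hx => Or.inl (Or.inl (Or.inr hx)))
    (fun x hx => Or.inl (Or.inr hx)) (fun x hx => Or.inr hx)

lemma tri_nonneg (Ω : Finset Pt) (d0 p1 : Pt) (V1 : Set Pt) (p2 : Pt) (V2 : Set Pt) (p3 : Pt) (V3 : Set Pt)
    (F : Set Pt → ℝ) (h : ∀ Z, 0 ≤ F Z) : 0 ≤ tri Ω d0 p1 V1 p2 V2 p3 V3 F :=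
  obE_nonneg _ _ _ _ _ _ (fun _ => obE_nonneg _ _ _ _ _ _ (fun _ => obE_nonneg _ _ _ _ _ _ h))

/-- linear combinations of four functions. -/
lemma tri_lin4 (Ω : Finset Pt) (d0 p1 : Pt) (V1 : Set Pt) (p2 : Pt) (V2 : Set Pt) (p3 : Pt) (V3 : Set Pt)
    (a b c d : ℝ) (F G H K : Set Pt → ℝ) :
    tri Ω d0 p1 V1 p2 V2 p3 V3 (fun Z => a * F Z + b * G Z + c * H Z + d * K Z) =
      a * tri Ω d0 p1 V1 p2 V2 p3 V3 F + b * tri Ω d0 p1 V1 p2 V2 p3 V3 G +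
        c * tri Ω d0 p1 V1 p2 V2 p3 V3 H + d * tri Ω d0 p1 V1 p2 V2 p3 V3 K := by
  rw [tri_add Ω d0 p1 V1 p2 V2 p3 V3 (fun Z => a * F Z + b * G Z + c * H Z) (fun Z => d * K Z),
    tri_add Ω d0 p1 V1 p2 V2 p3 V3 (fun Z => a * F Z + b * G Z) (fun Z => c * H Z),
    tri_add Ω d0 p1 V1 p2 V2 p3 V3 (fun Z => a * F Z) (fun Z => b * G Z), tri_mul, tri_mul, tri_mul, tri_mul]

/-! the same for two walkers -/

/-- sum over two walkers. -/
noncomputable def duo (Ω : Finset Pt) (d0 p1 : Pt) (V1 : Set Pt) (p2 : Pt) (V2 : Set Pt) (F : Set Pt → ℝ) : ℝ :=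
  obE Ω p1 d0 V1 (obE Ω p2 d0 V2 F) ∅

lemma duo_add (Ω : Finset Pt) (d0 p1 : Pt) (V1 : Set Pt) (p2 : Pt) (V2 : Set Pt) (F G : Set Pt → ℝ) :
    duo Ω d0 p1 V1 p2 V2 (fun Z => F Z + G Z) = duo Ω d0 p1 V1 p2 V2 F + duo Ω d0 p1 V1 p2 V2 G := by
  unfold duo
  have e2 : obE Ω p2 d0 V2 (fun Y => F Y + G Y) = fun Y => obE Ω p2 d0 V2 F Y + obE Ω p2 d0 V2 G Y :=
    funext (fun Y => obE_add Ω p2 d0 V2 F G Y)
  rw [e2]
  exact obE_add Ω p1 d0 V1 _ _ ∅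

lemma duo_mul (Ω : Finset Pt) (d0 p1 : Pt) (V1 : Set Pt) (p2 : Pt) (V2 : Set Pt) (c : ℝ) (F : Set Pt → ℝ) :
    duo Ω d0 p1 V1 p2 V2 (fun Z => c * F Z) = c * duo Ω d0 p1 V1 p2 V2 F := by
  unfold duo
  have e2 : obE Ω p2 d0 V2 (fun Y => c * F Y) = fun Y => c * obE Ω p2 d0 V2 F Y :=
    funext (fun Y => obE_mul Ω p2 d0 V2 c F Y)
  rw [e2]
  exact obE_mul Ω p1 d0 V1 c _ ∅

lemma duo_mono (Ω : Finset Pt) (d0 p1 : Pt) (V1 : Set Pt) (p2 : Pt) (V2 : Set Pt) (F G : Set Pt → ℝ)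
    (h : ∀ s ∈ Br (Ω : Set Pt) ∅ p1 d0, ∀ t ∈ Br (Ω : Set Pt) ∅ p2 d0,
      ∀ Z : Set Pt, vis p1 d0 s ⊆ Z → vis p2 d0 t ⊆ Z → F Z ≤ G Z) :
    duo Ω d0 p1 V1 p2 V2 F ≤ duo Ω d0 p1 V1 p2 V2 G := by
  unfold duo
  apply obE_mono
  intro s hs
  apply obE_mono
  intro t ht
  exact h s (br_anti (Set.empty_subset _) hs.1) t (br_anti (Set.empty_subset _) ht.1)
    _ (fun x hx => Or.inl (Or.inr hx)) (fun x hx => Or.inr hx)

lemma duo_nonneg (Ω : Finset Pt) (d0 p1 : Pt) (V1 : Set Pt) (p2 : Pt) (V2 : Set Pt)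
    (F : Set Pt → ℝ) (h : ∀ Z, 0 ≤ F Z) : 0 ≤ duo Ω d0 p1 V1 p2 V2 F :=
  obE_nonneg _ _ _ _ _ _ (fun _ => obE_nonneg _ _ _ _ _ _ h)

lemma duo_lin4 (Ω : Finset Pt) (d0 p1 : Pt) (V1 : Set Pt) (p2 : Pt) (V2 : Set Pt)
    (a b c d : ℝ) (F G H K : Set Pt → ℝ) :
    duo Ω d0 p1 V1 p2 V2 (fun Z => a * F Z + b * G Z + c * H Z + d * K Z) =
      a * duo Ω d0 p1 V1 p2 V2 F + b * duo Ω d0 p1 V1 p2 V2 G +
        c * duo Ω d0 p1 V1 p2 V2 H + d * duo Ω d0 p1 V1 p2 V2 K := by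
  rw [duo_add Ω d0 p1 V1 p2 V2 (fun Z => a * F Z + b * G Z + c * H Z) (fun Z => d * K Z),
    duo_add Ω d0 p1 V1 p2 V2 (fun Z => a * F Z + b * G Z) (fun Z => c * H Z),
    duo_add Ω d0 p1 V1 p2 V2 (fun Z => a * F Z) (fun Z => b * G Z), duo_mul, duo_mul, duo_mul, duo_mul]

/-! the free exits -/

/-- the phase. -/
noncomputable def ph (m : ℝ) : ℤ → ℝ := fun w => Real.sin ((m + w) * (Real.pi / 8))

lemma ph_shift (m : ℝ) : (fun w => ph m (w + 2)) = ph (m + 2) := by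
  funext w
  unfold ph
  congr 1
  push_cast
  ring

lemma lat_ge {Ω : Finset Pt} {p d0 : Pt} (f : ℤ → ℝ) (Y : Set Pt) (hf : ∀ w, -1 ≤ f w) :
    -gr Ω p d0 (Lat (Ω : Set Pt) Y p d0) ≤
      ∑ u ∈ fam Ω p d0 (Lat (Ω : Set Pt) Y p d0), xc ^ u.length * f (wind u) := by
  unfold gr
  rw [← Finset.sum_neg_distrib]
  apply Finset.sum_le_sum
  intro u _
  have := pow_nonneg xc_pos.le u.length
  nlinarith [hf (wind u)]

lemma fr7_ge {Ω : Finset Pt} {p d0 : Pt} (hp : GoodDom Ω p d0) (Y : Set Pt) :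
    Real.sin (Real.pi / 8) * gr Ω p d0 (Br (Ω : Set Pt) Y p d0) +
      (-(1 / Real.sqrt 2)) * gr Ω p d0 (DnL (Ω : Set Pt) Y p d0) +
      1 * gr Ω p d0 (DnR (Ω : Set Pt) Y p d0) + (-1) * gr Ω p d0 (Lat (Ω : Set Pt) Y p d0) ≤
      fr Ω p d0 (ph 7) Y := by
  obtain ⟨s4, s2, s8, s5⟩ := sin_vals
  rw [fr_eq hp]
  have h1 := lat_ge (Ω := Ω) (p := p) (d0 := d0) (ph 7) Y (fun w => Real.neg_one_le_sin _)
  have h0 : ph 7 0 = Real.sin (Real.pi / 8) := by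
    unfold ph
    rw [show (7 + ((0 : ℤ) : ℝ)) * (Real.pi / 8) = Real.pi - Real.pi / 8 by push_cast; ring, Real.sin_pi_sub]
  have h3 : ph 7 3 = -(1 / Real.sqrt 2) := by
    unfold ph
    rw [show (7 + ((3 : ℤ) : ℝ)) * (Real.pi / 8) = 2 * (Real.pi / 8) + Real.pi by push_cast; ring, Real.sin_add_pi, s2]
  have h3' : ph 7 (-3) = 1 := by
    unfold ph
    rw [show (7 + ((-3 : ℤ) : ℝ)) * (Real.pi / 8) = 4 * (Real.pi / 8) by push_cast; ring, s4]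
  rw [h0, h3, h3']
  linarith

lemma fr5_nonneg {Ω : Finset Pt} {p d0 : Pt} (hp : GoodDom Ω p d0) (Y : Set Pt) :
    0 ≤ fr Ω p d0 (ph 5) Y := by
  have hpi := Real.pi_pos
  rw [fr_eq hp]
  have hs : ∀ k : ℤ, -5 ≤ k → k ≤ 3 → 0 ≤ ph 5 k := by
    intro k h1 h2
    have h1' : (-5 : ℝ) ≤ k := by exact_mod_cast h1
    have h2' : (k : ℝ) ≤ 3 := by exact_mod_cast h2
    apply Real.sin_nonneg_of_nonneg_of_le_pi
    · apply mul_nonneg
      · linarith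
      · linarith
    · have : (5 + (k : ℝ)) * (Real.pi / 8) ≤ 8 * (Real.pi / 8) :=
        mul_le_mul_of_nonneg_right (by linarith) (by linarith)
      linarith
  have h1 := lat_nonneg hp (ph 5) Y (hs 1 (by norm_num) (by norm_num)) (hs (-1) (by norm_num) (by norm_num))
    (hs 2 (by norm_num) (by norm_num)) (hs (-2) (by norm_num) (by norm_num))
  have h2 := mul_nonneg (hs 0 (by norm_num) (by norm_num)) (gr_nonneg Ω p d0 (Br (Ω : Set Pt) Y p d0))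
  have h3 := mul_nonneg (hs 3 (by norm_num) (by norm_num)) (gr_nonneg Ω p d0 (DnL (Ω : Set Pt) Y p d0))
  have h4 := mul_nonneg (hs (-3) (by norm_num) (by norm_num)) (gr_nonneg Ω p d0 (DnR (Ω : Set Pt) Y p d0))
  linarith

lemma fr5_le {Ω : Finset Pt} {p d0 : Pt} (hp : GoodDom Ω p d0) (Y : Set Pt)
    (hR : gr Ω p d0 (DnR (Ω : Set Pt) Y p d0) = 0) :
    fr Ω p d0 (ph 5) Y ≤ Real.sin (3 * Real.pi / 8) * gr Ω p d0 (Br (Ω : Set Pt) Y p d0) +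
      0 * gr Ω p d0 (DnL (Ω : Set Pt) Y p d0) + 0 * gr Ω p d0 (DnR (Ω : Set Pt) Y p d0) +
      1 * gr Ω p d0 (Lat (Ω : Set Pt) Y p d0) := by
  obtain ⟨s4, s2, s8, s5⟩ := sin_vals
  rw [fr_eq hp, hR]
  have h1 := lat_le (Ω := Ω) (p := p) (d0 := d0) (ph 5) Y (fun w => Real.sin_le_one _)
  have h0 : ph 5 0 = Real.sin (3 * Real.pi / 8) := by
    unfold ph
    rw [← s5]
    congr 1
    push_cast
    ring
  have h3 : ph 5 3 = 0 := by
    unfold ph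
    rw [← s8]
    congr 1
    push_cast
    ring
  rw [h0, h3]
  linarith

lemma fr3_nonneg {Ω : Finset Pt} {p d0 : Pt} (hp : GoodDom Ω p d0) (Y : Set Pt) :
    0 ≤ fr Ω p d0 (ph 3) Y := by
  have hpi := Real.pi_pos
  rw [fr_eq hp]
  have hs : ∀ k : ℤ, -3 ≤ k → k ≤ 5 → 0 ≤ ph 3 k := by
    intro k h1 h2
    have h1' : (-3 : ℝ) ≤ k := by exact_mod_cast h1
    have h2' : (k : ℝ) ≤ 5 := by exact_mod_cast h2
    apply Real.sin_nonneg_of_nonneg_of_le_pi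
    · apply mul_nonneg
      · linarith
      · linarith
    · have : (3 + (k : ℝ)) * (Real.pi / 8) ≤ 8 * (Real.pi / 8) :=
        mul_le_mul_of_nonneg_right (by linarith) (by linarith)
      linarith
  have h1 := lat_nonneg hp (ph 3) Y (hs 1 (by norm_num) (by norm_num)) (hs (-1) (by norm_num) (by norm_num))
    (hs 2 (by norm_num) (by norm_num)) (hs (-2) (by norm_num) (by norm_num))
  have h2 := mul_nonneg (hs 0 (by norm_num) (by norm_num)) (gr_nonneg Ω p d0 (Br (Ω : Set Pt) Y p d0))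
  have h3 := mul_nonneg (hs 3 (by norm_num) (by norm_num)) (gr_nonneg Ω p d0 (DnL (Ω : Set Pt) Y p d0))
  have h4 := mul_nonneg (hs (-3) (by norm_num) (by norm_num)) (gr_nonneg Ω p d0 (DnR (Ω : Set Pt) Y p d0))
  linarith

lemma fr3_le {Ω : Finset Pt} {p d0 : Pt} (hp : GoodDom Ω p d0) (Y : Set Pt)
    (hL : gr Ω p d0 (DnL (Ω : Set Pt) Y p d0) = 0) :
    fr Ω p d0 (ph 3) Y ≤ Real.sin (3 * Real.pi / 8) * gr Ω p d0 (Br (Ω : Set Pt) Y p d0) +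
      0 * gr Ω p d0 (DnL (Ω : Set Pt) Y p d0) + 0 * gr Ω p d0 (DnR (Ω : Set Pt) Y p d0) +
      1 * gr Ω p d0 (Lat (Ω : Set Pt) Y p d0) := by
  rw [fr_eq hp, hL]
  have h1 := lat_le (Ω := Ω) (p := p) (d0 := d0) (ph 3) Y (fun w => Real.sin_le_one _)
  have h0 : ph 3 0 = Real.sin (3 * Real.pi / 8) := by
    unfold ph
    congr 1
    push_cast
    ring
  have h3 : ph 3 (-3) = 0 := by
    unfold ph
    rw [show (3 + ((-3 : ℤ) : ℝ)) * (Real.pi / 8) = 0 by push_cast; ring, Real.sin_zero]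
  rw [h0, h3]
  linarith

lemma fr1_le {Ω : Finset Pt} {p d0 : Pt} (hp : GoodDom Ω p d0) (Y : Set Pt) :
    fr Ω p d0 (ph 1) Y ≤ Real.sin (Real.pi / 8) * gr Ω p d0 (Br (Ω : Set Pt) Y p d0) +
      1 * gr Ω p d0 (DnL (Ω : Set Pt) Y p d0) + (-(1 / Real.sqrt 2)) * gr Ω p d0 (DnR (Ω : Set Pt) Y p d0) +
      1 * gr Ω p d0 (Lat (Ω : Set Pt) Y p d0) := by
  obtain ⟨s4, s2, s8, s5⟩ := sin_vals
  rw [fr_eq hp]
  have h1 := lat_le (Ω := Ω) (p := p) (d0 := d0) (ph 1) Y (fun w => Real.sin_le_one _)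
  have h0 : ph 1 0 = Real.sin (Real.pi / 8) := by
    unfold ph
    congr 1
    push_cast
    ring
  have h3 : ph 1 3 = 1 := by
    unfold ph
    rw [show (1 + ((3 : ℤ) : ℝ)) * (Real.pi / 8) = 4 * (Real.pi / 8) by push_cast; ring]
    exact s4
  have h3' : ph 1 (-3) = -(1 / Real.sqrt 2) := by
    unfold ph
    rw [← s2, ← Real.sin_neg]
    congr 1
    push_cast
    ring
  rw [h0, h3, h3']
  linarith

/-! feet -/

lemma foot_foot (v0 d0 : Pt) (a k : ℤ) : foot (foot v0 d0 a) d0 k = foot v0 d0 (a + k) := by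
  unfold foot
  rw [add_smul, add_assoc]

/-- the explorer does not land on the right if there is a walker from the next foot. -/
lemma dnr_zero {Ω : Finset Pt} {v0 d0 : Pt} {b : ℤ} (h0 : GoodDom Ω (foot v0 d0 b) d0)
    (h1 : GoodDom Ω (foot v0 d0 (b + 1)) d0)
    {X : Set Pt} {s : List Bool} (hs : s ∈ Br (Ω : Set Pt) ∅ (foot v0 d0 (b + 1)) d0)
    (hX : vis (foot v0 d0 (b + 1)) d0 s ⊆ X) :
    gr Ω (foot v0 d0 b) d0 (DnR (Ω : Set Pt) X (foot v0 d0 b) d0) = 0 := by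
  have e0 : foot (foot v0 d0 b) d0 0 = foot v0 d0 b := by rw [foot_foot, add_zero]
  have e1 : foot (foot v0 d0 b) d0 1 = foot v0 d0 (b + 1) := foot_foot v0 d0 b 1
  have key := dnr_empty (Ω := Ω) (v0 := foot v0 d0 b) (d0 := d0) (X := X) (s := s)
  rw [e0, e1] at key
  exact key h0 h1 hs hX

/-- the explorer does not land on the left if there is a walker from the previous foot. -/
lemma dnl_zero {Ω : Finset Pt} {v0 d0 : Pt} {b : ℤ} (h0 : GoodDom Ω (foot v0 d0 b) d0)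
    (h1 : GoodDom Ω (foot v0 d0 (b + 1)) d0)
    {X : Set Pt} {s : List Bool} (hs : s ∈ Br (Ω : Set Pt) ∅ (foot v0 d0 b) d0)
    (hX : vis (foot v0 d0 b) d0 s ⊆ X) :
    gr Ω (foot v0 d0 (b + 1)) d0 (DnL (Ω : Set Pt) X (foot v0 d0 (b + 1)) d0) = 0 := by
  unfold gr
  apply Finset.sum_eq_zero
  intro t ht
  exfalso
  rw [mem_fam] at ht
  obtain ⟨_, htd, htc⟩ := ht
  have hc : cross d0 (foot v0 d0 (b + 1) - foot v0 d0 b) = -2 := by
    rw [t3_cross_foot h0.dir]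
    ring
  have key := far_land h1 h0 (by rw [t3_cl_foot, t3_cl_foot]) (t3_ip_foot _ _ _ _) (by
    intro he
    rw [he, sub_self] at hc
    simp [cross] at hc) hs hX htd
  rw [hc] at key
  have k1 : ¬ 0 < cross d0 (tip (foot v0 d0 (b + 1)) d0 t - foot v0 d0 b) := fun h => by
    have := key.2 h
    norm_num at this
  have hex : t ∈ exits Ω (foot v0 d0 (b + 1)) d0 := mem_exits.2 ⟨saw_arr htd.1, htd.2.1⟩
  have hlev := h1.bottom_level hex htd.2.2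
  have hpar := xy_parity (foot v0 d0 (b + 1)) d0 (tip (foot v0 d0 (b + 1)) d0 t)
  unfold xy at hpar
  simp only [] at hpar
  rw [hlev] at hpar
  have e : cross d0 (tip (foot v0 d0 (b + 1)) d0 t - foot v0 d0 b) =
      cross d0 (tip (foot v0 d0 (b + 1)) d0 t - foot v0 d0 (b + 1)) +
        cross d0 (foot v0 d0 (b + 1) - foot v0 d0 b) := by
    simp only [cross, Prod.fst_sub, Prod.snd_sub]
    ring
  rw [e, hc] at k1
  -- the tip would be on the walker's foot or to the left of it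
  have h2 : cross d0 (tip (foot v0 d0 (b + 1)) d0 t - foot v0 d0 (b + 1)) = 2 := by omega
  -- then the tip is foot b, whose first vertex is occupied
  have h3 : tip (foot v0 d0 (b + 1)) d0 t = foot v0 d0 b := by
    obtain ⟨k, hk⟩ := eq_foot (v0 := foot v0 d0 (b + 1)) h0.dir hlev
    rw [foot_foot] at hk
    rw [hk, t3_cross_foot h0.dir] at h2
    have hk' : k = -1 := by omega
    rw [hk, hk']
    congr 1
    ring
  have hlen : 1 ≤ t.length := by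
    by_contra hcon
    have hz : t.length = 0 := by omega
    have hd := htd.2.2
    rw [hz] at hd
    have hd' : d0 = -d0 := hd
    obtain ⟨⟨_, _, _, _, a5⟩, _⟩ := dirs_distinct d0 h0.dir
    exact a5 hd'.symm
  have hlast : vx (foot v0 d0 (b + 1)) d0 t t.length = foot v0 d0 b + d0 := by
    have h4 := tip_eq (v0 := foot v0 d0 (b + 1)) (d0 := d0) t
    rw [htd.2.2, h3] at h4
    rw [h4]
    abel
  have hl := htd.1.mem t.length hlen le_rfl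
  rw [hlast] at hl
  have hsout : vx (foot v0 d0 b) d0 s (s.length + 1) ∉ (Ω : Set Pt) := hs.2.1
  have e1 : vx (foot v0 d0 b) d0 s 1 = foot v0 d0 b + d0 := rfl
  rcases Nat.eq_zero_or_pos s.length with h | h
  · rw [h] at hsout
    rw [← e1] at hl
    exact hsout hl.1
  · rw [← e1] at hl
    exact hl.2 (hX ⟨1, le_rfl, h, rfl⟩)

end Ex

end HexObs
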