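import Pool.Agent.HexPoly.Defs

/-!
POLY: the inequalities I4 and I3 in the strip.
-/

set_option autoImplicit false

namespace HexObs

namespace Ex

open Complex Finset ENNReal Filter Topology

lemma up_Q3E {v0 d0 : Pt} (h0 : d0 ∈ dirs) {T N : ℕ} (hT : 1 ≤ T) {a b c : ℤ} (ha : |a| < N) (hb : |b| < N)
    (hc : |c| < N) (Wa Wb Wc : Set Pt) {P : ℕ → Set Pt → Set (List Bool)} {Q : Set Pt → Set (List Bool)}
    (h : ∀ X, HexW.Inc (fun n => P n X) (Q X)) :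
    HexW.Up (fun n => Q3E (trap v0 d0 T (n + N)) v0 d0 a Wa b Wb c Wc (P n))
      (Q3E (strip v0 d0 T) v0 d0 a Wa b Wb c Wc Q) :=
  up_overE (fun X => inc_BrE h0 hT ha Wa X) (up_Q2E h0 hT hb hc Wb Wc h)

lemma up_P3E {v0 d0 : Pt} (h0 : d0 ∈ dirs) {T N : ℕ} (hT : 1 ≤ T) {a b c : ℤ} (ha : |a| < N) (hb : |b| < N)
    (hc : |c| < N) (Wa Wb Wc : Set Pt) :
    HexW.Up (fun n => P3E (trap v0 d0 T (n + N)) v0 d0 a Wa b Wb c Wc)
      (P3E (strip v0 d0 T) v0 d0 a Wa b Wb c Wc) :=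
  up_Q2E h0 hT ha hb Wa Wb (fun X => inc_BrE h0 hT hc Wc X)

lemma brE_le_one {T : ℕ} (hT : 1 ≤ T) (k : ℤ) (W X : Set Pt) : gf (BrE (St T) X (foot oo up k) up W) ≤ 1 :=
  (gf_BrE_le k W X).trans (BT_le_one hT)

lemma Q3E_strip_le {T : ℕ} (hT : 1 ≤ T) (a b c : ℤ) (Wa Wb Wc : Set Pt) {Q : Set Pt → Set (List Bool)}
    {k : ℝ≥0∞} (hQ : ∀ Z, gf (Q Z) ≤ k) (X : Set Pt) : Q3E (St T) oo up a Wa b Wb c Wc Q X ≤ k := by
  have e1 := fun Y => overE_le (Ω := St T) (v := foot oo up c) (d0 := up) (W := Wc) (F := fun Z => gf (Q Z)) hQ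
    (brE_le_one hT c Wc Y)
  have e2 := fun Y => overE_le (Ω := St T) (v := foot oo up b) (d0 := up) (W := Wb) e1 (brE_le_one hT b Wb Y)
  have e3 := overE_le (Ω := St T) (v := foot oo up a) (d0 := up) (W := Wa) e2 (brE_le_one hT a Wa X)
  rw [mul_one, mul_one, mul_one] at e3
  exact e3

lemma Q3E_ne_top {T : ℕ} (hT : 1 ≤ T) (a b c : ℤ) (Wa Wb Wc : Set Pt) {Q : Set Pt → Set (List Bool)}
    {k : ℝ≥0∞} (hk : k ≠ ∞) (hQ : ∀ Z, gf (Q Z) ≤ k) (X : Set Pt) : Q3E (St T) oo up a Wa b Wb c Wc Q X ≠ ∞ :=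
  ne_top_of_le_ne_top hk (Q3E_strip_le hT a b c Wa Wb Wc hQ X)

lemma br_le_one {T : ℕ} (hT : 1 ≤ T) (k : ℤ) (Z : Set Pt) : gf (Br (St T) Z (foot oo up k) up) ≤ 1 := by
  rw [← brE_univ]
  exact brE_le_one hT k Set.univ Z

lemma P3E_ne_top {T : ℕ} (hT : 1 ≤ T) (a b c : ℤ) (Wa Wb Wc : Set Pt) (X : Set Pt) :
    P3E (St T) oo up a Wa b Wb c Wc X ≠ ∞ :=
  Q2E_ne_top hT a b Wa Wb ENNReal.one_ne_top (fun Z => brE_le_one hT c Wc Z) X

lemma dnl_le {T : ℕ} (k : ℤ) (Z : Set Pt) : gf (DnL (St T) Z (foot oo up k) up) ≤ AT T :=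
  (gf_mono (fun _ ht => ht.1)).trans (HexW.gf_Dn_le HexW.up_mem k Z)

lemma dnr_le {T : ℕ} (k : ℤ) (Z : Set Pt) : gf (DnR (St T) Z (foot oo up k) up) ≤ AT T :=
  (gf_mono (fun _ ht => ht.1)).trans (HexW.gf_Dn_le HexW.up_mem k Z)

/-- the error terms with three walkers disappear. -/
lemma err3_tendsto {v0 d0 : Pt} (h0 : d0 ∈ dirs) {T N : ℕ} (hT : 1 ≤ T) {a b c k : ℤ} (ha : |a| < N)
    (hb : |b| < N) (hc : |c| < N) (hk : |k| < N) (Wa Wb Wc : Set Pt) :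
    Tendsto (fun n => Q3E (trap v0 d0 T (n + N)) v0 d0 a Wa b Wb c Wc
      (fun Z => Lat (trap v0 d0 T (n + N)) Z (foot v0 d0 k) d0) ∅) atTop (𝓝 0) := by
  have hN : ∀ {j : ℤ}, |j| < N → ∀ n : ℕ, |j| < ((n + N : ℕ) : ℤ) := by
    intro j hj n
    push_cast
    linarith
  have h1 : Tendsto (fun n => gf (HexW.Lat (trap v0 d0 T (n + N)) ∅ true (foot v0 d0 k) d0) +
      gf (HexW.Lat (trap v0 d0 T (n + N)) ∅ false (foot v0 d0 k) d0)) atTop (𝓝 (0 + 0)) :=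
    (HexW.lat_tendsto h0 hT hk true ∅).add (HexW.lat_tendsto h0 hT hk false ∅)
  rw [add_zero] at h1
  refine tendsto_of_tendsto_of_tendsto_of_le_of_le tendsto_const_nhds h1 (fun _ => zero_le) ?_
  intro n
  have hB : BT T ≤ 1 := BT_le_one hT
  have e0 : ∀ {j : ℤ}, |j| < N → ∀ W Y, gf (BrE (trap v0 d0 T (n + N)) Y (foot v0 d0 j) d0 W) ≤ 1 :=
    fun hj W Y => ((gf_mono brE_sub).trans (HexW.gf_Br_trap_le h0 hT (hN hj n) Y)).trans hB
  have e1 := fun Y => overE_le (Ω := trap v0 d0 T (n + N)) (v := foot v0 d0 c) (d0 := d0) (W := Wc)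
    (F := fun Z => gf (Lat (trap v0 d0 T (n + N)) Z (foot v0 d0 k) d0))
    (fun Z => HexW.latA_le h0 hT (hN hk n) Z) (e0 hc Wc Y)
  have e2 := fun Y => overE_le (Ω := trap v0 d0 T (n + N)) (v := foot v0 d0 b) (d0 := d0) (W := Wb) e1 (e0 hb Wb Y)
  have e3 := overE_le (Ω := trap v0 d0 T (n + N)) (v := foot v0 d0 a) (d0 := d0) (W := Wa) e2 (e0 ha Wa ∅)
  rw [mul_one, mul_one, mul_one] at e3
  exact e3

lemma limR {F : ℕ → Set Pt → ℝ≥0∞} {G : Set Pt → ℝ≥0∞} (h : HexW.Up F G) (hG : G ∅ ≠ ∞) :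
    Tendsto (fun n => (F n ∅).toReal) atTop (𝓝 (G ∅).toReal) :=
  (ENNReal.tendsto_toReal hG).comp (h.tendsto ∅)

lemma limE {u : ℕ → ℝ≥0∞} (h : Tendsto u atTop (𝓝 0)) : Tendsto (fun n => (u n).toReal) atTop (𝓝 0) := by
  have := (ENNReal.tendsto_toReal ENNReal.zero_ne_top).comp h
  rw [ENNReal.toReal_zero] at this
  exact this

lemma big (a b c : ℤ) : ∃ N : ℕ, |a| < N ∧ |b| < N ∧ |b + 1| < N ∧ |c| < N := by
  refine ⟨(|a| + |b| + |c| + 2).toNat, ?_⟩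
  have h1 := abs_nonneg a
  have h2 := abs_nonneg b
  have h3 := abs_nonneg c
  have h4 : |b + 1| ≤ |b| + 1 := (abs_add_le b 1).trans (by rw [abs_one])
  rw [Int.toNat_of_nonneg (by positivity)]
  refine ⟨?_, ?_, ?_, ?_⟩ <;> linarith

/-- FOUR EXPLORERS in the strip. -/
theorem I4_strip {T : ℕ} (hT : 1 ≤ T) (V W U : Set Pt) {a b c : ℤ} (hab : a < b) (hbc : b + 1 < c) :
    Real.sin (3 * Real.pi / 8) * (P3E (St T) oo up a V (b + 1) W c U ∅).toReal +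
      Real.sin (Real.pi / 8) * (P3E (St T) oo up a V b W (b + 1) U ∅).toReal +
      (Q3E (St T) oo up a V b W (b + 1) U
        (fun Z => DnR (St T) Z (foot oo up c) up) ∅).toReal / Real.sqrt 2 +
      Real.sin (Real.pi / 8) * (Q3E (St T) oo up b V (b + 1) W c U
        (fun Z => Br (St T) Z (foot oo up a) up) ∅).toReal +
      (Q3E (St T) oo up b V (b + 1) W c U (fun Z => DnR (St T) Z (foot oo up a) up) ∅).toReal ≤
    Real.sin (3 * Real.pi / 8) * (P3E (St T) oo up a V b W c U ∅).toReal +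
      Real.sin (3 * Real.pi / 8) * (Q3E (St T) oo up a V (b + 1) W c U
        (fun Z => Br (St T) Z (foot oo up b) up) ∅).toReal +
      Real.sin (Real.pi / 8) * (Q3E (St T) oo up a V b W (b + 1) U
        (fun Z => Br (St T) Z (foot oo up c) up) ∅).toReal +
      (Q3E (St T) oo up a V b W (b + 1) U (fun Z => DnL (St T) Z (foot oo up c) up) ∅).toReal +
      Real.sin (Real.pi / 8) * (P3E (St T) oo up b V (b + 1) W c U ∅).toReal +
      (Q3E (St T) oo up b V (b + 1) W c U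
        (fun Z => DnL (St T) Z (foot oo up a) up) ∅).toReal / Real.sqrt 2 := by
  have h0 := HexW.up_mem
  obtain ⟨N, ka, kb, kb1, kc⟩ := big a b c
  have hN' : ∀ {j : ℤ}, |j| < N → ∀ n : ℕ, |j| < ((n + N : ℕ) : ℤ) := by
    intro j hj n
    push_cast
    linarith
  have hA : AT T ≠ ∞ := AT_ne_top hT
  -- limits of the triples
  have l1 := limR (up_P3E (v0 := oo) h0 hT ka kb1 kc V W U) (P3E_ne_top hT _ _ _ _ _ _ _)
  have l2 := limR (up_P3E (v0 := oo) h0 hT ka kb kb1 V W U) (P3E_ne_top hT _ _ _ _ _ _ _)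
  have l3 := limR (up_Q3E (v0 := oo) h0 hT ka kb kb1 V W U (fun X => HexW.inc_DnR h0 hT kc X))
    (Q3E_ne_top hT _ _ _ _ _ _ hA (fun Z => dnr_le c Z) _)
  have l4 := limR (up_Q3E (v0 := oo) h0 hT kb kb1 kc V W U (fun X => HexW.inc_Br h0 hT ka X))
    (Q3E_ne_top hT _ _ _ _ _ _ ENNReal.one_ne_top (fun Z => br_le_one hT a Z) _)
  have l5 := limR (up_Q3E (v0 := oo) h0 hT kb kb1 kc V W U (fun X => HexW.inc_DnR h0 hT ka X))
    (Q3E_ne_top hT _ _ _ _ _ _ hA (fun Z => dnr_le a Z) _)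
  have r1 := limR (up_P3E (v0 := oo) h0 hT ka kb kc V W U) (P3E_ne_top hT _ _ _ _ _ _ _)
  have r2 := limR (up_Q3E (v0 := oo) h0 hT ka kb1 kc V W U (fun X => HexW.inc_Br h0 hT kb X))
    (Q3E_ne_top hT _ _ _ _ _ _ ENNReal.one_ne_top (fun Z => br_le_one hT b Z) _)
  have r3 := limR (up_Q3E (v0 := oo) h0 hT ka kb kb1 V W U (fun X => HexW.inc_Br h0 hT kc X))
    (Q3E_ne_top hT _ _ _ _ _ _ ENNReal.one_ne_top (fun Z => br_le_one hT c Z) _)
  have r4 := limR (up_Q3E (v0 := oo) h0 hT ka kb kb1 V W U (fun X => HexW.inc_DnL h0 hT kc X))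
    (Q3E_ne_top hT _ _ _ _ _ _ hA (fun Z => dnl_le c Z) _)
  have r5 := limR (up_P3E (v0 := oo) h0 hT kb kb1 kc V W U) (P3E_ne_top hT _ _ _ _ _ _ _)
  have r6 := limR (up_Q3E (v0 := oo) h0 hT kb kb1 kc V W U (fun X => HexW.inc_DnL h0 hT ka X))
    (Q3E_ne_top hT _ _ _ _ _ _ hA (fun Z => dnl_le a Z) _)
  have e1 := limE (err3_tendsto (v0 := oo) h0 hT kb kb1 kc ka V W U)
  have e2 := limE (err3_tendsto (v0 := oo) h0 hT ka kb1 kc kb V W U)
  have e3 := limE (err3_tendsto (v0 := oo) h0 hT ka kb kb1 kc V W U)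
  have hleft := ((((l1.const_mul (Real.sin (3 * Real.pi / 8))).add (l2.const_mul (Real.sin (Real.pi / 8)))).add
    (l3.div_const (Real.sqrt 2))).add (l4.const_mul (Real.sin (Real.pi / 8)))).add l5
  have hright := ((((((r1.const_mul (Real.sin (3 * Real.pi / 8))).add (r2.const_mul (Real.sin (3 * Real.pi / 8)))).add
    (r3.const_mul (Real.sin (Real.pi / 8)))).add r4).add (r5.const_mul (Real.sin (Real.pi / 8)))).add
    (r6.div_const (Real.sqrt 2))).add ((e1.add e2).add e3)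
  have hlim := le_of_tendsto_of_tendsto' hleft hright (by
    intro n
    have h := I4_fin (Ω := trapF (v0 := oo) h0 T (n + N)) (v0 := oo) (d0 := up) V W U hab hbc
      (HexW.trap_good_foot h0 hT (hN' ka n)) (HexW.trap_good_foot h0 hT (hN' kb n))
      (HexW.trap_good_foot h0 hT (hN' kb1 n)) (HexW.trap_good_foot h0 hT (hN' kc n))
    rw [trapF_coe] at h
    exact h)
  simp only [add_zero] at hlim
  exact hlim

/-- THREE EXPLORERS on the left in the strip. -/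
theorem I3_strip {T : ℕ} (hT : 1 ≤ T) (V W : Set Pt) {a b : ℤ} (hab : a < b) :
    Real.sin (Real.pi / 8) * (P2E (St T) oo up b V (b + 1) W ∅).toReal +
      (Q2E (St T) oo up b V (b + 1) W
        (fun Z => DnL (St T) Z (foot oo up a) up) ∅).toReal / Real.sqrt 2 +
      Real.sin (3 * Real.pi / 8) * (P2E (St T) oo up a V b W ∅).toReal ≤
    Real.sin (Real.pi / 8) * (Q2E (St T) oo up b V (b + 1) W
        (fun Z => Br (St T) Z (foot oo up a) up) ∅).toReal +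
      (Q2E (St T) oo up b V (b + 1) W (fun Z => DnR (St T) Z (foot oo up a) up) ∅).toReal +
      Real.sin (3 * Real.pi / 8) * (P2E (St T) oo up a V (b + 1) W ∅).toReal +
      Real.sin (3 * Real.pi / 8) * (Q2E (St T) oo up a V b W
        (fun Z => Br (St T) Z (foot oo up (b + 1)) up) ∅).toReal := by
  have h0 := HexW.up_mem
  obtain ⟨N, ka, kb, kb1, -⟩ := big a b b
  have hN' : ∀ {j : ℤ}, |j| < N → ∀ n : ℕ, |j| < ((n + N : ℕ) : ℤ) := by
    intro j hj n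
    push_cast
    linarith
  have hA : AT T ≠ ∞ := AT_ne_top hT
  have l1 := limR (up_P2E (v0 := oo) h0 hT kb kb1 V W) (P2E_ne_top hT _ _ _ _ _)
  have l2 := limR (up_Q2E (v0 := oo) h0 hT kb kb1 V W (fun X => HexW.inc_DnL h0 hT ka X))
    (Q2E_ne_top hT _ _ _ _ hA (fun Z => dnl_le a Z) _)
  have l3 := limR (up_P2E (v0 := oo) h0 hT ka kb V W) (P2E_ne_top hT _ _ _ _ _)
  have r1 := limR (up_Q2E (v0 := oo) h0 hT kb kb1 V W (fun X => HexW.inc_Br h0 hT ka X))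
    (Q2E_ne_top hT _ _ _ _ ENNReal.one_ne_top (fun Z => br_le_one hT a Z) _)
  have r2 := limR (up_Q2E (v0 := oo) h0 hT kb kb1 V W (fun X => HexW.inc_DnR h0 hT ka X))
    (Q2E_ne_top hT _ _ _ _ hA (fun Z => dnr_le a Z) _)
  have r3 := limR (up_P2E (v0 := oo) h0 hT ka kb1 V W) (P2E_ne_top hT _ _ _ _ _)
  have r4 := limR (up_Q2E (v0 := oo) h0 hT ka kb V W (fun X => HexW.inc_Br h0 hT kb1 X))
    (Q2E_ne_top hT _ _ _ _ ENNReal.one_ne_top (fun Z => br_le_one hT (b + 1) Z) _)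
  have e1 := limE (errE_tendsto (v0 := oo) h0 hT kb kb1 ka V W)
  have e2 := limE (errE_tendsto (v0 := oo) h0 hT ka kb kb1 V W)
  have hleft := ((l1.const_mul (Real.sin (Real.pi / 8))).add (l2.div_const (Real.sqrt 2))).add
    (l3.const_mul (Real.sin (3 * Real.pi / 8)))
  have hright := ((((r1.const_mul (Real.sin (Real.pi / 8))).add r2).add
    (r3.const_mul (Real.sin (3 * Real.pi / 8)))).add (r4.const_mul (Real.sin (3 * Real.pi / 8)))).add (e1.add e2)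
  have hlim := le_of_tendsto_of_tendsto' hleft hright (by
    intro n
    have h := I3_fin (Ω := trapF (v0 := oo) h0 T (n + N)) (v0 := oo) (d0 := up) V W hab
      (HexW.trap_good_foot h0 hT (hN' ka n)) (HexW.trap_good_foot h0 hT (hN' kb n))
      (HexW.trap_good_foot h0 hT (hN' kb1 n))
    rw [trapF_coe] at h
    exact h)
  simp only [add_zero] at hlim
  exact hlim

end Ex

end HexObs
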