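import Pool.Agent.HexPoly.Defs
import Pool.Agent.W47.Numbers

/-!
POLY: the numerical part of the upper bound for the polygons.
-/

set_option autoImplicit false

namespace HexObs

open Finset

namespace NumP

lemma sin_eq : Real.sin (3 * Real.pi / 8) = Real.cos (Real.pi / 8) := W47.sin3

/-- lower bound for the sum of the tails. -/
lemma tail_ge {T D : ℕ} (hT : 1 ≤ T) (hD : 2 * D ≤ T) :
    Real.sin (3 * Real.pi / 8) * ((Real.sqrt 2 - 1) ^ 3 * ∑ r ∈ range D, bT (2 * (r + 1))) ≤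
      (1 - 1 / Real.sqrt 2) * ∑ j ∈ range D, (tail T (j + 1)).toReal := by
  have hc := W47.cos8_pos
  have hs2 : 1 < Real.sqrt 2 := by
    rw [Real.lt_sqrt (by norm_num)]; norm_num
  have h1s : 0 < 1 - 1 / Real.sqrt 2 := by
    have : 1 / Real.sqrt 2 < 1 := by rw [div_lt_one (by linarith)]; exact hs2
    linarith
  have hB := ineqB hT D
  set S := ∑ r ∈ range D, (sc T (r + 1)).toReal with hS
  set V := ∑ r ∈ range D, bT (2 * (r + 1)) with hV
  set L := ∑ j ∈ range D, (tail T (j + 1)).toReal with hL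
  have h1 : V ≤ 2 * Real.cos (Real.pi / 8) * S := by
    rw [hV, hS, mul_sum]
    apply sum_le_sum
    intro r hr
    rw [mem_range] at hr
    exact triangle (by omega) (by omega)
  have h2 : (Real.sqrt 2 - 1) * V ≤ 2 * Real.cos (Real.pi / 8) * L := by
    calc (Real.sqrt 2 - 1) * V ≤ (Real.sqrt 2 - 1) * (2 * Real.cos (Real.pi / 8) * S) :=
          mul_le_mul_of_nonneg_left h1 (by linarith)
      _ = 2 * Real.cos (Real.pi / 8) * ((Real.sqrt 2 - 1) * S) := by ring
      _ ≤ 2 * Real.cos (Real.pi / 8) * L := mul_le_mul_of_nonneg_left hB (by positivity)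
  rw [sin_eq, ← W47.const_eq]
  have e : Real.cos (Real.pi / 8) * ((1 - 1 / Real.sqrt 2) * (Real.sqrt 2 - 1) /
      (2 * Real.cos (Real.pi / 8) ^ 2) * V) =
      (1 - 1 / Real.sqrt 2) * (((Real.sqrt 2 - 1) * V) / (2 * Real.cos (Real.pi / 8))) := by
    field_simp
  rw [e]
  apply mul_le_mul_of_nonneg_left _ h1s.le
  rw [div_le_iff₀ (by positivity)]
  linarith

end NumP

theorem num_poly {c : ℝ} (hc : 0 < c) (hrel : Ex.RelDecay c) (t r : ℕ → ℝ) (ht : ∀ T, 0 ≤ t T) (hr : ∀ T, 0 ≤ r T)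
    (H1 : ∀ T D : ℕ, 1 ≤ T → t T * ((1 - 1 / Real.sqrt 2) * ∑ j ∈ Finset.range D, (tail T (j + 1)).toReal +
      Real.sin (3 * Real.pi / 8) * (1 - D * bT T)) ≤
        Real.sin (3 * Real.pi / 8) * (bT T * (Pi2 T 1).toReal))
    (H2 : ∀ T D : ℕ, 1 ≤ T → r T * ((1 - 1 / Real.sqrt 2) * ∑ j ∈ Finset.range D, (tail T (j + 1)).toReal +
      Real.sin (3 * Real.pi / 8)) ≤ Real.sin (3 * Real.pi / 8) * t T) :
    ∃ C : ℝ, 0 < C ∧ ∀ T : ℕ, 1 ≤ T → r T ≤ C / (T : ℝ) ^ 3 := by
  wlog hc1 : c ≤ 1 generalizing c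
  · push Not at hc1
    refine this (c := 1) one_pos ?_ le_rfl
    intro T hT
    refine le_trans ?_ (hrel T hT)
    exact mul_le_mul_of_nonneg_right hc1.le (bT_nonneg T)
  have hs3 : 0 < Real.sin (3 * Real.pi / 8) := by
    rw [NumP.sin_eq]
    exact W47.cos8_pos
  have hk := k3_pos
  have hk1 : (Real.sqrt 2 - 1) ^ 3 ≤ 1 := by
    have h1 := sqrt2_lo
    have h2 := sqrt2_hi
    exact pow_le_one₀ (by linarith) (by linarith)
  have hTail := fun {T D : ℕ} (hT : 1 ≤ T) (hD : 2 * D ≤ T) => NumP.tail_ge hT hD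
  have hrd := fun {s T : ℕ} (hs : 1 ≤ s) (h : s ≤ T) =>
    Ex.rd_pow (b := bT) (fun _ h => bT_pos h) hc hc1 hrel hs T h
  have hVD := fun {D : ℕ} (hD : 1 ≤ D) => Ex.VT_ge hD
  have hpairs := fun {T : ℕ} (hT : 1 ≤ T) => pairs_real hT
  have hc29 := const1
  set κ := (Real.sqrt 2 - 1) ^ 3 with hκ
  set s3 := Real.sin (3 * Real.pi / 8) with hs3d
  set ε := (κ / 2) ^ (1 / c) with hε
  have hε0 : 0 < ε := by positivity
  have hε1 : ε ≤ 1 := Real.rpow_le_one (by positivity) (by linarith) (by positivity)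
  have hεc : ε ^ c = κ / 2 := by
    rw [hε, ← Real.rpow_mul (by positivity), one_div, inv_mul_cancel₀ hc.ne', Real.rpow_one]
  refine ⟨116 / (κ * ε), by positivity, ?_⟩
  intro T hT
  have hTp : (0 : ℝ) < T := by exact_mod_cast hT
  have hb := bT_pos hT
  have hb1 := bT_le_one hT
  -- the pairs
  have hPi : (Pi2 T 1).toReal * T ≤ 29 * bT T := by
    have h1 := hpairs hT
    have h2 : (Pi2 T 1).toReal * (T * bT T) ≤ 29 * bT T * bT T := by
      calc (Pi2 T 1).toReal * (T * bT T) ≤ (Pi2 T 1).toReal * uT T :=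
            mul_le_mul_of_nonneg_left mul_le_uT ENNReal.toReal_nonneg
        _ ≤ 2 * (Real.sqrt 2 + 1) ^ 3 * bT T ^ 2 := h1
        _ ≤ 29 * bT T ^ 2 := mul_le_mul_of_nonneg_right hc29 (by positivity)
        _ = 29 * bT T * bT T := by ring
    have h3 : ((Pi2 T 1).toReal * T) * bT T ≤ (29 * bT T) * bT T := by linarith
    exact le_of_mul_le_mul_right h3 hb
  -- the triples
  have htT : t T * (ε * T / 2) ≤ (Pi2 T 1).toReal := by
    set D := ⌊ε * T / 2⌋₊ with hD
    have hD1 : (D : ℝ) ≤ ε * T / 2 := Nat.floor_le (by positivity)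
    have hD2 : ε * T / 2 < D + 1 := Nat.lt_floor_add_one _
    have hDT : 2 * D ≤ T := by
      have : (2 * D : ℝ) ≤ T := by nlinarith
      exact_mod_cast this
    have h1 := H1 T D hT
    have h2 := hTail hT hDT
    set V := ∑ r ∈ range D, bT (2 * (r + 1)) with hV
    have h3 : 2 * (D * bT T) ≤ κ * V := by
      rcases Nat.eq_zero_or_pos D with h0 | hD0
      · have hV0 : V = 0 := by rw [hV, h0]; simp
        rw [hV0, h0]
        simp
      · have hDp : (0 : ℝ) < D := by exact_mod_cast hD0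
        have h4 := hrd (s := 2 * D) (T := T) (by omega) hDT
        have h5 : (D : ℝ) * bT (2 * D) ≤ V := hVD hD0
        have hb2 := bT_pos (T := 2 * D) (by omega)
        have h6 : ((2 * D : ℕ) : ℝ) ^ c ≤ κ / 2 * (T : ℝ) ^ c := by
          rw [← hεc, ← Real.mul_rpow hε0.le hTp.le]
          apply Real.rpow_le_rpow (by positivity) _ hc.le
          push_cast
          linarith
        have hTc : (0 : ℝ) < (T : ℝ) ^ c := by positivity
        have h7 : bT T * (T : ℝ) ^ c ≤ (bT (2 * D) * (κ / 2)) * (T : ℝ) ^ c := by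
          calc bT T * (T : ℝ) ^ c ≤ bT (2 * D) * ((2 * D : ℕ) : ℝ) ^ c := h4
            _ ≤ bT (2 * D) * (κ / 2 * (T : ℝ) ^ c) := mul_le_mul_of_nonneg_left h6 hb2.le
            _ = _ := by ring
        have h8 := le_of_mul_le_mul_right h7 hTc
        calc 2 * (D * bT T) ≤ 2 * (D * (bT (2 * D) * (κ / 2))) := by
              apply mul_le_mul_of_nonneg_left _ (by norm_num)
              exact mul_le_mul_of_nonneg_left h8 hDp.le
          _ = κ * (D * bT (2 * D)) := by ring
          _ ≤ κ * V := mul_le_mul_of_nonneg_left h5 hk.le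
    have h9 : ε * T / 2 * bT T ≤ κ * V + (1 - D * bT T) := by
      have h10 : ε * T / 2 * bT T ≤ (D + 1) * bT T := mul_le_mul_of_nonneg_right hD2.le hb.le
      linarith
    have h11 : s3 * (t T * (ε * T / 2) * bT T) ≤ s3 * (bT T * (Pi2 T 1).toReal) := by
      refine le_trans ?_ h1
      have h12 : s3 * (ε * T / 2 * bT T) ≤
          (1 - 1 / Real.sqrt 2) * ∑ j ∈ Finset.range D, (tail T (j + 1)).toReal + s3 * (1 - D * bT T) := by
        calc s3 * (ε * T / 2 * bT T) ≤ s3 * (κ * V + (1 - D * bT T)) :=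
              mul_le_mul_of_nonneg_left h9 hs3.le
          _ = s3 * (κ * V) + s3 * (1 - D * bT T) := by ring
          _ ≤ _ := by linarith
      calc s3 * (t T * (ε * T / 2) * bT T) = t T * (s3 * (ε * T / 2 * bT T)) := by ring
        _ ≤ _ := mul_le_mul_of_nonneg_left h12 (ht T)
    have h13 := le_of_mul_le_mul_left h11 hs3
    rw [mul_comm (bT T)] at h13
    exact le_of_mul_le_mul_right h13 hb
  -- the pairs with adjacent feet and adjacent tops
  have hrT : r T * (κ * (T * bT T) / 2) ≤ t T := by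
    have h1 := H2 T (T / 2) hT
    have h2 := hTail (D := T / 2) hT (by omega)
    have h3 := uT_le T
    have h4 := bT_le_one le_rfl
    have h5 : (T : ℝ) * bT T ≤ uT T := mul_le_uT
    set V := ∑ r ∈ range (T / 2), bT (2 * (r + 1)) with hV
    have h6 : κ * (T * bT T) / 2 ≤ κ * V + 1 := by
      have h7 : (T : ℝ) * bT T / 2 ≤ V + 1 := by linarith
      calc κ * (T * bT T) / 2 = κ * (T * bT T / 2) := by ring
        _ ≤ κ * (V + 1) := mul_le_mul_of_nonneg_left h7 hk.le
        _ ≤ κ * V + 1 := by linarith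
    have h8 : s3 * (r T * (κ * (T * bT T) / 2)) ≤ s3 * t T := by
      refine le_trans ?_ h1
      have h9 : s3 * (κ * (T * bT T) / 2) ≤
          (1 - 1 / Real.sqrt 2) * ∑ j ∈ Finset.range (T / 2), (tail T (j + 1)).toReal + s3 := by
        calc s3 * (κ * (T * bT T) / 2) ≤ s3 * (κ * V + 1) := mul_le_mul_of_nonneg_left h6 hs3.le
          _ = s3 * (κ * V) + s3 := by ring
          _ ≤ _ := by linarith
      calc s3 * (r T * (κ * (T * bT T) / 2)) = r T * (s3 * (κ * (T * bT T) / 2)) := by ring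
        _ ≤ _ := mul_le_mul_of_nonneg_left h9 (hr T)
    exact le_of_mul_le_mul_left h8 hs3
  -- together
  have h1 : r T * (κ * (T * bT T) / 2) * (ε * T / 2) * T ≤ 29 * bT T := by
    refine le_trans ?_ hPi
    apply mul_le_mul_of_nonneg_right _ hTp.le
    refine le_trans ?_ htT
    exact mul_le_mul_of_nonneg_right hrT (by positivity)
  have h2 : (r T * (κ * ε) * (T : ℝ) ^ 3) * bT T ≤ 116 * bT T := by
    have e : (r T * (κ * ε) * (T : ℝ) ^ 3) * bT T = 4 * (r T * (κ * (T * bT T) / 2) * (ε * T / 2) * T) := by ring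
    rw [e]
    linarith
  have h3 := le_of_mul_le_mul_right h2 hb
  rw [le_div_iff₀ (by positivity), le_div_iff₀ (by positivity)]
  calc r T * (T : ℝ) ^ 3 * (κ * ε) = r T * (κ * ε) * (T : ℝ) ^ 3 := by ring
    _ ≤ 116 := h3

end HexObs
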