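import Pool.Agent.W47.Bridge3
import Pool.Agent.PHW.Order

/-!
POLY, module P6: two disjoint crossings have the same order at both ends.
-/

set_option autoImplicit false

namespace HexObs

namespace CC

/-- the site and its level, in the coordinates of the planarity argument -/
private def ordl_f (q : ℤ × ℤ) : ℤ × ℤ := (q.1, if (q.1 + q.2) % 2 = 0 then 3 * q.2 else 3 * q.2 - 1)

private lemma ordl_even {q : ℤ × ℤ} (h : (q.1 + q.2) % 2 = 0) : ordl_f q = (q.1, 3 * q.2) := by
  unfold ordl_f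
  rw [if_pos h]

private lemma ordl_odd {q : ℤ × ℤ} (h : ¬ (q.1 + q.2) % 2 = 0) : ordl_f q = (q.1, 3 * q.2 - 1) := by
  unfold ordl_f
  rw [if_neg h]

private lemma ordl_inj {p q : ℤ × ℤ} (h : ordl_f p = ordl_f q) : p = q := by
  obtain ⟨x, y⟩ := p
  obtain ⟨z, w⟩ := q
  have h1 : x = z := congrArg Prod.fst h
  have h2 := congrArg Prod.snd h
  unfold ordl_f at h2
  simp only at h2
  subst h1
  ext
  · rfl
  · show y = w
    split_ifs at h2 <;> omega

private lemma ordl_adj1 {x y z w : ℤ} (h : z = x + 1 ∧ w = y) : Planar.Adj (ordl_f (x, y)) (ordl_f (z, w)) := by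
  obtain ⟨rfl, rfl⟩ := h
  by_cases he : (x + w) % 2 = 0
  · rw [ordl_even he, ordl_odd (by simp only; omega)]
    left
    refine ⟨?_, ?_, Or.inr (Or.inl ⟨rfl, ?_⟩)⟩ <;> simp only <;> omega
  · rw [ordl_odd he, ordl_even (by simp only; omega)]
    right
    refine ⟨?_, ?_, Or.inr (Or.inr ⟨?_, ?_⟩)⟩ <;> simp only <;> omega

private lemma ordl_adj2 {x y z w : ℤ} (h : z = x ∧ w = y + 1) (he : (x + y) % 2 = 0) :
    Planar.Adj (ordl_f (x, y)) (ordl_f (z, w)) := by
  obtain ⟨rfl, rfl⟩ := h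
  rw [ordl_even he, ordl_odd (by simp only; omega)]
  left
  refine ⟨?_, ?_, Or.inl ⟨rfl, ?_⟩⟩ <;> simp only <;> omega

private lemma ordl_symm {p q : ℤ × ℤ} (h : Planar.Adj p q) : Planar.Adj q p := h.symm

private lemma ordl_adj {p q : ℤ × ℤ} (h : Edge p q) : Planar.Adj (ordl_f p) (ordl_f q) := by
  obtain ⟨x, y⟩ := p
  obtain ⟨z, w⟩ := q
  unfold Edge at h
  simp only [Prod.mk.injEq, Int.even_iff] at h
  rcases h with h | h | h | h
  · exact ordl_adj1 h
  · exact ordl_symm (ordl_adj1 h)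
  · exact ordl_adj2 h.1 h.2
  · exact ordl_symm (ordl_adj2 h.1 h.2)

private lemma ordl_row {p : ℤ × ℤ} {T : ℕ} (h : 1 ≤ p.2 ∧ p.2 ≤ T) :
    0 < (ordl_f p).2 ∧ (ordl_f p).2 ≤ 3 * T := by
  unfold ordl_f
  simp only
  split_ifs <;> omega

private lemma ordl_mem {T : ℕ} {a b : ℤ} {L : List (ℤ × ℤ)} {i : ℕ} (h1 : 1 ≤ i) (h2 : i ≤ L.length) :
    gg T a b L i ∈ L := by
  obtain ⟨j, rfl⟩ : ∃ j, i = j + 1 := ⟨i - 1, by omega⟩
  rw [gg_succ (by omega)]
  exact List.getElem_mem _

theorem order_list {T : ℕ} (hT : 1 ≤ T) {a a' b b' : ℤ} {L M : List (ℤ × ℤ)} (hL : Crossing T a b L)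
    (hM : Crossing T a' b' M) (ha : Even a) (ha' : Even a') (hd : L.Disjoint M) : a < a' ↔ b < b' := by
  have hLp := crossing_pos hL
  have hMp := crossing_pos hM
  have e1 : ordl_f (a, 0) = (a, 0) := by
    rw [ordl_even (by rw [Int.even_iff] at ha; simp only; omega)]
    simp only [mul_zero]
  have e2 : ordl_f (a', 0) = (a', 0) := by
    rw [ordl_even (by rw [Int.even_iff] at ha'; simp only; omega)]
    simp only [mul_zero]
  have e3 : ordl_f (b, (T : ℤ)) = (b, 3 * (T : ℤ)) := by
    have := hL.2.2.2.2.2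
    rw [Int.even_iff] at this
    exact ordl_even this
  have e4 : ordl_f (b', (T : ℤ)) = (b', 3 * (T : ℤ)) := by
    have := hM.2.2.2.2.2
    rw [Int.even_iff] at this
    exact ordl_even this
  have key := Planar.order_abs (a := fun i => ordl_f (gg T a b L i)) (g := fun j => ordl_f (gg T a' b' M j))
    (n := L.length) (m := M.length) (H := 3 * (T : ℤ)) (by omega) (by omega)
    (fun i hi => ordl_adj (gg_edge ha hL i hi.le)) ?_ ?_ ?_
    (fun j hj => ordl_adj (gg_edge ha' hM j hj.le)) ?_ ?_ ?_ ?_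
  · simp only [gg_zero, gg_len hL, gg_len hM, e1, e2, e3, e4] at key
    exact key
  · simp only [gg_zero, e1]
  · simp only [gg_len hL, e3]
  · intro i h1 h2
    exact ordl_row (gg_row hL i h1 h2)
  · simp only [gg_zero, e2]
  · simp only [gg_len hM, e4]
  · intro j h1 h2
    exact ordl_row (gg_row hM j h1 h2)
  · intro i hi j hj heq
    have h0 : gg T a b L i = gg T a' b' M j := ordl_inj heq
    rcases Nat.eq_zero_or_pos i with i0 | i0
    · rcases Nat.eq_zero_or_pos j with j0 | j0
      · rw [i0, j0, gg_zero, gg_zero] at h0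
        have h1 : a = a' := congrArg Prod.fst h0
        have h2 : (a, (1 : ℤ)) ∈ L := by
          rw [← gg_first hL]
          exact ordl_mem le_rfl hLp
        have h3 : (a', (1 : ℤ)) ∈ M := by
          rw [← gg_first hM]
          exact ordl_mem le_rfl hMp
        rw [← h1] at h3
        exact hd h2 h3
      · have h1 := (gg_row hM j j0 hj).1
        rw [← h0, i0, gg_zero] at h1
        simp only at h1
        omega
    · rcases Nat.eq_zero_or_pos j with j0 | j0
      · have h1 := (gg_row hL i i0 hi).1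
        rw [h0, j0, gg_zero] at h1
        simp only at h1
        omega
      · have h1 : gg T a b L i ∈ L := ordl_mem i0 hi
        rw [h0] at h1
        exact hd h1 (ordl_mem j0 hj)

end CC

end HexObs
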