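import Pool.Agent.HexPoly.Defs
import Pool.Agent.W47.Bridge

/-!
POLY P5: the pairs of disjoint bridges with adjacent tops as pairs of lists of sites.
-/

set_option autoImplicit false

open ENNReal

namespace HexObs

namespace CC

open Ex

private lemma top_fst (T : ℕ) (b : ℤ) : (top T b).1 = b := rfl

/-- the sum over the end columns, as a sum over triples. -/
private lemma t2_sigma (T : ℕ) : Ex.t2 T 1 =
    ∑' p : (z : ℤ) × (s : BrE (St T) ∅ (foot oo up 0) up (col z)) ×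
      BrE (St T) (∅ ∪ vis (foot oo up 0) up s.1) (foot oo up 1) up (col (z + 2)),
        wE p.2.1.1 * wE p.2.2.1 := by
  rw [ENNReal.tsum_sigma']
  show pF T 0 1 (fun _ => 1) = _
  rw [pF_one]
  apply tsum_congr
  intro z
  rw [ENNReal.tsum_sigma']
  unfold P2E overE
  rw [← tsum_subtype (BrE (St T) ∅ (foot oo up 0) up (col z))
    (fun s => wE s * gf (BrE (St T) (∅ ∪ vis (foot oo up 0) up s) (foot oo up 1) up (col (z + 2))))]
  apply tsum_congr
  intro s
  show wE s.1 * gf (BrE (St T) (∅ ∪ vis (foot oo up 0) up s.1) (foot oo up 1) up (col (z + 2))) =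
    ∑' b : BrE (St T) (∅ ∪ vis (foot oo up 0) up s.1) (foot oo up 1) up (col (z + 2)), wE s.1 * wE b.1
  rw [ENNReal.tsum_mul_left]
  rfl

/-- the pairs of disjoint crossings from (0,1) and (2,1) with adjacent tops -/
theorem t2_eq {T : ℕ} (hT : 1 ≤ T) : Ex.t2 T 1 =
    ∑' P : {P : List (ℤ × ℤ) × List (ℤ × ℤ) //
      (∃ b, Crossing T 0 b P.1 ∧ Crossing T 2 (b + 2) P.2) ∧ P.1.Disjoint P.2}, wt P.1.1 * wt P.1.2 := by
  rw [t2_sigma]
  set f0 := foot oo up 0 with hf0
  set f1 := foot oo up 1 with hf1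
  have hl0 : lv f0 = 0 := by
    rw [hf0, foot_zero]
    exact lv_oo
  have hl1 : lv f1 = 0 := by
    rw [hf1, foot_one]
    rfl
  have ha0 : f0.1 = 0 := by
    rw [hf0, foot_zero]
    rfl
  have ha1 : f1.1 = 2 := by
    rw [hf1, foot_one]
  have hmap : ∀ p : (z : ℤ) × (s : BrE (St T) ∅ f0 up (col z)) ×
      BrE (St T) (∅ ∪ vis f0 up s.1) f1 up (col (z + 2)),
      (∃ b, Crossing T 0 b (toL f0 p.2.1.1) ∧ Crossing T 2 (b + 2) (toL f1 p.2.2.1)) ∧
        (toL f0 p.2.1.1).Disjoint (toL f1 p.2.2.1) := by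
    rintro ⟨z, ⟨s, hs⟩, ⟨t, ht⟩⟩
    simp only at ht ⊢
    obtain ⟨hs1, hs2⟩ := hs
    obtain ⟨ht1, ht2⟩ := ht
    rw [mem_br, Set.empty_union] at ht1
    rw [br_empty] at hs1
    obtain ⟨ht1, ht3⟩ := ht1
    rw [br_empty] at ht1
    obtain ⟨b, h1, h1'⟩ := crossing_toL hT hl0 hs1
    obtain ⟨c, h2, h2'⟩ := crossing_toL hT hl1 ht1
    rw [ha0] at h1
    rw [ha1] at h2
    have e1 : b = z := by
      have h : (tip f0 up s).1 = z := hs2
      rw [h1'] at h
      exact h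
    have e2 : c = z + 2 := by
      have h : (tip f1 up t).1 = z + 2 := ht2
      rw [h2'] at h
      exact h
    refine ⟨⟨z, ?_, ?_⟩, (disjoint_iff hl0 hl1 s t).2 ht3⟩
    · rw [← e1]
      exact h1
    · rw [← e2]
      exact h2
  let F : ((z : ℤ) × (s : BrE (St T) ∅ f0 up (col z)) ×
      BrE (St T) (∅ ∪ vis f0 up s.1) f1 up (col (z + 2))) →
      {P : List (ℤ × ℤ) × List (ℤ × ℤ) //
        (∃ b, Crossing T 0 b P.1 ∧ Crossing T 2 (b + 2) P.2) ∧ P.1.Disjoint P.2} :=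
    fun p => ⟨(toL f0 p.2.1.1, toL f1 p.2.2.1), hmap p⟩
  have hF : Function.Bijective F := by
    constructor
    · rintro ⟨z, ⟨s, hs⟩, ⟨t, ht⟩⟩ ⟨z', ⟨s', hs'⟩, ⟨t', ht'⟩⟩ h
      have h1' : toL f0 s = toL f0 s' := congrArg (fun x => x.1.1) h
      have h2' : toL f1 t = toL f1 t' := congrArg (fun x => x.1.2) h
      have e1 : s = s' := by
        have g1 := hs.1
        have g2 := hs'.1
        rw [br_empty] at g1 g2
        exact toL_inj hl0 g1 g2 h1'
      subst e1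
      have e2 : t = t' := by
        have h3 := (mem_br.1 ht.1).1
        have h4 := (mem_br.1 ht'.1).1
        rw [br_empty] at h3 h4
        exact toL_inj hl1 h3 h4 h2'
      subst e2
      have e3 : z = z' := by
        have g1 : (tip f0 up s).1 = z := hs.2
        have g2 : (tip f0 up s).1 = z' := hs'.2
        rw [← g1, ← g2]
      subst e3
      rfl
    · rintro ⟨⟨L, M⟩, ⟨b, hL, hM⟩, hd⟩
      simp only at hL hM hd
      obtain ⟨h1, h2, h5⟩ := toW_spec (v0 := f0) (by decide) hl0 ha0 hL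
      obtain ⟨h3, h4, h6⟩ := toW_spec (v0 := f1) (by decide) hl1 ha1 hM
      have hd' : Disjoint (vis f0 up (toW T 0 b L)) (vis f1 up (toW T 2 (b + 2) M)) := by
        rw [← disjoint_iff hl0 hl1, h2, h4]
        exact hd
      refine ⟨⟨b, ⟨toW T 0 b L, ?_, ?_⟩, ⟨toW T 2 (b + 2) M, ?_, ?_⟩⟩, ?_⟩
      · rw [br_empty]
        exact h1
      · show (tip f0 up (toW T 0 b L)).1 = b
        rw [h5, top_fst]
      · rw [mem_br, Set.empty_union, br_empty]
        exact ⟨h3, hd'⟩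
      · show (tip f1 up (toW T 2 (b + 2) M)).1 = b + 2
        rw [h6, top_fst]
      · apply Subtype.ext
        show (toL f0 (toW T 0 b L), toL f1 (toW T 2 (b + 2) M)) = (L, M)
        rw [h2, h4]
  rw [← (Equiv.ofBijective F hF).tsum_eq]
  apply tsum_congr
  rintro ⟨z, ⟨s, hs⟩, ⟨t, ht⟩⟩
  show wE s * wE t = wt (toL f0 s) * wt (toL f1 t)
  rw [wt_toL, wt_toL]

end CC

end HexObs
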