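import Pool.Agent.HexPoly.LoopDefs
import Pool.Agent.HexPoly.OrderL
import Pool.Agent.W47.Bridge

/-!
POLY, module P7: a polygon gives a pair of disjoint crossings with adjacent feet and adjacent tops.
-/

set_option autoImplicit false

open ENNReal

namespace HexObs

namespace CC

namespace PolCutAux

lemma edge_symm {p q : ℤ × ℤ} (h : Edge p q) : Edge q p := by
  unfold Edge at h ⊢
  rcases h with h | h | ⟨h, h2⟩ | ⟨h, h2⟩
  · exact Or.inr (Or.inl h)
  · exact Or.inl h
  · exact Or.inr (Or.inr (Or.inr ⟨h, h2⟩))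
  · exact Or.inr (Or.inr (Or.inl ⟨h, h2⟩))

/-- neighbours below a given row -/
lemma nb {T : ℤ} {x : ℤ} {c : ℤ × ℤ} (hc : c.2 ≤ T) (h : Edge (x, T) c) :
    c = (x + 1, T) ∨ c = (x - 1, T) ∨ (c = (x, T - 1) ∧ ¬ Even (x + T)) := by
  obtain ⟨u, v⟩ := c
  unfold Edge at h
  simp only [Prod.mk.injEq, Int.even_iff] at h hc ⊢
  omega

/-- neighbours of a site of the top row that is joined to the next row -/
lemma nb_top {T : ℤ} {x : ℤ} {c : ℤ × ℤ} (he : Even (x + T)) (hc : c.2 ≤ T) (h : Edge (x, T) c) :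
    c = (x + 1, T) ∨ c = (x - 1, T) := by
  rcases nb hc h with h1 | h1 | ⟨_, h1⟩
  · exact Or.inl h1
  · exact Or.inr h1
  · exact absurd he h1

/-- splitting at an inner site -/
lemma split {T : ℕ} (hT : 2 ≤ T) {L : List (ℤ × ℤ)} (hL : PolC T L) {x : ℤ} (hx : (x, (T : ℤ)) ∈ L) :
    ∃ (A B : List (ℤ × ℤ)) (c' c : ℤ × ℤ), L = A ++ [c'] ++ (x, (T : ℤ)) :: c :: B := by
  obtain ⟨h1, h2, h3, ⟨M, hM⟩, h5, h6, h7⟩ := hL
  obtain ⟨s, t, hst⟩ := List.append_of_mem hx
  rcases List.eq_nil_or_concat s with hs | ⟨A, c', hs⟩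
  · exfalso
    rw [hs, List.nil_append, hM, List.cons.injEq] at hst
    have := congrArg Prod.snd hst.1
    simp only at this
    omega
  · rcases t with _ | ⟨c, B⟩
    · exfalso
      rw [hst, List.getLast?_append, List.getLast?_singleton, Option.some_or, Option.some.injEq] at h5
      have := congrArg Prod.snd h5
      simp only at this
      omega
    · refine ⟨A, B, c', c, ?_⟩
      rw [hst, hs, List.concat_eq_append]

lemma facts {T : ℕ} {L : List (ℤ × ℤ)} (hL : PolC T L) {w : ℤ × ℤ} {A B : List (ℤ × ℤ)} {c' c : ℤ × ℤ}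
    (h : L = A ++ [c'] ++ w :: c :: B) :
    (A ++ [c']).IsChain Edge ∧ Edge c' w ∧ Edge w c ∧ (c :: B).IsChain Edge ∧ c' ≠ c ∧
      (A ++ [c']).Disjoint (c :: B) ∧ w ∉ A ++ [c'] ∧ w ∉ c :: B ∧ (A ++ [c']).Nodup ∧ (c :: B).Nodup := by
  obtain ⟨h1, h2, h3, ⟨M, hM⟩, h5, h6, h7⟩ := hL
  rw [h] at h1 h2
  rw [List.isChain_append] at h1
  obtain ⟨k1, k2, k3⟩ := h1
  rw [List.isChain_cons_cons] at k2
  obtain ⟨n1, n2, n3⟩ := List.nodup_append.1 h2
  rw [List.nodup_cons] at n2
  refine ⟨k1, ?_, k2.1, k2.2, ?_, ?_, ?_, n2.1, n1, n2.2⟩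
  · apply k3
    · rw [List.getLast?_append, List.getLast?_singleton, Option.some_or]
      rfl
    · rfl
  · intro hcc
    exact n3 c' (List.mem_append_right _ (List.mem_singleton_self _)) c
      (List.mem_cons_of_mem _ List.mem_cons_self) hcc
  · intro p hp hp'
    exact n3 p hp p (List.mem_cons_of_mem _ hp') rfl
  · intro hp
    exact n3 w hp w List.mem_cons_self rfl

/-- some site of the top row is joined to the next row -/
lemma exists_top {T : ℕ} (hT : 2 ≤ T) {L : List (ℤ × ℤ)} (hL : PolC T L) :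
    ∃ x : ℤ, (x, (T : ℤ)) ∈ L ∧ Even (x + T) := by
  obtain ⟨x, hx⟩ := hL.2.2.2.2.2.1
  by_cases he : Even (x + T)
  · exact ⟨x, hx, he⟩
  obtain ⟨A, B, c', c, h⟩ := split hT hL hx
  obtain ⟨_, e1, e2, _, hne, _⟩ := facts hL h
  have mc' : c' ∈ L := by
    rw [h]
    exact List.mem_append_left _ (List.mem_append_right _ (List.mem_singleton_self _))
  have mc : c ∈ L := by
    rw [h]
    exact List.mem_append_right _ (List.mem_cons_of_mem _ List.mem_cons_self)
  have b' := nb (hL.2.2.1 c' mc').2 (edge_symm e1)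
  have b := nb (hL.2.2.1 c mc).2 e2
  rw [Int.not_even_iff_odd] at he
  rcases b' with b' | b' | ⟨b', _⟩
  · refine ⟨x + 1, b' ▸ mc', ?_⟩
    rw [Int.odd_iff] at he
    rw [Int.even_iff]
    omega
  · refine ⟨x - 1, b' ▸ mc', ?_⟩
    rw [Int.odd_iff] at he
    rw [Int.even_iff]
    omega
  · rcases b with b | b | ⟨b, _⟩
    · refine ⟨x + 1, b ▸ mc, ?_⟩
      rw [Int.odd_iff] at he
      rw [Int.even_iff]
      omega
    · refine ⟨x - 1, b ▸ mc, ?_⟩
      rw [Int.odd_iff] at he
      rw [Int.even_iff]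
      omega
    · exact absurd (b'.trans b.symm) hne

/-- the rightmost one -/
lemma exists_right {T : ℕ} (hT : 2 ≤ T) {L : List (ℤ × ℤ)} (hL : PolC T L) :
    ∃ b : ℤ, (b, (T : ℤ)) ∈ L ∧ Even (b + T) ∧ ∀ x : ℤ, (x, (T : ℤ)) ∈ L → Even (x + T) → x ≤ b := by
  classical
  obtain ⟨x, hx, he⟩ := exists_top hT hL
  have hne : (L.toFinset.filter (fun p : ℤ × ℤ => p.2 = T ∧ Even (p.1 + T))).Nonempty :=
    ⟨(x, (T : ℤ)), by
      rw [Finset.mem_filter, List.mem_toFinset]
      exact ⟨hx, rfl, he⟩⟩
  obtain ⟨p, hp, hmax⟩ := Finset.exists_max_image _ Prod.fst hne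
  rw [Finset.mem_filter, List.mem_toFinset] at hp
  obtain ⟨hp1, hp2, hp3⟩ := hp
  refine ⟨p.1, ?_, hp3, ?_⟩
  · have : p = (p.1, (T : ℤ)) := Prod.ext rfl hp2
    rw [← this]
    exact hp1
  · intro y hy hey
    exact hmax (y, (T : ℤ)) (by
      rw [Finset.mem_filter, List.mem_toFinset]
      exact ⟨hy, rfl, hey⟩)

/-- the surgery -/
lemma surg {T : ℕ} (hT : 2 ≤ T) {L : List (ℤ × ℤ)} (hL : PolC T L) :
    ∃ P : List (ℤ × ℤ) × List (ℤ × ℤ),
      ((∃ b, Crossing T 0 b P.1 ∧ Crossing T 2 (b + 2) P.2) ∧ P.1.Disjoint P.2) ∧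
        P.1 ++ (P.2.tail.dropLast).reverse = L ∧ L.length + 2 = P.1.length + P.2.length := by
  obtain ⟨b, hb, heb, hmax⟩ := exists_right hT hL
  obtain ⟨A, B, c', c, h⟩ := split hT hL hb
  obtain ⟨ch1, e1, e2, ch2, hne, hdis, hw1, hw2, nd1, nd2⟩ := facts hL h
  obtain ⟨h1, h2, h3, ⟨M, hM⟩, h5, h6, h7⟩ := hL
  have mA : ∀ p ∈ A ++ [c'], p ∈ L := fun p hp => by
    rw [h]
    exact List.mem_append_left _ hp
  have mB : ∀ p ∈ c :: B, p ∈ L := fun p hp => by
    rw [h]
    exact List.mem_append_right _ (List.mem_cons_of_mem _ hp)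
  have mc' : c' ∈ L := mA c' (List.mem_append_right _ (List.mem_singleton_self _))
  have mc : c ∈ L := mB c List.mem_cons_self
  have b1 := nb_top heb (h3 c' mc').2 (edge_symm e1)
  have b2 := nb_top heb (h3 c mc).2 e2
  have hr : (b + 2, (T : ℤ)) ∉ L := by
    intro hmem
    have := hmax (b + 2) hmem (by
      rw [Int.even_iff] at heb ⊢
      omega)
    omega
  have hf : ((2 : ℤ), (1 : ℤ)) ∉ L := by
    have := h7 1 le_rfl
    rwa [mul_one] at this
  have hbr : ((2 : ℤ), (1 : ℤ)) ≠ (b + 2, (T : ℤ)) := by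
    intro hh
    have := congrArg Prod.snd hh
    simp only at this
    omega
  have hbw : ((2 : ℤ), (1 : ℤ)) ≠ (b, (T : ℤ)) := by
    intro hh
    have := congrArg Prod.snd hh
    simp only at this
    omega
  have hhead : (A ++ [c']).head? = some (0, 1) := by
    have hh : L.head? = some (0, 1) := by
      rw [hM]
      rfl
    rw [h, List.head?_append] at hh
    rcases A with _ | ⟨a, A⟩
    · exact hh
    · exact hh
  have hlast : (c :: B).getLast? = some (1, 1) := by
    rw [h, List.getLast?_append, List.getLast?_cons_cons] at h5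
    rw [List.getLast?_cons] at h5 ⊢
    exact h5
  have hrows1 : ∀ p ∈ A ++ [c'], 1 ≤ p.2 ∧ p.2 ≤ T := fun p hp => h3 p (mA p hp)
  have hrows2 : ∀ p ∈ c :: B, 1 ≤ p.2 ∧ p.2 ≤ T := fun p hp => h3 p (mB p hp)
  -- the first walk, with either end
  have cr1 : ∀ q : ℤ, Edge c' (q, (T : ℤ)) → (q, (T : ℤ)) ∉ A ++ [c'] → Even (q + T) →
      Crossing T 0 q (A ++ [c'] ++ [(q, (T : ℤ))]) := by
    intro q hq hq2 hq3
    refine ⟨?_, ?_, ?_, ?_, ?_, hq3⟩
    · rw [List.isChain_append]
      refine ⟨ch1, List.isChain_singleton _, ?_⟩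
      intro x hx y hy
      rw [List.getLast?_append, List.getLast?_singleton, Option.some_or, Option.mem_def,
        Option.some.injEq] at hx
      rw [List.head?_cons, Option.mem_def, Option.some.injEq] at hy
      rw [← hx, ← hy]
      exact hq
    · rw [List.nodup_append]
      refine ⟨nd1, List.nodup_singleton _, ?_⟩
      intro x hx y hy hxy
      rw [List.mem_singleton] at hy
      rw [hxy, hy] at hx
      exact hq2 hx
    · intro p hp
      rw [List.mem_append, List.mem_singleton] at hp
      rcases hp with hp | rfl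
      · exact hrows1 p hp
      · exact ⟨by simp only; omega, le_rfl⟩
    · rw [List.head?_append, hhead]
      rfl
    · rw [List.getLast?_append, List.getLast?_singleton, Option.some_or]
  have cr2 : ∀ q : ℤ, Edge c (q, (T : ℤ)) → (q, (T : ℤ)) ∉ c :: B → Even (q + T) → (2, 1) ≠ (q, (T : ℤ)) →
      Crossing T 2 q ((2, 1) :: ((c :: B).reverse ++ [(q, (T : ℤ))])) := by
    intro q hq hq2 hq3 hq4
    refine ⟨?_, ?_, ?_, rfl, ?_, hq3⟩
    · have hch : ((c :: B).reverse ++ [(q, (T : ℤ))]).IsChain Edge := by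
        rw [List.isChain_append]
        refine ⟨?_, List.isChain_singleton _, ?_⟩
        · rw [List.isChain_reverse]
          exact ch2.imp (fun {p q} hpq => edge_symm hpq)
        · intro x hx y hy
          rw [List.getLast?_reverse, List.head?_cons, Option.mem_def, Option.some.injEq] at hx
          rw [List.head?_cons, Option.mem_def, Option.some.injEq] at hy
          rw [← hx, ← hy]
          exact hq
      rw [List.isChain_cons]
      refine ⟨?_, hch⟩
      intro y hy
      rw [List.head?_append, List.head?_reverse, hlast, Option.some_or, Option.mem_def,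
        Option.some.injEq] at hy
      rw [← hy]
      right; left
      rfl
    · rw [List.nodup_cons]
      refine ⟨?_, ?_⟩
      · rw [List.mem_append, List.mem_reverse, List.mem_singleton]
        rintro (hh | hh)
        · exact hf (mB _ hh)
        · exact hq4 hh
      · rw [List.nodup_append]
        refine ⟨List.nodup_reverse.2 nd2, List.nodup_singleton _, ?_⟩
        intro x hx y hy hxy
        rw [List.mem_singleton] at hy
        rw [hxy, hy, List.mem_reverse] at hx
        exact hq2 hx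
    · intro p hp
      rw [List.mem_cons, List.mem_append, List.mem_reverse, List.mem_singleton] at hp
      rcases hp with rfl | hp | rfl
      · exact ⟨le_rfl, by simp only; omega⟩
      · exact hrows2 p hp
      · exact ⟨by simp only; omega, le_rfl⟩
    · rw [← List.cons_append, List.getLast?_append, List.getLast?_singleton, Option.some_or]
  have hb2 : Even (b + 2 + T) := by
    rw [Int.even_iff] at heb ⊢
    omega
  have hcase : c' = (b - 1, (T : ℤ)) ∧ c = (b + 1, (T : ℤ)) := by
    rcases b1 with b1 | b1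
    · exfalso
      rcases b2 with b2 | b2
      · exact hne (b1.trans b2.symm)
      · -- crossing paths
        have k1 := cr1 (b + 2) (by
          rw [b1]
          left
          ext
          · simp only; ring
          · rfl) (fun hh => hr (mA _ hh)) hb2
        have k2 := cr2 b (edge_symm e2) hw2 heb hbw
        have kd : (A ++ [c'] ++ [(b + 2, (T : ℤ))]).Disjoint
            ((2, 1) :: ((c :: B).reverse ++ [(b, (T : ℤ))])) := by
          intro p hp hp'
          rw [List.mem_append, List.mem_singleton] at hp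
          rw [List.mem_cons, List.mem_append, List.mem_reverse, List.mem_singleton] at hp'
          rcases hp with hp | rfl
          · rcases hp' with rfl | hp' | rfl
            · exact hf (mA _ hp)
            · exact hdis hp hp'
            · exact hw1 hp
          · rcases hp' with hp' | hp' | hp'
            · exact hbr hp'.symm
            · exact hr (mB _ hp')
            · have := congrArg Prod.fst hp'
              simp only at this
              omega
        have := (order_list (by omega) k1 k2 (by decide) (by decide) kd).1 (by norm_num)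
        omega
    · rcases b2 with b2 | b2
      · exact ⟨b1, b2⟩
      · exact absurd (b1.trans b2.symm) hne
  obtain ⟨hc', hc⟩ := hcase
  refine ⟨(A ++ [c'] ++ [(b, (T : ℤ))], (2, 1) :: ((c :: B).reverse ++ [(b + 2, (T : ℤ))])),
    ⟨⟨b, cr1 b e1 hw1 heb, cr2 (b + 2) ?_ (fun hh => hr (mB _ hh)) hb2 hbr⟩, ?_⟩, ?_, ?_⟩
  · rw [hc]
    left
    ext
    · simp only; ring
    · rfl
  · intro p hp hp'
    simp only at hp hp'
    rw [List.mem_append, List.mem_singleton] at hp
    rw [List.mem_cons, List.mem_append, List.mem_reverse, List.mem_singleton] at hp'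
    rcases hp with hp | rfl
    · rcases hp' with rfl | hp' | rfl
      · exact hf (mA _ hp)
      · exact hdis hp hp'
      · exact hr (mA _ hp)
    · rcases hp' with hp' | hp' | hp'
      · exact hbw hp'.symm
      · exact hw2 hp'
      · have := congrArg Prod.fst hp'
        simp only at this
        omega
  · simp only [List.tail_cons]
    rw [List.dropLast_concat, List.reverse_reverse, h]
    simp only [List.append_assoc, List.cons_append, List.nil_append]
  · rw [h]
    simp only [List.length_append, List.length_cons, List.length_reverse, List.length_nil]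
    omega

/-- a walk in a single row does not come back -/
lemma row_one : ∀ (M : List (ℤ × ℤ)) (a : ℤ), (((a, 1) : ℤ × ℤ) :: (a - 1, 1) :: M).IsChain Edge →
    (((a, 1) : ℤ × ℤ) :: (a - 1, 1) :: M).Nodup → (∀ p ∈ M, p.2 = 1) →
    ∀ p ∈ (((a, 1) : ℤ × ℤ) :: (a - 1, 1) :: M).getLast?, p.1 < a := by
  intro M
  induction M with
  | nil =>
    intro a _ _ _ p hp
    rw [List.getLast?_cons_cons, List.getLast?_singleton, Option.mem_def, Option.some.injEq] at hp
    rw [← hp]
    simp only
    omega
  | cons c M ih =>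
    intro a hch hnd hrow p hp
    obtain ⟨u, v⟩ := c
    have hv : v = 1 := hrow (u, v) List.mem_cons_self
    subst hv
    have hch2 := (List.isChain_cons_cons.1 hch).2
    have hE := (List.isChain_cons_cons.1 hch2).1
    have hu : u = a - 1 - 1 := by
      have hne : (a, (1 : ℤ)) ≠ (u, 1) := by
        intro hh
        rw [List.nodup_cons] at hnd
        apply hnd.1
        rw [hh]
        exact List.mem_cons_of_mem _ List.mem_cons_self
      have hne2 : a ≠ u := fun hh => hne (by rw [hh])
      unfold Edge at hE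
      simp only [Prod.mk.injEq] at hE
      omega
    subst hu
    have := ih (a - 1) hch2 (List.nodup_cons.1 hnd).2 (fun p hp => hrow p (List.mem_cons_of_mem _ hp)) p (by
      rw [List.getLast?_cons_cons] at hp
      exact hp)
    omega

lemma polC_one {L : List (ℤ × ℤ)} (hL : PolC 1 L) : False := by
  obtain ⟨h1, h2, h3, ⟨M, hM⟩, h5, h6, h7⟩ := hL
  rw [hM] at h1 h2 h3 h5
  have := row_one M 0 (by simpa using h1) (by simpa using h2) (fun p hp => by
    have := h3 p (List.mem_cons_of_mem _ (List.mem_cons_of_mem _ hp))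
    push_cast at this
    omega) (1, 1) (by simpa using h5)
  simp only at this
  omega

lemma wt_surg {L M N : List (ℤ × ℤ)} (h : L.length + 2 = M.length + N.length) :
    wt L = ENNReal.ofReal (2 + Real.sqrt 2) * (wt M * wt N) := by
  unfold wt
  have h0 : (0 : ℝ) ≤ 2 + Real.sqrt 2 := by positivity
  have hx : (0 : ℝ) ≤ (Real.sqrt (2 + Real.sqrt 2))⁻¹ := by positivity
  rw [← ENNReal.ofReal_mul (by positivity), ← ENNReal.ofReal_mul h0, ← pow_add, ← h, pow_add]
  congr 1
  have e : (Real.sqrt (2 + Real.sqrt 2))⁻¹ ^ 2 = (2 + Real.sqrt 2)⁻¹ := by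
    rw [inv_pow, Real.sq_sqrt h0]
  rw [e]
  have : (2 + Real.sqrt 2) ≠ 0 := by positivity
  field_simp

end PolCutAux

open PolCutAux in
theorem pol_le {T : ℕ} (hT : 1 ≤ T) : ∑' L : {L // PolC T L}, wt L ≤
    ENNReal.ofReal (2 + Real.sqrt 2) * ∑' P : {P : List (ℤ × ℤ) × List (ℤ × ℤ) //
      (∃ b, Crossing T 0 b P.1 ∧ Crossing T 2 (b + 2) P.2) ∧ P.1.Disjoint P.2}, wt P.1.1 * wt P.1.2 := by
  rcases Nat.lt_or_ge T 2 with h2 | h2
  · obtain rfl : T = 1 := by omega
    have : IsEmpty {L // PolC 1 L} := ⟨fun L => polC_one L.2⟩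
    rw [tsum_empty]
    exact zero_le
  · choose F hF1 hF2 hF3 using fun L : {L // PolC T L} => surg h2 L.2
    have e : ∀ L : {L // PolC T L}, wt L = ENNReal.ofReal (2 + Real.sqrt 2) *
        (wt (F L).1 * wt (F L).2) := fun L => wt_surg (hF3 L)
    rw [tsum_congr e, ENNReal.tsum_mul_left]
    apply mul_le_mul_right
    have hinj : Function.Injective (fun L : {L // PolC T L} =>
        (⟨F L, hF1 L⟩ : {P : List (ℤ × ℤ) × List (ℤ × ℤ) //
          (∃ b, Crossing T 0 b P.1 ∧ Crossing T 2 (b + 2) P.2) ∧ P.1.Disjoint P.2})) := by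
      intro L M hLM
      have h3 : F L = F M := congrArg Subtype.val hLM
      apply Subtype.ext
      rw [← hF2 L, ← hF2 M, h3]
    exact ENNReal.tsum_comp_le_tsum_of_injective hinj (fun P => wt P.1.1 * wt P.1.2)

end CC

end HexObs
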