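import Pool.Agent.HexPoly.Rho
import Pool.Agent.HexPoly.Pairs
import Pool.Agent.HexPoly.PolCut

/-!
POLY: the polygons that occupy T rows weigh at most C / T ^ 3.
-/

set_option autoImplicit false

open ENNReal

namespace HexObs

namespace CC

/-- **polygons with T rows** -/
theorem pol_bound : ∃ C : ℝ, 0 < C ∧ ∀ T : ℕ, 1 ≤ T →
    ∑' L : {L // PolC T L}, wt L ≤ ENNReal.ofReal (C / (T : ℝ) ^ 3) := by
  obtain ⟨C, hC, h⟩ := Ex.rho_le
  refine ⟨(2 + Real.sqrt 2) * C, by positivity, fun T hT => ?_⟩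
  refine (pol_le hT).trans ?_
  rw [← t2_eq hT, mul_div_assoc, ENNReal.ofReal_mul (by positivity)]
  gcongr
  rw [← ENNReal.ofReal_toReal (Ex.t2_one_ne_top hT)]
  exact ENNReal.ofReal_le_ofReal (h T hT)

end CC

end HexObs
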