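import Pool.Agent.HexPoly.StarR
import Pool.Agent.HexPoly.NumP
import Pool.Agent.HexSPR.Final

/-!
POLY: pairs of disjoint bridges with adjacent feet and adjacent tops weigh at most C / T ^ 3.
-/

set_option autoImplicit false

namespace HexObs

namespace Ex

/-- **two-ended decoupling** -/
theorem rho_le : ∃ C : ℝ, 0 < C ∧ ∀ T : ℕ, 1 ≤ T → (t2 T 1).toReal ≤ C / (T : ℝ) ^ 3 := by
  obtain ⟨c, hc, hrel⟩ := relDecay
  exact num_poly hc hrel (fun T => (T3s T).toReal) (fun T => (t2 T 1).toReal)
    (fun _ => ENNReal.toReal_nonneg) (fun _ => ENNReal.toReal_nonneg)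
    (fun T D hT => starI hT D) (fun T D hT => starII hT D)

end Ex

end HexObs
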