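import Pool.Agent.HexPoly.LoopDefs

/-!
POLY, module P8: the canonical root of a polygon.
-/

set_option autoImplicit false

namespace HexObs

namespace CC

namespace RootAux

lemma edge_symm {p q : ℤ × ℤ} (h : Edge p q) : Edge q p := by
  unfold Edge at h ⊢
  rcases h with h | h | ⟨h, h2⟩ | ⟨h, h2⟩
  · exact Or.inr (Or.inl h)
  · exact Or.inl h
  · exact Or.inr (Or.inr (Or.inr ⟨h, h2⟩))
  · exact Or.inr (Or.inr (Or.inl ⟨h, h2⟩))

/-- the translations that keep the parity keep the edges. -/
lemma edge_add {p q w : ℤ × ℤ} (hw : Even (w.1 + w.2)) (h : Edge p q) : Edge (p + w) (q + w) := by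
  unfold Edge at h ⊢
  simp only [Prod.fst_add, Prod.snd_add]
  rcases h with h | h | ⟨h, h2⟩ | ⟨h, h2⟩
  · left
    rw [h]
    ext
    · simp only [Prod.fst_add]; ring
    · simp only [Prod.snd_add]
  · right; left
    rw [h]
    ext
    · simp only [Prod.fst_add]; ring
    · simp only [Prod.snd_add]
  · right; right; left
    refine ⟨?_, ?_⟩
    · rw [h]
      ext
      · simp only [Prod.fst_add]
      · simp only [Prod.snd_add]; ring
    · have e : p.1 + w.1 + (p.2 + w.2) = (p.1 + p.2) + (w.1 + w.2) := by ring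
      rw [e]
      exact h2.add hw
  · right; right; right
    refine ⟨?_, ?_⟩
    · rw [h]
      ext
      · simp only [Prod.fst_add]
      · simp only [Prod.snd_add]; ring
    · have e : q.1 + w.1 + (q.2 + w.2) = (q.1 + q.2) + (w.1 + w.2) := by ring
      rw [e]
      exact h2.add hw

lemma val1 {n : ℕ} (hn : 2 ≤ n) : ((1 : Fin (n + 1)) : ℕ) = 1 := by
  rw [Fin.val_one', Nat.mod_eq_of_lt (by omega)]

/-- the list of a cyclic sequence. -/
lemma polC_of {n T : ℕ} (hn : 2 ≤ n) (g : Fin (n + 1) → ℤ × ℤ) (hinj : Function.Injective g)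
    (hedge : ∀ i : Fin (n + 1), Edge (g i) (g (i + 1))) (h0 : g 0 = (0, 1)) (h1 : g 1 = (-1, 1))
    (hl : g (-1) = (1, 1)) (hrow : ∀ i, 1 ≤ (g i).2 ∧ (g i).2 ≤ T) (htop : ∃ i, (g i).2 = T)
    (hright : ∀ i, ∀ k : ℤ, 1 ≤ k → g i ≠ (2 * k, 1)) : PolC T (List.ofFn g) := by
  refine ⟨?_, ?_, ?_, ?_, ?_, ?_, ?_⟩
  · rw [List.isChain_iff_getElem]
    intro i hi
    rw [List.length_ofFn] at hi
    rw [List.getElem_ofFn, List.getElem_ofFn]
    have e : (⟨i + 1, hi⟩ : Fin (n + 1)) = ⟨i, by omega⟩ + 1 := by
      apply Fin.ext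
      rw [Fin.val_add, val1 hn]
      exact (Nat.mod_eq_of_lt (by omega)).symm
    rw [e]
    exact hedge _
  · exact List.nodup_ofFn.2 hinj
  · intro p hp
    rw [List.mem_ofFn] at hp
    obtain ⟨i, rfl⟩ := hp
    exact hrow i
  · obtain ⟨m, rfl⟩ : ∃ m, n = m + 1 := ⟨n - 1, by omega⟩
    refine ⟨List.ofFn (fun i : Fin m => g i.succ.succ), ?_⟩
    rw [List.ofFn_succ, List.ofFn_succ, h0]
    have e : (Fin.succ (0 : Fin (m + 1))) = 1 := rfl
    rw [e, h1]
  · rw [List.getLast?_eq_getElem?, List.length_ofFn, Nat.add_sub_cancel, List.getElem?_ofFn]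
    rw [dif_pos (by omega)]
    have e : (⟨n, by omega⟩ : Fin (n + 1)) = -1 := by
      have h2 : (⟨n, by omega⟩ : Fin (n + 1)) + 1 = 0 := by
        apply Fin.ext
        rw [Fin.val_add, val1 hn]
        exact Nat.mod_self _
      exact eq_neg_of_add_eq_zero_left h2
    rw [e, hl]
  · obtain ⟨i, hi⟩ := htop
    refine ⟨(g i).1, ?_⟩
    rw [List.mem_ofFn]
    exact ⟨i, by rw [← hi]⟩
  · intro k hk hmem
    rw [List.mem_ofFn] at hmem
    obtain ⟨i, hi⟩ := hmem
    exact hright i k hk hi

/-- the sign. -/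
def sg {n : ℕ} (e : Bool) (j : Fin (n + 1)) : Fin (n + 1) := if e then j else -j

lemma one_ne {n : ℕ} (hn : 2 ≤ n) : (1 : Fin (n + 1)) ≠ -1 := by
  intro h
  have h2 : (1 : Fin (n + 1)) + 1 = 0 := by
    nth_rewrite 1 [h]
    exact neg_add_cancel 1
  have h3 := congrArg Fin.val h2
  rw [Fin.val_add, val1 hn, Nat.mod_eq_of_lt (by omega)] at h3
  exact absurd h3 (by
    rw [Fin.val_zero]
    norm_num)

/-- the root exists. -/
lemma exists_root {n T : ℕ} (hn : 2 ≤ n) {f : Fin (n + 1) → ℤ × ℤ} (hf : Loop n f) (hr : Rows T f) :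
    ∃ (L : List (ℤ × ℤ)) (k : Fin (n + 1)) (e : Bool) (w : ℤ × ℤ), PolC T L ∧
      L = List.ofFn (fun j => f (k + sg e j) + w) := by
  classical
  obtain ⟨hf0, hinj, hedge⟩ := hf
  obtain ⟨a, hrow, ⟨i0, hi0⟩, ⟨i1, hi1⟩⟩ := hr
  have hprev : ∀ i : Fin (n + 1), Edge (f i) (f (i - 1)) := by
    intro i
    have := hedge (i - 1)
    rw [sub_add_cancel] at this
    exact edge_symm this
  have hne : ∀ i : Fin (n + 1), f (i + 1) ≠ f (i - 1) := by
    intro i h
    have h2 := hinj h
    rw [sub_eq_add_neg] at h2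
    exact one_ne hn (add_left_cancel h2)
  -- neighbours of a site of the lowest row
  have hnb : ∀ i j : Fin (n + 1), (f i).2 = a → Edge (f i) (f j) →
      f j = ((f i).1 + 1, a) ∨ f j = ((f i).1 - 1, a) ∨ (f j = ((f i).1, a + 1) ∧ Even ((f i).1 + a)) := by
    intro i j hi hE
    unfold Edge at hE
    rw [hi] at hE
    rcases hE with h | h | ⟨h, h2⟩ | ⟨h, h2⟩
    · exact Or.inl h
    · right; left
      have e1 := congrArg Prod.fst h
      have e2 := congrArg Prod.snd h
      simp only at e1 e2
      ext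
      · simp only; omega
      · simp only; omega
    · exact Or.inr (Or.inr ⟨h, h2⟩)
    · exfalso
      have e2 := congrArg Prod.snd h
      simp only at e2
      have := (hrow j).1
      omega
  -- the candidates
  set S : Finset (Fin (n + 1)) := Finset.univ.filter (fun i => (f i).2 = a ∧ ¬ Even ((f i).1 + a)) with hS
  have hSne : S.Nonempty := by
    by_cases hpar : Even ((f i0).1 + a)
    · -- one of the neighbours is in the same row
      have h1 := hnb i0 (i0 + 1) hi0 (hedge i0)
      have h2 := hnb i0 (i0 - 1) hi0 (hprev i0)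
      have hodd : ∀ j, (f j = ((f i0).1 + 1, a) ∨ f j = ((f i0).1 - 1, a)) → j ∈ S := by
        intro j hj
        rw [hS, Finset.mem_filter]
        refine ⟨Finset.mem_univ _, ?_⟩
        rcases hj with h | h
        · rw [h]
          refine ⟨rfl, ?_⟩
          simp only
          rw [Int.not_even_iff_odd]
          obtain ⟨m, hm⟩ := hpar
          exact ⟨m, by linarith⟩
        · rw [h]
          refine ⟨rfl, ?_⟩
          simp only
          rw [Int.not_even_iff_odd]
          obtain ⟨m, hm⟩ := hpar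
          exact ⟨m - 1, by linarith⟩
      rcases h1 with h | h | ⟨h, _⟩
      · exact ⟨_, hodd _ (Or.inl h)⟩
      · exact ⟨_, hodd _ (Or.inr h)⟩
      · rcases h2 with h' | h' | ⟨h', _⟩
        · exact ⟨_, hodd _ (Or.inl h')⟩
        · exact ⟨_, hodd _ (Or.inr h')⟩
        · exact absurd (h.trans h'.symm) (hne i0)
    · exact ⟨i0, by
        rw [hS, Finset.mem_filter]
        exact ⟨Finset.mem_univ _, hi0, hpar⟩⟩
  obtain ⟨k, hk, hmax⟩ := S.exists_max_image (fun i => (f i).1) hSne
  rw [hS, Finset.mem_filter] at hk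
  obtain ⟨-, hka, hkp⟩ := hk
  set X := (f k).1 with hX
  have hfk : f k = (X, a) := by
    ext
    · rfl
    · exact hka
  have h1 := hnb k (k + 1) hka (hedge k)
  have h2 := hnb k (k - 1) hka (hprev k)
  rw [← hX] at h1 h2
  have hw : Even ((-X : ℤ) + (1 - a)) := by
    rw [Int.not_even_iff_odd] at hkp
    obtain ⟨m, hm⟩ := hkp
    exact ⟨-m, by linarith⟩
  set w : ℤ × ℤ := (-X, 1 - a) with hwdef
  -- a general statement for both orientations
  have key : ∀ e : Bool, f (k + sg e 1) = (X - 1, a) → f (k + sg e (-1)) = (X + 1, a) →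
      ∃ (L : List (ℤ × ℤ)) (k : Fin (n + 1)) (e : Bool) (w : ℤ × ℤ), PolC T L ∧
        L = List.ofFn (fun j => f (k + sg e j) + w) := by
    intro e he1 he2
    refine ⟨_, k, e, w, ?_, rfl⟩
    have hsinj : Function.Injective (fun j : Fin (n + 1) => k + sg e j) := by
      intro i j hij
      have h3 := add_left_cancel hij
      unfold sg at h3
      cases e
      · simpa using h3
      · simpa using h3
    have hsurj : Function.Surjective (fun j : Fin (n + 1) => k + sg e j) :=
      Finite.surjective_of_injective hsinj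
    apply polC_of hn
    · intro i j hij
      exact hsinj (hinj (add_right_cancel hij))
    · intro i
      apply edge_add hw
      cases e
      · have e1 : k + sg false (i + 1) = k + sg false i - 1 := by
          show k + -(i + 1) = k + -i - 1
          rw [neg_add, ← add_assoc, sub_eq_add_neg]
        rw [e1]
        exact hprev _
      · have e1 : k + sg true (i + 1) = k + sg true i + 1 := by
          show k + (i + 1) = k + i + 1
          rw [add_assoc]
        rw [e1]
        exact hedge _
    · have e1 : k + sg e 0 = k := by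
        unfold sg
        cases e <;> simp
      rw [e1, hfk, hwdef]
      ext
      · simp
      · simp
    · rw [he1, hwdef]
      ext
      · simp only [Prod.fst_add]; ring
      · simp only [Prod.snd_add]; ring
    · rw [he2, hwdef]
      ext
      · simp only [Prod.fst_add]; ring
      · simp only [Prod.snd_add]; ring
    · intro i
      have h3 := hrow (k + sg e i)
      rw [hwdef]
      simp only [Prod.snd_add]
      constructor <;> omega
    · obtain ⟨j, hj⟩ := hsurj i1
      refine ⟨j, ?_⟩
      have hj' : k + sg e j = i1 := hj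
      rw [hj', hwdef]
      simp only [Prod.snd_add]
      omega
    · intro i m hm hcon
      have h3 := congrArg Prod.fst hcon
      have h4 := congrArg Prod.snd hcon
      rw [hwdef] at h3 h4
      simp only [Prod.fst_add, Prod.snd_add] at h3 h4
      have h5 : (k + sg e i) ∈ S := by
        rw [hS, Finset.mem_filter]
        refine ⟨Finset.mem_univ _, by omega, ?_⟩
        rw [Int.not_even_iff_odd]
        rw [Int.not_even_iff_odd] at hkp
        obtain ⟨r, hr⟩ := hkp
        exact ⟨r + m, by omega⟩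
      have h6 := hmax _ h5
      have h7 : (f (k + sg e i)).1 ≤ X := h6
      omega
  rcases h1 with h1 | h1 | ⟨_, h1⟩
  · rcases h2 with h2 | h2 | ⟨_, h2⟩
    · exact absurd (h1.trans h2.symm) (hne k)
    · apply key false
      · show f (k + -1) = _
        rw [← sub_eq_add_neg]
        exact h2
      · show f (k + -(-1)) = _
        rw [neg_neg]
        exact h1
    · exact absurd h2 hkp
  · rcases h2 with h2 | h2 | ⟨_, h2⟩
    · apply key true
      · exact h1
      · show f (k + -1) = _
        rw [← sub_eq_add_neg]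
        exact h2
    · exact absurd (h1.trans h2.symm) (hne k)
    · exact absurd h2 hkp
  · exact absurd h1 hkp

end RootAux

open RootAux

/-- the canonical root of a polygon. -/
theorem root {n T : ℕ} (hn : 2 ≤ n) : ∃ F : (Fin (n + 1) → ℤ × ℤ) → List (ℤ × ℤ) × Fin (n + 1) × Bool,
    Set.InjOn F {f | Loop n f ∧ Rows T f} ∧
      ∀ f, Loop n f → Rows T f → PolC T (F f).1 ∧ (F f).1.length = n + 1 := by
  classical
  have h : ∀ f : Fin (n + 1) → ℤ × ℤ, ∃ F : List (ℤ × ℤ) × Fin (n + 1) × Bool, Loop n f ∧ Rows T f →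
      PolC T F.1 ∧ ∃ w : ℤ × ℤ, F.1 = List.ofFn (fun j => f (F.2.1 + sg F.2.2 j) + w) := by
    intro f
    by_cases hf : Loop n f ∧ Rows T f
    · obtain ⟨L, k, e, w, h1, h2⟩ := exists_root hn hf.1 hf.2
      exact ⟨(L, k, e), fun _ => ⟨h1, w, h2⟩⟩
    · exact ⟨([], 0, true), fun h => absurd h hf⟩
  choose F hF using h
  refine ⟨F, ?_, ?_⟩
  · intro f hf f' hf' hFF
    obtain ⟨-, w, h1⟩ := hF f hf
    obtain ⟨-, w', h2⟩ := hF f' hf'
    rw [← hFF, h1] at h2
    have h3 := List.ofFn_injective h2
    have h4 : ∀ i, f i + w = f' i + w' := by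
      intro i
      have h5 := congrFun h3 (sg (F f).2.2 (i - (F f).2.1))
      have e1 : (F f).2.1 + sg (F f).2.2 (sg (F f).2.2 (i - (F f).2.1)) = i := by
        unfold sg
        cases (F f).2.2
        · simp
        · simp
      simp only [e1] at h5
      exact h5
    have h5 := h4 0
    rw [hf.1.1, hf'.1.1] at h5
    have hww : w = w' := add_left_cancel h5
    funext i
    have h6 := h4 i
    rw [hww] at h6
    exact add_right_cancel h6
  · intro f hf hr
    obtain ⟨h1, w, h2⟩ := hF f ⟨hf, hr⟩
    refine ⟨h1, ?_⟩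
    rw [h2, List.length_ofFn]

end CC

end HexObs
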