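import Pool.Agent.HexPoly.Defs

/-!
POLY, module P2: an explorer does not see a bridge behind another bridge.
-/

set_option autoImplicit false

namespace HexObs

namespace Ex

open Complex Finset ENNReal

private lemma sees_cross (e a : ℤ) : cross up (foot oo up e - foot oo up a) = 2 * (a - e) := by
  have h : hz up = (2, -1) := by decide
  unfold foot
  rw [h]
  simp only [cross, up, Prod.fst_sub, Prod.snd_sub, Prod.fst_add, Prod.snd_add, Prod.smul_fst,
    Prod.smul_snd, smul_eq_mul]
  ring

private lemma sees_ip (e a : ℤ) : ip (foot oo up e - foot oo up a) up = 0 := by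
  rw [HexW.ip_sub_sub _ oo, HexW.ip_foot, HexW.ip_foot, sub_zero]

/-- the explorer avoids the far bridge. -/
private lemma sees_saw {T : ℕ} (hT : 1 ≤ T) {e a b : ℤ} (hea : e < a) (hab : a < b) {Z : Set Pt}
    {s t u : List Bool} (hs : s ∈ Br (St T) ∅ (foot oo up a) up) (hZ : vis (foot oo up a) up s ⊆ Z)
    (ht : t ∈ Br (St T) Z (foot oo up b) up) (hu : Saw (St T \ Z) (foot oo up e) up u) :
    Saw (St T \ (Z ∪ vis (foot oo up b) up t)) (foot oo up e) up u := by
  have h0 : up ∈ dirs := by decide
  refine ⟨fun i hi hil => ⟨(hu.mem i hi hil).1, ?_⟩, hu.inj⟩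
  rintro (h | h)
  · exact (hu.mem i hi hil).2 h
  · -- the first visit
    classical
    have hex : ∃ i, 1 ≤ i ∧ i ≤ u.length ∧ vx (foot oo up e) up u i ∈ vis (foot oo up b) up t :=
      ⟨i, hi, hil, h⟩
    obtain ⟨m, ⟨hm1, hm2, hm3⟩, hmin⟩ : ∃ m, (1 ≤ m ∧ m ≤ u.length ∧
        vx (foot oo up e) up u m ∈ vis (foot oo up b) up t) ∧
        ∀ j, j < m → ¬ (1 ≤ j ∧ j ≤ u.length ∧ vx (foot oo up e) up u j ∈ vis (foot oo up b) up t) :=
      ⟨Nat.find hex, Nat.find_spec hex, fun j hj => Nat.find_min hex hj⟩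
    set w := u.take (m - 1) with hw
    have hwl : w.length = m - 1 := by
      rw [hw, List.length_take]
      omega
    have hvx : ∀ j, j ≤ m → vx (foot oo up e) up w j = vx (foot oo up e) up u j := by
      intro j hj
      have h1 : vx (foot oo up e) up (w ++ u.drop (m - 1)) j = vx (foot oo up e) up w j :=
        vx_append (by omega)
      rw [hw, List.take_append_drop] at h1
      exact h1.symm
    have hwsaw : Saw (St T \ (Z ∪ vis (foot oo up b) up t)) (foot oo up e) up w := by
      refine ⟨fun j hj hjl => ?_, fun j k hjk hk => ?_⟩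
      · rw [hwl] at hjl
        rw [hvx j (by omega)]
        refine ⟨(hu.mem j hj (by omega)).1, ?_⟩
        rintro (h' | h')
        · exact (hu.mem j hj (by omega)).2 h'
        · exact hmin j (by omega) ⟨hj, by omega, h'⟩
      · rw [hwl] at hk
        rw [hvx j (by omega), hvx k (by omega)]
        exact hu.inj j k hjk (by omega)
    have htip : tip (foot oo up e) up w ∈ vis (foot oo up b) up t := by
      unfold tip
      rw [hwl, show m - 1 + 1 = m by omega, hvx m le_rfl]
      exact hm3
    -- a large trapezoid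
    obtain ⟨N, hNa, hNb⟩ : ∃ N : ℕ, |a| < (N : ℤ) ∧ |b| < (N : ℤ) := by
      refine ⟨(|a|).toNat + (|b|).toNat + 1, ?_, ?_⟩
      · push_cast
        omega
      · push_cast
        omega
    have hIa := HexW.inc_Br (v0 := oo) h0 hT hNa (∅ : Set Pt)
    have hIb := HexW.inc_Br (v0 := oo) h0 hT hNb Z
    obtain ⟨n1, hn1⟩ := (hIa.union s).1 hs
    obtain ⟨n2, hn2⟩ := (hIb.union t).1 ht
    obtain ⟨n3, hn3⟩ := HexW.saw_trap' (v0 := oo) hwsaw
    set n := n1 + n2 + n3 with hn
    have hs' := hIa.mono (show n1 ≤ n by omega) hn1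
    have ht' := hIb.mono (show n2 ≤ n by omega) hn2
    have hw' : Saw (trap oo up T (n + N) \ (Z ∪ vis (foot oo up b) up t)) (foot oo up e) up w :=
      hn3.mono (Set.sdiff_subset_sdiff_left (trap_mono oo up T (by omega)))
    have hgood : GoodDom (trapF (v0 := oo) h0 T (n + N)) (foot oo up a) up :=
      HexW.trap_good_foot h0 hT (by push_cast; omega)
    have hcoe : ((trapF (v0 := oo) h0 T (n + N) : Finset Pt) : Set Pt) = trap oo up T (n + N) :=
      trapF_coe h0 T (n + N)
    refine far_hit hgood (v1 := foot oo up e) (v3 := foot oo up b)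
      (by rw [HexW.cl_foot, HexW.cl_foot]) (by rw [HexW.cl_foot, HexW.cl_foot]) (sees_ip e a) (sees_ip b a)
      (Or.inl ⟨by rw [sees_cross]; omega, by rw [sees_cross]; omega⟩) (s := s) (g := t) (u := w) ?_ ?_ ?_ htip
    · rw [hcoe]
      exact hs'
    · rw [hcoe]
      exact br_anti hZ ht'
    · rw [hcoe]
      exact hw'.mono (Set.sdiff_subset_sdiff_right (Set.union_subset_union_left _ hZ))

/-- an explorer from the foot e < a does not see a bridge from b > a behind the bridge from a. -/
theorem sees {T : ℕ} (hT : 1 ≤ T) {e a b : ℤ} (hea : e < a) (hab : a < b) {Z : Set Pt} {s t : List Bool}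
    (hs : s ∈ Br (St T) ∅ (foot oo up a) up) (hZ : vis (foot oo up a) up s ⊆ Z)
    (ht : t ∈ Br (St T) Z (foot oo up b) up) :
    Br (St T) (Z ∪ vis (foot oo up b) up t) (foot oo up e) up = Br (St T) Z (foot oo up e) up ∧
    DnL (St T) (Z ∪ vis (foot oo up b) up t) (foot oo up e) up = DnL (St T) Z (foot oo up e) up ∧
    DnR (St T) (Z ∪ vis (foot oo up b) up t) (foot oo up e) up = DnR (St T) Z (foot oo up e) up := by
  have key : ∀ u : List Bool, Saw (St T \ (Z ∪ vis (foot oo up b) up t)) (foot oo up e) up u ↔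
      Saw (St T \ Z) (foot oo up e) up u := by
    intro u
    constructor
    · intro h
      exact h.mono (Set.sdiff_subset_sdiff_right Set.subset_union_left)
    · intro h
      exact sees_saw hT hea hab hs hZ ht h
  have hDn : Dn (St T) (Z ∪ vis (foot oo up b) up t) (foot oo up e) up = Dn (St T) Z (foot oo up e) up := by
    ext u
    exact and_congr (key u) Iff.rfl
  refine ⟨?_, ?_, ?_⟩
  · ext u
    exact and_congr (key u) Iff.rfl
  · unfold DnL
    rw [hDn]
  · unfold DnR
    rw [hDn]

end Ex

end HexObs
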