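import Pool.Agent.HexObs.Ex2

/-!
The slit identity with three walkers (prescribed ends) and one explorer.
-/

set_option autoImplicit false

namespace HexObs

namespace Ex

open Complex Finset ENNReal

/-- the hits on a union of two disjoint obstacles. -/
lemma hit_split (Ω : Finset Pt) {X Y Z : Set Pt} (hYZ : Disjoint Y Z) (p d0 : Pt) (g : List Bool → ℝ) :
    ∑ u ∈ hitF Ω X (Y ∪ Z) p d0, g u =
      ∑ u ∈ hitF Ω (X ∪ Z) Y p d0, g u + ∑ u ∈ hitF Ω (X ∪ Y) Z p d0, g u := by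
  classical
  have e : hitF Ω X (Y ∪ Z) p d0 = hitF Ω (X ∪ Z) Y p d0 ∪ hitF Ω (X ∪ Y) Z p d0 := by
    ext u
    rw [Finset.mem_union, mem_hitF, mem_hitF, mem_hitF]
    have e1 : X ∪ Z ∪ Y = X ∪ (Y ∪ Z) := by
      rw [Set.union_assoc, Set.union_comm Z Y]
    have e2 : X ∪ Y ∪ Z = X ∪ (Y ∪ Z) := Set.union_assoc _ _ _
    rw [e1, e2]
    constructor
    · rintro ⟨h1, h2 | h2⟩
      · exact Or.inl ⟨h1, h2⟩
      · exact Or.inr ⟨h1, h2⟩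
    · rintro (⟨h1, h2⟩ | ⟨h1, h2⟩)
      · exact ⟨h1, Or.inl h2⟩
      · exact ⟨h1, Or.inr h2⟩
  rw [e, Finset.sum_union]
  rw [Finset.disjoint_left]
  intro u h1 h2
  rw [mem_hitF] at h1 h2
  exact Set.disjoint_left.1 hYZ h1.2 h2.2

lemma sum_exits_triple (Ω : Finset Pt) {X Y Z : Set Pt} (hXY : Disjoint X Y) (hXZ : Disjoint X Z)
    (hYZ : Disjoint Y Z) (hX : X ⊆ Ω) (hY : Y ⊆ Ω) (hZ : Z ⊆ Ω) (p d0 : Pt)
    (f : ℤ → ℝ) (c : ℝ) (hc : ∑ u ∈ exits (slit Ω (X ∪ Y ∪ Z)) p d0, xc ^ u.length * f (wind u) = c) :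
    c = fr Ω p d0 f (X ∪ Y ∪ Z) + ∑ u ∈ hitF Ω (Y ∪ Z) X p d0, xc ^ u.length * f (wind u) +
      ∑ u ∈ hitF Ω (X ∪ Z) Y p d0, xc ^ u.length * f (wind u) +
      ∑ u ∈ hitF Ω (X ∪ Y) Z p d0, xc ^ u.length * f (wind u) := by
  have h1 := sum_exits_pair Ω (X := X ∪ Y) (Y := Z) (Set.disjoint_union_left.2 ⟨hXZ, hYZ⟩)
    (Set.union_subset hX hY) hZ p d0 f c hc
  rw [hit_split Ω hXY] at h1
  rw [Set.union_comm Z Y, Set.union_comm Z X] at h1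
  rw [h1]
  ring

/-- reordering of triple sums over walkers. -/
lemma sum3_a (Ω : Finset Pt) (X : Set Pt) (q1 q2 q3 d0 : Pt) (V1 V2 V3 : Set Pt)
    (h : List Bool → List Bool → List Bool → ℝ) :
    ∑ t ∈ fam Ω q2 d0 (BrE (Ω : Set Pt) X q2 d0 V2),
      ∑ r ∈ fam Ω q3 d0 (BrE (Ω : Set Pt) (X ∪ vis q2 d0 t) q3 d0 V3),
        ∑ s ∈ fam Ω q1 d0 (BrE (Ω : Set Pt) (X ∪ vis q2 d0 t ∪ vis q3 d0 r) q1 d0 V1), h s t r =
    ∑ s ∈ fam Ω q1 d0 (BrE (Ω : Set Pt) X q1 d0 V1),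
      ∑ t ∈ fam Ω q2 d0 (BrE (Ω : Set Pt) (X ∪ vis q1 d0 s) q2 d0 V2),
        ∑ r ∈ fam Ω q3 d0 (BrE (Ω : Set Pt) (X ∪ vis q1 d0 s ∪ vis q2 d0 t) q3 d0 V3), h s t r := by
  have e1 : ∀ t, ∑ r ∈ fam Ω q3 d0 (BrE (Ω : Set Pt) (X ∪ vis q2 d0 t) q3 d0 V3),
        ∑ s ∈ fam Ω q1 d0 (BrE (Ω : Set Pt) (X ∪ vis q2 d0 t ∪ vis q3 d0 r) q1 d0 V1), h s t r =
      ∑ s ∈ fam Ω q1 d0 (BrE (Ω : Set Pt) (X ∪ vis q2 d0 t) q1 d0 V1),
        ∑ r ∈ fam Ω q3 d0 (BrE (Ω : Set Pt) (X ∪ vis q2 d0 t ∪ vis q1 d0 s) q3 d0 V3), h s t r :=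
    fun t => sum_brE_comm Ω (X ∪ vis q2 d0 t) q3 q1 d0 V3 V1 (fun r s => h s t r)
  rw [Finset.sum_congr rfl (fun t _ => e1 t)]
  rw [sum_brE_comm Ω X q2 q1 d0 V2 V1 (fun t s =>
    ∑ r ∈ fam Ω q3 d0 (BrE (Ω : Set Pt) (X ∪ vis q2 d0 t ∪ vis q1 d0 s) q3 d0 V3), h s t r)]
  apply Finset.sum_congr rfl
  intro s _
  apply Finset.sum_congr rfl
  intro t _
  rw [Set.union_assoc, Set.union_comm (vis q2 d0 t), ← Set.union_assoc]

lemma sum3_b (Ω : Finset Pt) (X : Set Pt) (q1 q2 q3 d0 : Pt) (V1 V2 V3 : Set Pt)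
    (h : List Bool → List Bool → List Bool → ℝ) :
    ∑ s ∈ fam Ω q1 d0 (BrE (Ω : Set Pt) X q1 d0 V1),
      ∑ r ∈ fam Ω q3 d0 (BrE (Ω : Set Pt) (X ∪ vis q1 d0 s) q3 d0 V3),
        ∑ t ∈ fam Ω q2 d0 (BrE (Ω : Set Pt) (X ∪ vis q1 d0 s ∪ vis q3 d0 r) q2 d0 V2), h s t r =
    ∑ s ∈ fam Ω q1 d0 (BrE (Ω : Set Pt) X q1 d0 V1),
      ∑ t ∈ fam Ω q2 d0 (BrE (Ω : Set Pt) (X ∪ vis q1 d0 s) q2 d0 V2),
        ∑ r ∈ fam Ω q3 d0 (BrE (Ω : Set Pt) (X ∪ vis q1 d0 s ∪ vis q2 d0 t) q3 d0 V3), h s t r := by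
  apply Finset.sum_congr rfl
  intro s _
  exact sum_brE_comm Ω (X ∪ vis q1 d0 s) q3 q2 d0 V3 V2 (fun r t => h s t r)

/-- THE SLIT IDENTITY: explorer from p, walkers from q1, q2, q3 with prescribed ends. -/
theorem slit4E {Ω : Finset Pt} {p d0 : Pt} (hp : GoodDom Ω p d0) (q1 : Pt) (V1 : Set Pt) (q2 : Pt) (V2 : Set Pt)
    (q3 : Pt) (V3 : Set Pt) (m : ℝ) :
    Real.sin (m * (Real.pi / 8)) *
        obE Ω q1 d0 V1 (obE Ω q2 d0 V2 (fun Y => gr Ω q3 d0 (BrE (Ω : Set Pt) Y q3 d0 V3))) ∅ =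
      obE Ω q1 d0 V1 (obE Ω q2 d0 V2 (obE Ω q3 d0 V3
        (fr Ω p d0 (fun w => Real.sin ((m + w) * (Real.pi / 8)))))) ∅ +
      obE Ω q2 d0 V2 (obE Ω q3 d0 V3
        (fun X => ZhE Ω X p q1 d0 V1 (fun w => Real.sin ((m + w) * (Real.pi / 8))))) ∅ +
      obE Ω q1 d0 V1 (obE Ω q3 d0 V3
        (fun X => ZhE Ω X p q2 d0 V2 (fun w => Real.sin ((m + w) * (Real.pi / 8))))) ∅ +
      obE Ω q1 d0 V1 (obE Ω q2 d0 V2
        (fun X => ZhE Ω X p q3 d0 V3 (fun w => Real.sin ((m + w) * (Real.pi / 8))))) ∅ := by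
  set f : ℤ → ℝ := fun w => Real.sin ((m + w) * (Real.pi / 8)) with hf
  have A := sum3_a Ω ∅ q1 q2 q3 d0 V1 V2 V3 (fun s t r => ∑ u ∈ hitF Ω (∅ ∪ vis q2 d0 t ∪ vis q3 d0 r)
    (vis q1 d0 s) p d0, xc ^ t.length * (xc ^ r.length * (xc ^ (s.length + u.length) * f (wind u))))
  have B := sum3_b Ω ∅ q1 q2 q3 d0 V1 V2 V3 (fun s t r => ∑ u ∈ hitF Ω (∅ ∪ vis q1 d0 s ∪ vis q3 d0 r)
    (vis q2 d0 t) p d0, xc ^ s.length * (xc ^ r.length * (xc ^ (t.length + u.length) * f (wind u))))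
  unfold obE gr ZhE
  simp only [Finset.mul_sum]
  rw [A, B]
  rw [← Finset.sum_add_distrib, ← Finset.sum_add_distrib, ← Finset.sum_add_distrib]
  apply Finset.sum_congr rfl
  intro s hs
  rw [← Finset.sum_add_distrib, ← Finset.sum_add_distrib, ← Finset.sum_add_distrib]
  apply Finset.sum_congr rfl
  intro t ht
  rw [← Finset.sum_add_distrib, ← Finset.sum_add_distrib, ← Finset.sum_add_distrib]
  apply Finset.sum_congr rfl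
  intro r hr
  rw [mem_brEF] at hs ht hr
  simp only [Set.empty_union] at ht hr ⊢
  have d1 : Disjoint (vis q1 d0 s) (vis q2 d0 t) := (mem_br.1 ht.1).2
  have d2 := (mem_br.1 hr.1).2
  rw [Set.disjoint_union_left] at d2
  have hid := identity_phase (slit Ω (vis q1 d0 s ∪ vis q2 d0 t ∪ vis q3 d0 r)) hp.dir
    (fun v hv => hp.half v (mem_slit.1 hv).1) m
  have key := sum_exits_triple Ω d1 d2.1 d2.2 (vis_sub hs.1) (vis_sub ht.1) (vis_sub hr.1) p d0 f _ hid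
  have e1 : ∑ u ∈ hitF Ω (vis q2 d0 t ∪ vis q3 d0 r) (vis q1 d0 s) p d0,
      xc ^ t.length * (xc ^ r.length * (xc ^ (s.length + u.length) * f (wind u))) =
      xc ^ s.length * xc ^ t.length * xc ^ r.length *
        ∑ u ∈ hitF Ω (vis q2 d0 t ∪ vis q3 d0 r) (vis q1 d0 s) p d0, xc ^ u.length * f (wind u) := by
    rw [Finset.mul_sum]
    apply Finset.sum_congr rfl
    intro u _
    ring
  have e2 : ∑ u ∈ hitF Ω (vis q1 d0 s ∪ vis q3 d0 r) (vis q2 d0 t) p d0,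
      xc ^ s.length * (xc ^ r.length * (xc ^ (t.length + u.length) * f (wind u))) =
      xc ^ s.length * xc ^ t.length * xc ^ r.length *
        ∑ u ∈ hitF Ω (vis q1 d0 s ∪ vis q3 d0 r) (vis q2 d0 t) p d0, xc ^ u.length * f (wind u) := by
    rw [Finset.mul_sum]
    apply Finset.sum_congr rfl
    intro u _
    ring
  have e3 : ∑ u ∈ hitF Ω (vis q1 d0 s ∪ vis q2 d0 t) (vis q3 d0 r) p d0,
      xc ^ s.length * (xc ^ t.length * (xc ^ (r.length + u.length) * f (wind u))) =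
      xc ^ s.length * xc ^ t.length * xc ^ r.length *
        ∑ u ∈ hitF Ω (vis q1 d0 s ∪ vis q2 d0 t) (vis q3 d0 r) p d0, xc ^ u.length * f (wind u) := by
    rw [Finset.mul_sum]
    apply Finset.sum_congr rfl
    intro u _
    ring
  rw [e1, e2, e3, key]
  ring

/-- a blocked walker cannot be hit. -/
lemma zhE_blocked {Ω : Finset Pt} {v1 v2 v3 d0 : Pt} (h2 : GoodDom Ω v2 d0)
    (c1 : cl v1 = cl v2) (c3 : cl v3 = cl v2) (l1 : ip (v1 - v2) d0 = 0) (l3 : ip (v3 - v2) d0 = 0)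
    (hside : (0 < cross d0 (v1 - v2) ∧ cross d0 (v3 - v2) < 0) ∨ (cross d0 (v1 - v2) < 0 ∧ 0 < cross d0 (v3 - v2)))
    {X : Set Pt} {s : List Bool} (hs : s ∈ Br (Ω : Set Pt) ∅ v2 d0) (hX : vis v2 d0 s ⊆ X)
    (W : Set Pt) (f : ℤ → ℝ) : ZhE Ω X v1 v3 d0 W f = 0 := by
  unfold ZhE
  apply Finset.sum_eq_zero
  intro g hg
  rw [mem_brEF] at hg
  apply Finset.sum_eq_zero
  intro u hu
  rw [mem_hitF] at hu
  have hg' : g ∈ Br (Ω : Set Pt) (vis v2 d0 s) v3 d0 := br_anti hX hg.1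
  have hu' : Saw ((Ω : Set Pt) \ (vis v2 d0 s ∪ vis v3 d0 g)) v1 d0 u :=
    hu.1.mono (Set.sdiff_subset_sdiff_right (Set.union_subset_union_left _ hX))
  exact absurd hu.2 (far_hit h2 c1 c3 l1 l3 hside hs hg' hu')

lemma obE_zero (Ω : Finset Pt) (v d0 : Pt) (W : Set Pt) (F : Set Pt → ℝ) (X : Set Pt)
    (h : ∀ s ∈ BrE (Ω : Set Pt) X v d0 W, F (X ∪ vis v d0 s) = 0) : obE Ω v d0 W F X = 0 := by
  unfold obE
  apply Finset.sum_eq_zero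
  intro s hs
  rw [h s (mem_brEF.1 hs), mul_zero]

end Ex

end HexObs
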