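import Mathlib

/-!
POLY: the summation of I4 and I3 (real numbers).
-/

set_option autoImplicit false

open Finset

namespace HexObs.Ex

/-- sum over n of the three explorer inequality. -/
theorem star_num2 {N : ℕ} {s1 s3 k tlN r : ℝ} (t2 e0 c0 y : ℕ → ℝ) (hr : r = t2 1)
    (H3 : ∀ n ∈ range N, s1 * r + e0 n + s3 * t2 (n + 1) ≤ c0 n + s3 * t2 (n + 2) + s3 * y n)
    (H0 : k * tlN * r + ∑ n ∈ range N, c0 n ≤ N * (s1 * r) + ∑ n ∈ range N, e0 n) :
    r * (k * tlN + s3) ≤ s3 * (t2 (N + 1) + ∑ n ∈ range N, y n) := by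
  have h1 := Finset.sum_le_sum H3
  rw [sum_add_distrib, sum_add_distrib, sum_add_distrib, sum_add_distrib, sum_const, card_range, nsmul_eq_mul,
    ← mul_sum, ← mul_sum, ← mul_sum] at h1
  have h2 : ∑ n ∈ range N, t2 (n + 2) = ∑ n ∈ range N, t2 (n + 1) + t2 (N + 1) - t2 1 := by
    have h3 := sum_range_succ (fun n => t2 (n + 1)) N
    have h4 := sum_range_succ' (fun n => t2 (n + 1)) N
    simp only [zero_add] at h4
    linarith
  rw [h2] at h1
  rw [hr] at h1 H0 ⊢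
  linarith

/-- the main inequality for finitely many explorers. -/
theorem star_num {N D : ℕ} {s1 s3 k u tlD r : ℝ} (hs3 : 0 ≤ s3) (hu : 0 ≤ u) (t2 : ℕ → ℝ)
    (e0 c0 : ℕ → ℝ) (a b c e : ℕ → ℕ → ℝ) (t : ℕ → ℕ → ℝ) (hr : r = t2 1) (ht0 : ∀ n m, 0 ≤ t n m)
    (ht1 : ∀ m ∈ range D, t 1 (m + 1) ≤ u * r) (ht2 : ∀ n ∈ range N, t (n + 1) (D + 1) ≤ u * t2 (n + 1))
    (I4 : ∀ n ∈ range N, ∀ m ∈ range D, s3 * t (n + 2) (m + 1) + s1 * t (n + 1) 1 + b n m + c n m ≤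
      s3 * t (n + 1) (m + 2) + a n m + s1 * t 1 (m + 1) + e n m)
    (R : ∀ n ∈ range N, k * tlD * t (n + 1) 1 + ∑ m ∈ range D, a n m ≤
      D * (s1 * t (n + 1) 1) + ∑ m ∈ range D, b n m)
    (L : ∀ m ∈ range D, N * (s1 * t 1 (m + 1)) + ∑ n ∈ range N, e n m + u * ∑ n ∈ range N, c0 n ≤
      ∑ n ∈ range N, c n m + u * (N * (s1 * r) + ∑ n ∈ range N, e0 n))
    (H3 : ∀ n ∈ range N, s1 * r + e0 n + s3 * t2 (n + 1) ≤ c0 n + s3 * t2 (n + 2) + s3 * t (n + 1) 1) :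
    (∑ n ∈ range N, t (n + 1) 1) * (k * tlD + s3 * (1 - D * u)) ≤
      s3 * (u * ∑ n ∈ range N, t2 (n + 1)) + D * u * (s3 * t2 (N + 1)) := by
  set S := ∑ n ∈ range N, t (n + 1) 1 with hS
  -- H3
  have h3 := Finset.sum_le_sum H3
  rw [sum_add_distrib, sum_add_distrib, sum_add_distrib, sum_add_distrib, sum_const, card_range, nsmul_eq_mul,
    ← mul_sum, ← mul_sum, ← mul_sum] at h3
  have h2 : ∑ n ∈ range N, t2 (n + 2) = ∑ n ∈ range N, t2 (n + 1) + t2 (N + 1) - t2 1 := by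
    have h3 := sum_range_succ (fun n => t2 (n + 1)) N
    have h4 := sum_range_succ' (fun n => t2 (n + 1)) N
    simp only [zero_add] at h4
    linarith
  rw [h2, ← hr, ← hS] at h3
  -- I4
  have h4 : ∑ n ∈ range N, ∑ m ∈ range D, (s3 * t (n + 2) (m + 1) + s1 * t (n + 1) 1 + b n m + c n m) ≤
      ∑ n ∈ range N, ∑ m ∈ range D, (s3 * t (n + 1) (m + 2) + a n m + s1 * t 1 (m + 1) + e n m) :=
    Finset.sum_le_sum fun n hn => Finset.sum_le_sum fun m hm => I4 n hn m hm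
  simp only [sum_add_distrib, sum_const, card_range, nsmul_eq_mul, ← mul_sum] at h4
  -- R
  have h5 := Finset.sum_le_sum R
  rw [sum_add_distrib, sum_add_distrib, ← mul_sum, ← mul_sum, ← mul_sum, ← hS] at h5
  -- L
  have h6 := Finset.sum_le_sum L
  rw [sum_add_distrib, sum_add_distrib, sum_add_distrib, sum_const, sum_const, card_range, nsmul_eq_mul,
    nsmul_eq_mul, ← mul_sum, ← mul_sum, sum_comm (s := range D) (t := range N),
    sum_comm (s := range D) (t := range N)] at h6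
  -- shifts
  have h7 : ∀ m ∈ range D, ∑ n ∈ range N, t (n + 1) (m + 1) - u * r ≤ ∑ n ∈ range N, t (n + 2) (m + 1) := by
    intro m hm
    have g3 := sum_range_succ (fun n => t (n + 1) (m + 1)) N
    have g4 := sum_range_succ' (fun n => t (n + 1) (m + 1)) N
    simp only [zero_add] at g4
    have g5 := ht1 m hm
    have g6 := ht0 (N + 1) (m + 1)
    have g7 : ∑ n ∈ range N, t (n + 1 + 1) (m + 1) = ∑ n ∈ range N, t (n + 2) (m + 1) := rfl
    linarith
  have h8 := Finset.sum_le_sum h7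
  rw [sum_sub_distrib, sum_const, card_range, nsmul_eq_mul, sum_comm (s := range D) (t := range N)
    (f := fun m n => t (n + 2) (m + 1))] at h8
  have h9 : ∑ m ∈ range D, ∑ n ∈ range N, t (n + 1) (m + 2) =
      ∑ m ∈ range D, ∑ n ∈ range N, t (n + 1) (m + 1) + ∑ n ∈ range N, t (n + 1) (D + 1) - S := by
    have g3 := sum_range_succ (fun m => ∑ n ∈ range N, t (n + 1) (m + 1)) D
    have g4 := sum_range_succ' (fun m => ∑ n ∈ range N, t (n + 1) (m + 1)) D
    simp only [zero_add] at g4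
    have g7 : ∑ m ∈ range D, ∑ n ∈ range N, t (n + 1) (m + 1 + 1) =
      ∑ m ∈ range D, ∑ n ∈ range N, t (n + 1) (m + 2) := rfl
    rw [← hS] at g4
    linarith
  have h10 : ∑ n ∈ range N, t (n + 1) (D + 1) ≤ u * ∑ n ∈ range N, t2 (n + 1) := by
    rw [mul_sum]
    exact Finset.sum_le_sum ht2
  have h11 : ∑ n ∈ range N, ∑ m ∈ range D, t (n + 1) (m + 2) = ∑ m ∈ range D, ∑ n ∈ range N, t (n + 1) (m + 2) :=
    sum_comm
  rw [h11, h9] at h4
  have h12 := mul_le_mul_of_nonneg_left h8 hs3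
  have h13 := mul_le_mul_of_nonneg_left h10 hs3
  have hDu : 0 ≤ (D : ℝ) * u := by positivity
  have h14 := mul_le_mul_of_nonneg_left h3 hDu
  nlinarith

end HexObs.Ex
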