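import Pool.Agent.HexPoly.Defs
import Pool.Agent.PHW.Rotate
import Pool.Agent.PHW.PairsA
import Pool.Agent.PHW.GG

/-!
POLY P4: the sum over the distance of the feet, by turning the pair upside down.
-/

set_option autoImplicit false

namespace HexObs

namespace Ex

open Complex Finset ENNReal

namespace S2

/-- the pairs counted by t2, with the distance n and the column z -/
def Ok (T : ℕ) (n z : ℤ) (s t : List Bool) : Prop :=
  s ∈ BrE (St T) ∅ (foot oo up 0) up (col z) ∧
    t ∈ BrE (St T) (∅ ∪ vis (foot oo up 0) up s) (foot oo up n) up (col (z + 2))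

lemma tip_start (w : Pt) (t : List Bool) : tip w up t = w + tip oo up t := vx_start w t _

lemma foot_fst (n : ℤ) : (foot oo up n).1 = 2 * n := by
  have h : hz up = (2, -1) := by decide
  unfold foot
  rw [h]
  show (0 : ℤ) + n • 2 = 2 * n
  rw [smul_eq_mul]
  ring

lemma foot_snd (n : ℤ) : (foot oo up n).2 = -n := by
  have h : hz up = (2, -1) := by decide
  unfold foot
  rw [h]
  show (0 : ℤ) + n • (-1) = -n
  rw [smul_eq_mul]
  ring

lemma tip_lev {T : ℕ} {t : List Bool} (h : t ∈ Brd T) : 2 * (tip oo up t).2 + (tip oo up t).1 = 3 * T + 2 := by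
  have h1 := lev_top h
  unfold lev at h1
  have h2 : ip (tip oo up t) up = 3 * T + 2 := h1
  unfold ip at h2
  have h3 : up = (0, 1) := rfl
  rw [h3] at h2
  simp only [mul_zero, mul_one, zero_add, add_zero] at h2
  exact h2

lemma ok_facts {T : ℕ} {n z : ℤ} {s t : List Bool} (h : Ok T n z s t) :
    s ∈ Brd T ∧ t ∈ Brd T ∧ Disjoint (vis (foot oo up 0) up s) (vis (foot oo up n) up t) ∧
      (tip oo up s).1 = z ∧ (tip oo up t).1 + 2 * n = z + 2 := by
  obtain ⟨⟨h1, h2⟩, h3, h4⟩ := h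
  rw [GGaux.br_foot] at h1
  rw [mem_br, GGaux.br_foot, Set.empty_union] at h3
  refine ⟨h1, h3.1, h3.2, ?_, ?_⟩
  · have e : (tip (foot oo up 0) up s).1 = z := h2
    rw [tip_start, Prod.fst_add, foot_fst] at e
    linarith
  · have e : (tip (foot oo up n) up t).1 = z + 2 := h4
    rw [tip_start, Prod.fst_add, foot_fst] at e
    linarith

lemma foot_n {T : ℕ} {n z : ℤ} {s t : List Bool} (h : Ok T n z s t) :
    foot oo up n = foot oo up 1 + tip oo up s - tip oo up t := by
  obtain ⟨h1, h2, _, h4, h5⟩ := ok_facts h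
  have l1 := tip_lev h1
  have l2 := tip_lev h2
  apply Prod.ext
  · rw [Prod.fst_sub, Prod.fst_add, foot_fst, foot_fst]
    linarith
  · rw [Prod.snd_sub, Prod.snd_add, foot_snd, foot_snd]
    linarith

lemma ok_dj {T : ℕ} {n z : ℤ} {s t : List Bool} (h : Ok T n z s t) : Dj (rev t) (rev s) := by
  have hn := foot_n h
  obtain ⟨h1, h2, h3, _, _⟩ := ok_facts h
  rw [mem_Brd] at h1 h2
  unfold Dj
  rw [Set.disjoint_left] at h3 ⊢
  rintro p ⟨i, hi, hil, e1⟩ ⟨j, hj, hjl, e2⟩
  rw [rev_length] at hil hjl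
  rw [vx_start, vx_rot h2.2.2.1 (by omega)] at e1
  rw [vx_start, vx_rot h1.2.2.1 (by omega)] at e2
  have h0 : foot oo up 0 = 0 := by decide
  refine h3 ⟨s.length + 1 - j, by omega, by omega, rfl⟩ ⟨t.length + 1 - i, by omega, by omega, ?_⟩
  rw [vx_start (foot oo up n), vx_start (foot oo up 0), hn, h0, zero_add]
  rw [h0, zero_add, ← e2] at e1
  have e3 : foot oo up 1 + tip oo up s - tip oo up t + vx oo up t (t.length + 1 - i) =
      foot oo up 1 + tip oo up s - (tip oo up t - vx oo up t (t.length + 1 - i)) := by abel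
  rw [e3, e1]
  abel

lemma t2_sum (T : ℕ) (n : ℤ) : t2 T n = ∑' z : ℤ, ∑' s : List Bool, ∑' t : List Bool,
    {q : ℤ × List Bool × List Bool | Ok T n q.1 q.2.1 q.2.2}.indicator
      (fun q => wE q.2.1 * wE q.2.2) (z, s, t) := by
  unfold t2 pF overE
  apply tsum_congr
  intro z
  apply tsum_congr
  intro s
  by_cases hs : s ∈ BrE (St T) ∅ (foot oo up 0) up (col z)
  · rw [Set.indicator_of_mem hs, ← ENNReal.tsum_mul_left]
    apply tsum_congr
    intro t
    by_cases ht : t ∈ BrE (St T) (∅ ∪ vis (foot oo up 0) up s) (foot oo up n) up (col (z + 2))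
    · have hq : (z, s, t) ∈ {q : ℤ × List Bool × List Bool | Ok T n q.1 q.2.1 q.2.2} := ⟨hs, ht⟩
      rw [Set.indicator_of_mem ht, Set.indicator_of_mem hq, mul_one]
    · have hq : (z, s, t) ∉ {q : ℤ × List Bool × List Bool | Ok T n q.1 q.2.1 q.2.2} := fun h => ht h.2
      rw [Set.indicator_of_notMem ht, Set.indicator_of_notMem hq, mul_zero]
  · rw [Set.indicator_of_notMem hs]
    symm
    rw [ENNReal.tsum_eq_zero]
    intro t
    have hq : (z, s, t) ∉ {q : ℤ × List Bool × List Bool | Ok T n q.1 q.2.1 q.2.2} := fun h => hs h.1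
    exact Set.indicator_of_notMem hq _

/-- the set of all the quadruples -/
def All (T : ℕ) : Set (ℕ × ℤ × List Bool × List Bool) := {q | Ok T (q.1 + 1) q.2.1 q.2.2.1 q.2.2.2}

lemma sum_all (T : ℕ) : ∑' n : ℕ, t2 T (n + 1) =
    ∑' q : All T, wE q.1.2.2.1 * wE q.1.2.2.2 := by
  rw [tsum_subtype (All T) (fun q => wE q.2.2.1 * wE q.2.2.2)]
  rw [ENNReal.tsum_prod (f := fun (n : ℕ) (r : ℤ × List Bool × List Bool) =>
    (All T).indicator (fun q => wE q.2.2.1 * wE q.2.2.2) (n, r))]
  apply tsum_congr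
  intro n
  rw [ENNReal.tsum_prod (f := fun (z : ℤ) (r : List Bool × List Bool) =>
    (All T).indicator (fun q => wE q.2.2.1 * wE q.2.2.2) (n, z, r))]
  rw [t2_sum]
  apply tsum_congr
  intro z
  rw [ENNReal.tsum_prod (f := fun (s : List Bool) (t : List Bool) =>
    (All T).indicator (fun q => wE q.2.2.1 * wE q.2.2.2) (n, z, s, t))]
  rfl

end S2

open S2 in
/-- turn upside down. -/
theorem sum_t2 {T : ℕ} (hT : 1 ≤ T) : ∑' n : ℕ, t2 T (n + 1) ≤ Pi2 T 1 := by
  rw [← gg_same, sum_all]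
  unfold gg
  let F : All T → {p : List Bool × List Bool | p.1 ∈ Brd T ∧ p.2 ∈ Brd T ∧ Dj p.1 p.2} := fun q =>
    ⟨(rev q.1.2.2.2, rev q.1.2.2.1), Brd_rev (ok_facts q.2).2.1, Brd_rev (ok_facts q.2).1, ok_dj q.2⟩
  have hF : Function.Injective F := by
    rintro ⟨⟨n, z, s, t⟩, h⟩ ⟨⟨n', z', s', t'⟩, h'⟩ e
    have e1 : (rev t, rev s) = (rev t', rev s') := congrArg Subtype.val e
    have e2 : t = t' := by
      have := congrArg (fun r => rev (r : List Bool × List Bool).1) e1
      simp only [rev_rev] at this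
      exact this
    have e3 : s = s' := by
      have := congrArg (fun r => rev (r : List Bool × List Bool).2) e1
      simp only [rev_rev] at this
      exact this
    subst e2
    subst e3
    obtain ⟨_, _, _, a1, a2⟩ := ok_facts h
    obtain ⟨_, _, _, b1, b2⟩ := ok_facts h'
    simp only at a1 a2 b1 b2
    have e4 : z = z' := by rw [← a1, ← b1]
    have e5 : n = n' := by
      have : (n : ℤ) = n' := by linarith
      exact_mod_cast this
    subst e4
    subst e5
    rfl
  calc ∑' q : All T, wE q.1.2.2.1 * wE q.1.2.2.2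
      = ∑' q : All T, wE (F q).1.1 * wE (F q).1.2 := by
        apply tsum_congr
        intro q
        show wE q.1.2.2.1 * wE q.1.2.2.2 = wE (rev q.1.2.2.2) * wE (rev q.1.2.2.1)
        rw [wE_rev, wE_rev, mul_comm]
    _ ≤ _ := ENNReal.tsum_comp_le_tsum_of_injective hF
        (fun p : {p : List Bool × List Bool | p.1 ∈ Brd T ∧ p.2 ∈ Brd T ∧ Dj p.1 p.2} => wE p.1.1 * wE p.1.2)

end Ex

end HexObs
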