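import Pool.Agent.HexPoly.Defs
import Pool.Agent.PHW.Order

/-!
POLY P3: order of the ends of disjoint bridges; no bridge between two bridges with adjacent tops.
-/

set_option autoImplicit false

namespace HexObs

namespace Ex

open Complex Finset ENNReal

private lemma tops_xy (p : Pt) : xy oo up p = (p.1, ip (p - oo) up) := by
  unfold xy
  refine Prod.ext ?_ rfl
  show -(cross up (p - oo)) = p.1
  unfold cross up oo
  simp only [Prod.fst_sub, Prod.snd_sub]
  ring

private lemma tops_ip (p : Pt) : ip (p - oo) up = 2 * p.2 + p.1 := by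
  unfold ip up oo
  simp only [Prod.fst_sub, Prod.snd_sub]
  ring

/-- levels of a bridge from a foot -/
private lemma tops_level {T : ℕ} {X : Set Pt} {a : ℤ} {t : List Bool} (ht : t ∈ Br (St T) X (foot oo up a) up) :
    (∀ i, 1 ≤ i → i ≤ t.length → 0 < ip (vx (foot oo up a) up t i - oo) up ∧
      ip (vx (foot oo up a) up t i - oo) up ≤ 3 * T) ∧
    ip (vx (foot oo up a) up t t.length - oo) up = 3 * T ∧
    (tip (foot oo up a) up t).1 = (vx (foot oo up a) up t t.length).1 ∧
    ip (tip (foot oo up a) up t - oo) up = 3 * T + 2 := by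
  have h0 := br_level upd (ft_ip oo up a) (ft_cl oo up a) ht
  obtain ⟨⟨h1, _⟩, _, h4⟩ := ht
  have e1 : tip (foot oo up a) up t = vx (foot oo up a) up t t.length + up := by
    unfold tip
    rw [vx_succ, h4]
  refine ⟨?_, ?_, ?_, h0⟩
  · intro i hi hl
    obtain ⟨_, h6, h7⟩ := (h1 i hi hl).1
    refine ⟨h6, ?_⟩
    have h8 := level_mod_foot (v0 := oo) (v1 := foot oo up a) upd (ft_ip oo up a) t i
    split_ifs at h8 <;> omega
  · rw [e1, tops_ip] at h0
    rw [tops_ip]
    have : (vx (foot oo up a) up t t.length + up).1 = (vx (foot oo up a) up t t.length).1 := by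
      rw [Prod.fst_add]
      show _ + 0 = _
      ring
    have h9 : (vx (foot oo up a) up t t.length + up).2 = (vx (foot oo up a) up t t.length).2 + 1 := by
      rw [Prod.snd_add]
      rfl
    rw [this, h9] at h0
    linarith
  · rw [e1, Prod.fst_add]
    show _ + 0 = _
    ring

private lemma tops_foot (a : ℤ) : (foot oo up a).1 = 2 * a := by
  have h : hz up = (2, -1) := by decide
  unfold foot oo
  rw [h]
  simp only [Prod.fst_add, Prod.smul_fst, smul_eq_mul]
  ring

/-- disjoint bridges have their ends in the order of their feet. -/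
private lemma tops_aux {T : ℕ} (hT : 1 ≤ T) {a b : ℤ} (hab : a < b) {X Y : Set Pt} {s t : List Bool}
    (hs : s ∈ Br (St T) X (foot oo up a) up) (ht : t ∈ Br (St T) Y (foot oo up b) up)
    (hd : Disjoint (vis (foot oo up a) up s) (vis (foot oo up b) up t)) :
    (tip (foot oo up a) up s).1 < (tip (foot oo up b) up t).1 := by
  obtain ⟨s1, s2, s3, _⟩ := tops_level hs
  obtain ⟨t1, t2, t3, _⟩ := tops_level ht
  have hdj : ∀ i, 1 ≤ i → i ≤ s.length → ∀ j, 1 ≤ j → j ≤ t.length →
      vx (foot oo up a) up s i ≠ vx (foot oo up b) up t j := by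
    intro i hi1 hi2 j hj1 hj2 heq
    exact Set.disjoint_left.1 hd ⟨i, hi1, hi2, rfl⟩ ⟨j, hj1, hj2, heq.symm⟩
  have key := Planar.order_abs (a := fun i => xy oo up (vx (foot oo up a) up s i))
    (g := fun j => xy oo up (vx (foot oo up b) up t j)) (n := s.length) (m := t.length) (H := 3 * (T : ℤ))
    (by omega) (by omega) (fun i _ => xy_adj upd (ft_cl oo up a) s i) ?_ ?_ ?_
    (fun j _ => xy_adj upd (ft_cl oo up b) t j) ?_ ?_ ?_ ?_
  · simp only [tops_xy] at key
    rw [s3, t3]
    apply key.1
    show (foot oo up a).1 < (foot oo up b).1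
    rw [tops_foot, tops_foot]
    omega
  · simp only [tops_xy]
    exact ft_ip oo up a
  · simp only [tops_xy]
    exact s2
  · intro i h1 h2
    simp only [tops_xy]
    exact s1 i h1 h2
  · simp only [tops_xy]
    exact ft_ip oo up b
  · simp only [tops_xy]
    exact t2
  · intro i h1 h2
    simp only [tops_xy]
    exact t1 i h1 h2
  · intro i hi j hj heq
    have h1 := congrArg Prod.fst heq
    have h2 := congrArg Prod.snd heq
    simp only [tops_xy] at h1 h2
    rcases Nat.eq_zero_or_pos i with i0 | i0
    · rcases Nat.eq_zero_or_pos j with j0 | j0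
      · subst i0
        subst j0
        have e1 : (foot oo up a).1 = (foot oo up b).1 := h1
        rw [tops_foot, tops_foot] at e1
        omega
      · rw [i0] at h2
        have e1 : ip (vx (foot oo up a) up s 0 - oo) up = 0 := ft_ip oo up a
        rw [e1] at h2
        have := (t1 j j0 hj).1
        omega
    · rcases Nat.eq_zero_or_pos j with j0 | j0
      · rw [j0] at h2
        have e1 : ip (vx (foot oo up b) up t 0 - oo) up = 0 := ft_ip oo up b
        rw [e1] at h2
        have := (s1 i i0 hi).1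
        omega
      · exact hdj i i0 hi j j0 hj (xy_inj upd heq)

/-- disjoint bridges have their ends in the order of their feet. -/
theorem tops_lt {T : ℕ} (hT : 1 ≤ T) {a b : ℤ} (hab : a < b) {s t : List Bool}
    (hs : s ∈ Br (St T) ∅ (foot oo up a) up) (ht : t ∈ Br (St T) (vis (foot oo up a) up s) (foot oo up b) up) :
    (tip (foot oo up a) up s).1 < (tip (foot oo up b) up t).1 := by
  refine tops_aux hT hab hs ht ?_
  rw [Set.disjoint_left]
  rintro p hp ⟨j, hj1, hj2, rfl⟩
  exact (ht.1.mem j hj1 hj2).2 hp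

/-- no bridge between two bridges with adjacent tops. -/
theorem no_top {T : ℕ} (hT : 1 ≤ T) {a b c : ℤ} (hab : a < b) (hbc : b < c) {z : ℤ} {X Y Z : Set Pt}
    {s t : List Bool} (hs : s ∈ BrE (St T) X (foot oo up a) up (col z))
    (ht : t ∈ BrE (St T) Y (foot oo up c) up (col (z + 2)))
    (hZs : vis (foot oo up a) up s ⊆ Z) (hZt : vis (foot oo up c) up t ⊆ Z) :
    Br (St T) Z (foot oo up b) up = ∅ := by
  rw [Set.eq_empty_iff_forall_notMem]
  intro u hu
  have hdis : ∀ p, p ∈ Z → p ∉ vis (foot oo up b) up u := by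
    rintro p hp ⟨j, hj1, hj2, rfl⟩
    exact (hu.1.mem j hj1 hj2).2 hp
  have h1 := tops_aux hT hab hs.1 hu (by
    rw [Set.disjoint_left]
    exact fun p hp => hdis p (hZs hp))
  have h2 := tops_aux hT hbc hu ht.1 (by
    rw [Set.disjoint_right]
    exact fun p hp => hdis p (hZt hp))
  have e1 : (tip (foot oo up a) up s).1 = z := hs.2
  have e2 : (tip (foot oo up c) up t).1 = z + 2 := ht.2
  have l1 := (tops_level hs.1).2.2.2
  have l2 := (tops_level hu).2.2.2
  rw [tops_ip] at l1 l2
  rw [e1] at h1 l1
  rw [e2] at h2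
  omega

end Ex

end HexObs
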