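import Pool.Agent.HexPoly.Sum4
import Pool.Agent.HexPoly.StarNum
import Pool.Agent.HexPoly.Beside
import Pool.Agent.HexPoly.Sees
import Pool.Agent.HexPoly.Tops
import Pool.Agent.HexPoly.SumT2

/-!
POLY: the inequality (*) for triples and pairs with adjacent tops.
-/

set_option autoImplicit false

namespace HexObs

namespace Ex

open Complex Finset ENNReal Filter Topology

lemma noTop {T : ℕ} (hT : 1 ≤ T) : NoTop T := fun _ _ _ hab hbc _ _ _ _ _ _ hs ht hZs hZt =>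
  no_top hT hab hbc hs ht hZs hZt

/-! finiteness -/

lemma t2_tsum_ne_top {T : ℕ} (hT : 1 ≤ T) : ∑' n : ℕ, t2 T (n + 1) ≠ ∞ :=
  ne_top_of_le_ne_top (Pi2_ne_top hT 1) (sum_t2 hT)

lemma t2_ne_top {T : ℕ} (hT : 1 ≤ T) (n : ℕ) : t2 T (n + 1) ≠ ∞ :=
  ne_top_of_le_ne_top (t2_tsum_ne_top hT) (ENNReal.le_tsum n)

lemma t2_one_ne_top {T : ℕ} (hT : 1 ≤ T) : t2 T 1 ≠ ∞ := by
  have h := t2_ne_top hT 0
  simpa using h

lemma t3_ne_top {T : ℕ} (hT : 1 ≤ T) (n : ℕ) (m : ℤ) : t3 T (n + 1) m ≠ ∞ :=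
  ne_top_of_le_ne_top (ENNReal.mul_ne_top (BT_ne_top hT) (t2_ne_top hT n)) (t3_le T _ m)

/-- the functionals. -/
noncomputable def fB (T : ℕ) (e : ℤ) (Z : Set Pt) : ℝ≥0∞ := gf (Br (St T) Z (foot oo up e) up)
noncomputable def fL (T : ℕ) (e : ℤ) (Z : Set Pt) : ℝ≥0∞ := gf (DnL (St T) Z (foot oo up e) up)
noncomputable def fR (T : ℕ) (e : ℤ) (Z : Set Pt) : ℝ≥0∞ := gf (DnR (St T) Z (foot oo up e) up)

lemma fB_le {T : ℕ} (hT : 1 ≤ T) (e : ℤ) (Z : Set Pt) : fB T e Z ≤ 1 := br_le_one hT e Z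
lemma fL_le {T : ℕ} (e : ℤ) (Z : Set Pt) : fL T e Z ≤ AT T := dnl_le e Z
lemma fR_le {T : ℕ} (e : ℤ) (Z : Set Pt) : fR T e Z ≤ AT T := dnr_le e Z

lemma tF_fin {T : ℕ} {a b c : ℤ} {F : Set Pt → ℝ≥0∞} {k : ℝ≥0∞} (hk : k ≠ ∞) (hF : ∀ Z, F Z ≤ k)
    (h1 : tF T a b c (fun _ => 1) ≠ ∞) : tF T a b c F ≠ ∞ :=
  ne_top_of_le_ne_top (ENNReal.mul_ne_top hk h1) (tF_le_mul T a b c hF)

lemma pF_fin {T : ℕ} {a b : ℤ} {F : Set Pt → ℝ≥0∞} {k : ℝ≥0∞} (hk : k ≠ ∞) (hF : ∀ Z, F Z ≤ k)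
    (h1 : pF T a b (fun _ => 1) ≠ ∞) : pF T a b F ≠ ∞ :=
  ne_top_of_le_ne_top (ENNReal.mul_ne_top hk h1) (pF_le_mul T a b hF)

/-! the three facts on the explorers -/

/-- explorers on the right. -/
theorem R_E {T : ℕ} (hT : 1 ≤ T) (n : ℕ) (D : ℕ) :
    k2 * (∑ j ∈ Finset.range D, tail T (j + 1)) * t3 T (n + 1) 1 +
      ∑ m ∈ Finset.range D, (s1 * tF T 0 (n + 1) (n + 1 + 1) (fB T (n + 1 + 1 + (m + 1))) +
        tF T 0 (n + 1) (n + 1 + 1) (fL T (n + 1 + 1 + (m + 1)))) ≤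
    ∑ m ∈ Finset.range D, (s1 * t3 T (n + 1) 1 +
      i2 * tF T 0 (n + 1) (n + 1 + 1) (fR T (n + 1 + 1 + (m + 1)))) := by
  have e0 : t3 T (n + 1) 1 = tF T 0 (n + 1) (n + 1 + 1) (fun _ => 1) := rfl
  have h : tF T 0 (n + 1) (n + 1 + 1) (fun Z => k2 * (∑ j ∈ Finset.range D, tail T (j + 1)) * 1 +
      ∑ m ∈ Finset.range D, (s1 * fB T (n + 1 + 1 + (m + 1)) Z + fL T (n + 1 + 1 + (m + 1)) Z)) ≤
      tF T 0 (n + 1) (n + 1 + 1) (fun Z => ∑ m ∈ Finset.range D, (s1 * 1 + i2 * fR T (n + 1 + 1 + (m + 1)) Z)) := by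
    apply tF_mono
    intro z s hs t ht r hr
    have h1 := beside_right hT (r := (n : ℤ) + 1 + 1)
      (Z := ∅ ∪ vis (foot oo up 0) up s ∪ vis (foot oo up ((n : ℤ) + 1)) up t ∪ vis (foot oo up ((n : ℤ) + 1 + 1)) up r)
      hr.1 (fun x hx => Or.inr hx) D
    rw [mul_one, mul_one]
    unfold fB fL fR
    have e : ∀ m : ℕ, (n : ℤ) + 1 + 1 + ((m : ℤ) + 1) = (n : ℤ) + 1 + 1 + 1 + m := fun m => by ring
    simp only [e]
    exact h1
  rw [tF_add, tF_mul, tF_sum, tF_sum] at h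
  simp only [tF_add, tF_mul] at h
  rw [← e0] at h
  exact h

/-- explorers on the left of a pair. -/
theorem L_E {T : ℕ} (hT : 1 ≤ T) (N : ℕ) :
    k2 * (∑ j ∈ Finset.range N, tail T (j + 1)) * t2 T 1 +
      ∑ n ∈ Finset.range N, (s1 * pF T 0 1 (fB T (-(n + 1))) + pF T 0 1 (fR T (-(n + 1)))) ≤
    ∑ n ∈ Finset.range N, (s1 * t2 T 1 + i2 * pF T 0 1 (fL T (-(n + 1)))) := by
  have e0 : t2 T 1 = pF T 0 1 (fun _ => 1) := rfl
  have h : pF T 0 1 (fun Z => k2 * (∑ j ∈ Finset.range N, tail T (j + 1)) * 1 +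
      ∑ n ∈ Finset.range N, (s1 * fB T (-(n + 1)) Z + fR T (-(n + 1)) Z)) ≤
      pF T 0 1 (fun Z => ∑ n ∈ Finset.range N, (s1 * 1 + i2 * fL T (-(n + 1)) Z)) := by
    apply pF_mono
    intro z s hs t ht
    have h1 := beside_left hT (r := 0)
      (Z := ∅ ∪ vis (foot oo up 0) up s ∪ vis (foot oo up 1) up t) hs.1 (fun x hx => Or.inl (Or.inr hx)) N
    rw [mul_one, mul_one]
    unfold fB fL fR
    have e : ∀ m : ℕ, -((m : ℤ) + 1) = 0 - 1 - m := fun m => by ring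
    simp only [e]
    exact h1
  rw [pF_add, pF_mul, pF_sum, pF_sum] at h
  simp only [pF_add, pF_mul] at h
  rw [← e0] at h
  exact h

/-- rearrangement. -/
lemma omega_trick {w u α β : ℝ≥0∞} (hw : w ≤ u) (h : α ≤ β) (hu : u ≠ ∞) (hβ : β ≠ ∞) :
    w * β + u * α ≤ w * α + u * β := by
  obtain ⟨v, rfl⟩ := exists_add_of_le hw
  obtain ⟨γ, rfl⟩ := exists_add_of_le h
  have : w * (α + γ) + (w + v) * α + v * γ = w * α + (w + v) * (α + γ) := by ring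
  rw [← this]
  exact le_self_add

/-- explorers on the left see only the leftmost walker. -/
theorem W_E {T : ℕ} (hT : 1 ≤ T) (N : ℕ) (m : ℕ) :
    ∑ n ∈ Finset.range N, (s1 * t3 T 1 (m + 1) + i2 * tF T 0 1 (1 + (m + 1)) (fL T (-(n + 1)))) +
      BT T * ∑ n ∈ Finset.range N, (s1 * pF T 0 1 (fB T (-(n + 1))) + pF T 0 1 (fR T (-(n + 1)))) ≤
    ∑ n ∈ Finset.range N, (s1 * tF T 0 1 (1 + (m + 1)) (fB T (-(n + 1))) +
        tF T 0 1 (1 + (m + 1)) (fR T (-(n + 1)))) +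
      BT T * ∑ n ∈ Finset.range N, (s1 * t2 T 1 + i2 * pF T 0 1 (fL T (-(n + 1)))) := by
  set α : Set Pt → ℝ≥0∞ := fun Z => ∑ n ∈ Finset.range N, (s1 * fB T (-(n + 1)) Z + fR T (-(n + 1)) Z) with hα
  set β : Set Pt → ℝ≥0∞ := fun Z => ∑ n ∈ Finset.range N, (s1 * 1 + i2 * fL T (-(n + 1)) Z) with hβ
  have e1 : ∑ n ∈ Finset.range N, (s1 * t3 T 1 (m + 1) + i2 * tF T 0 1 (1 + (m + 1)) (fL T (-(n + 1)))) =
      tF T 0 1 (1 + (m + 1)) β := by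
    rw [hβ, tF_sum]
    apply Finset.sum_congr rfl
    intro n _
    rw [tF_add, tF_mul, tF_mul]
    rfl
  have e2 : ∑ n ∈ Finset.range N, (s1 * pF T 0 1 (fB T (-(n + 1))) + pF T 0 1 (fR T (-(n + 1)))) =
      pF T 0 1 α := by
    rw [hα, pF_sum]
    apply Finset.sum_congr rfl
    intro n _
    rw [pF_add, pF_mul]
  have e3 : ∑ n ∈ Finset.range N, (s1 * tF T 0 1 (1 + (m + 1)) (fB T (-(n + 1))) +
        tF T 0 1 (1 + (m + 1)) (fR T (-(n + 1)))) = tF T 0 1 (1 + (m + 1)) α := by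
    rw [hα, tF_sum]
    apply Finset.sum_congr rfl
    intro n _
    rw [tF_add, tF_mul]
  have e4 : ∑ n ∈ Finset.range N, (s1 * t2 T 1 + i2 * pF T 0 1 (fL T (-(n + 1)))) = pF T 0 1 β := by
    rw [hβ, pF_sum]
    apply Finset.sum_congr rfl
    intro n _
    rw [pF_add, pF_mul, pF_mul]
    rfl
  rw [e1, e2, e3, e4, ← pF_mul, ← pF_mul]
  unfold tF
  rw [← pF_add, ← pF_add]
  apply pF_mono
  intro z s hs t ht
  set Z : Set Pt := ∅ ∪ vis (foot oo up 0) up s ∪ vis (foot oo up 1) up t with hZ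
  have hsZ : vis (foot oo up 0) up s ⊆ Z := fun x hx => Or.inl (Or.inr hx)
  -- the third walker is not seen
  have hsee : ∀ r ∈ BrE (St T) Z (foot oo up (1 + ((m : ℤ) + 1))) up Set.univ, ∀ n : ℕ,
      fB T (-(n + 1)) (Z ∪ vis (foot oo up (1 + ((m : ℤ) + 1))) up r) = fB T (-(n + 1)) Z ∧
      fL T (-(n + 1)) (Z ∪ vis (foot oo up (1 + ((m : ℤ) + 1))) up r) = fL T (-(n + 1)) Z ∧
      fR T (-(n + 1)) (Z ∪ vis (foot oo up (1 + ((m : ℤ) + 1))) up r) = fR T (-(n + 1)) Z := by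
    intro r hr n
    obtain ⟨h1, h2, h3⟩ := sees hT (e := -((n : ℤ) + 1)) (a := 0) (b := 1 + ((m : ℤ) + 1)) (by omega) (by omega)
      hs.1 hsZ hr.1
    unfold fB fL fR
    rw [h1, h2, h3]
    exact ⟨rfl, rfl, rfl⟩
  have g : ∀ F : Set Pt → ℝ≥0∞, (∀ r ∈ BrE (St T) Z (foot oo up (1 + ((m : ℤ) + 1))) up Set.univ,
      F (Z ∪ vis (foot oo up (1 + ((m : ℤ) + 1))) up r) = F Z) →
      overE (St T) (foot oo up (1 + ((m : ℤ) + 1))) up Set.univ F Z =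
        gf (BrE (St T) Z (foot oo up (1 + ((m : ℤ) + 1))) up Set.univ) * F Z := by
    intro F hF
    have h1 := overE_const_mul (St T) (foot oo up (1 + ((m : ℤ) + 1))) up Set.univ (F Z) (fun _ => 1) Z
    rw [overE_one] at h1
    rw [mul_comm, ← h1]
    apply overE_congr
    intro r hr
    rw [mul_one]
    exact hF r hr
  have gα := g α (by
    intro r hr
    rw [hα]
    apply Finset.sum_congr rfl
    intro n _
    obtain ⟨h1, _, h3⟩ := hsee r hr n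
    rw [h1, h3])
  have gβ := g β (by
    intro r hr
    rw [hβ]
    apply Finset.sum_congr rfl
    intro n _
    obtain ⟨_, h2, _⟩ := hsee r hr n
    rw [h2])
  rw [gα, gβ]
  apply omega_trick (gf_BrE_le _ _ _) _ (BT_ne_top hT)
  · rw [hβ]
    apply ENNReal.sum_ne_top.2
    intro n _
    apply ENNReal.add_ne_top.2
    refine ⟨ENNReal.mul_ne_top ENNReal.ofReal_ne_top ENNReal.one_ne_top, ENNReal.mul_ne_top ENNReal.ofReal_ne_top ?_⟩
    exact ne_top_of_le_ne_top (AT_ne_top hT) (fL_le _ _)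
  · -- beside_left
    have h1 := beside_left hT (r := 0) (Z := Z) hs.1 hsZ N
    rw [hα, hβ]
    unfold fB fL fR
    have e : ∀ m : ℕ, -((m : ℤ) + 1) = 0 - 1 - m := fun m => by ring
    simp only [e, mul_one]
    exact le_trans le_add_self h1

end Ex

end HexObs
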