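import Pool.Agent.HexPoly.Star

/-!
POLY: the inequality (*) in real numbers and its limit.
-/

set_option autoImplicit false

namespace HexObs

namespace Ex

open Complex Finset ENNReal Filter Topology

/-- the triples with adjacent tops and adjacent feet. -/
noncomputable def T3s (T : ℕ) : ℝ≥0∞ := ∑' n : ℕ, t3 T (n + 1) 1

lemma s1_ne : s1 ≠ ∞ := ENNReal.ofReal_ne_top
lemma s3_ne : s3 ≠ ∞ := ENNReal.ofReal_ne_top
lemma i2_ne : i2 ≠ ∞ := ENNReal.ofReal_ne_top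
lemma k2_ne : k2 ≠ ∞ := ENNReal.ofReal_ne_top

lemma s1_toReal : s1.toReal = Real.sin (Real.pi / 8) := ENNReal.toReal_ofReal sin8_pos.le
lemma s3_toReal : s3.toReal = Real.sin (3 * Real.pi / 8) := ENNReal.toReal_ofReal sin38_nonneg
lemma k2_toReal : k2.toReal = 1 - 1 / Real.sqrt 2 := by
  apply ENNReal.toReal_ofReal
  rw [one_sub_inv_sqrt]
  positivity

lemma toR44 {A1 A2 A3 A4 B1 B2 B3 B4 : ℝ≥0∞} (b1 : B1 ≠ ∞) (b2 : B2 ≠ ∞) (b3 : B3 ≠ ∞) (b4 : B4 ≠ ∞)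
    (h : A1 + A2 + A3 + A4 ≤ B1 + B2 + B3 + B4) :
    A1.toReal + A2.toReal + A3.toReal + A4.toReal ≤ B1.toReal + B2.toReal + B3.toReal + B4.toReal := by
  have hB : B1 + B2 + B3 + B4 ≠ ∞ := by
    simp only [ne_eq, ENNReal.add_eq_top, not_or]
    exact ⟨⟨⟨b1, b2⟩, b3⟩, b4⟩
  have hA := ne_top_of_le_ne_top hB h
  simp only [ne_eq, ENNReal.add_eq_top, not_or] at hA
  obtain ⟨⟨⟨a1, a2⟩, a3⟩, a4⟩ := hA
  have h1 := ENNReal.toReal_mono hB h
  rw [ENNReal.toReal_add (ENNReal.add_ne_top.2 ⟨ENNReal.add_ne_top.2 ⟨a1, a2⟩, a3⟩) a4,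
    ENNReal.toReal_add (ENNReal.add_ne_top.2 ⟨a1, a2⟩) a3, ENNReal.toReal_add a1 a2,
    ENNReal.toReal_add (ENNReal.add_ne_top.2 ⟨ENNReal.add_ne_top.2 ⟨b1, b2⟩, b3⟩) b4,
    ENNReal.toReal_add (ENNReal.add_ne_top.2 ⟨b1, b2⟩) b3, ENNReal.toReal_add b1 b2] at h1
  exact h1

lemma toR22 {A1 A2 B1 B2 : ℝ≥0∞} (b1 : B1 ≠ ∞) (b2 : B2 ≠ ∞) (h : A1 + A2 ≤ B1 + B2) :
    A1.toReal + A2.toReal ≤ B1.toReal + B2.toReal := by
  have hB : B1 + B2 ≠ ∞ := ENNReal.add_ne_top.2 ⟨b1, b2⟩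
  have hA := ENNReal.add_ne_top.1 (ne_top_of_le_ne_top hB h)
  have h1 := ENNReal.toReal_mono hB h
  rw [ENNReal.toReal_add hA.1 hA.2, ENNReal.toReal_add b1 b2] at h1
  exact h1

lemma tail_fin {T : ℕ} (hT : 1 ≤ T) (D : ℕ) : ∑ j ∈ Finset.range D, tail T (j + 1) ≠ ∞ :=
  ENNReal.sum_ne_top.2 fun _ _ => CB.tail_ne_top hT _

section

variable (T : ℕ)

/-- the terms of the summation. -/
noncomputable def aE (n m : ℕ) : ℝ≥0∞ := s1 * tF T 0 (n + 1) (n + 1 + 1) (fB T (n + 1 + 1 + (m + 1))) +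
  tF T 0 (n + 1) (n + 1 + 1) (fL T (n + 1 + 1 + (m + 1)))
noncomputable def bE (n m : ℕ) : ℝ≥0∞ := i2 * tF T 0 (n + 1) (n + 1 + 1) (fR T (n + 1 + 1 + (m + 1)))
noncomputable def cE (n m : ℕ) : ℝ≥0∞ := s1 * tF T 0 1 (1 + (m + 1)) (fB T (-(n + 1))) +
  tF T 0 1 (1 + (m + 1)) (fR T (-(n + 1)))
noncomputable def eE (n m : ℕ) : ℝ≥0∞ := i2 * tF T 0 1 (1 + (m + 1)) (fL T (-(n + 1)))
noncomputable def cO (n : ℕ) : ℝ≥0∞ := s1 * pF T 0 1 (fB T (-(n + 1))) + pF T 0 1 (fR T (-(n + 1)))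
noncomputable def eO (n : ℕ) : ℝ≥0∞ := i2 * pF T 0 1 (fL T (-(n + 1)))

variable {T}

lemma tri1_ne (hT : 1 ≤ T) (n : ℕ) : tF T 0 (n + 1) (n + 1 + 1) (fun _ => 1) ≠ ∞ := t3_ne_top hT n 1
lemma tri2_ne (hT : 1 ≤ T) (m : ℕ) : tF T 0 1 (1 + (m + 1)) (fun _ => 1) ≠ ∞ := by
  have h := t3_ne_top hT 0 (m + 1)
  simp only [Nat.cast_zero, zero_add] at h
  exact h

lemma aE_ne (hT : 1 ≤ T) (n m : ℕ) : aE T n m ≠ ∞ :=
  ENNReal.add_ne_top.2 ⟨ENNReal.mul_ne_top s1_ne (tF_fin ENNReal.one_ne_top (fB_le hT _) (tri1_ne hT n)),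
    tF_fin (AT_ne_top hT) (fL_le _) (tri1_ne hT n)⟩
lemma bE_ne (hT : 1 ≤ T) (n m : ℕ) : bE T n m ≠ ∞ :=
  ENNReal.mul_ne_top i2_ne (tF_fin (AT_ne_top hT) (fR_le _) (tri1_ne hT n))
lemma cE_ne (hT : 1 ≤ T) (n m : ℕ) : cE T n m ≠ ∞ :=
  ENNReal.add_ne_top.2 ⟨ENNReal.mul_ne_top s1_ne (tF_fin ENNReal.one_ne_top (fB_le hT _) (tri2_ne hT m)),
    tF_fin (AT_ne_top hT) (fR_le _) (tri2_ne hT m)⟩
lemma eE_ne (hT : 1 ≤ T) (n m : ℕ) : eE T n m ≠ ∞ :=
  ENNReal.mul_ne_top i2_ne (tF_fin (AT_ne_top hT) (fL_le _) (tri2_ne hT m))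
lemma cO_ne (hT : 1 ≤ T) (n : ℕ) : cO T n ≠ ∞ :=
  ENNReal.add_ne_top.2 ⟨ENNReal.mul_ne_top s1_ne (pF_fin ENNReal.one_ne_top (fB_le hT _) (t2_one_ne_top hT)),
    pF_fin (AT_ne_top hT) (fR_le _) (t2_one_ne_top hT)⟩
lemma eO_ne (hT : 1 ≤ T) (n : ℕ) : eO T n ≠ ∞ :=
  ENNReal.mul_ne_top i2_ne (pF_fin (AT_ne_top hT) (fL_le _) (t2_one_ne_top hT))

lemma t3_one_ne (hT : 1 ≤ T) (m : ℤ) : t3 T 1 m ≠ ∞ := by
  have h := t3_ne_top hT 0 m
  simp only [Nat.cast_zero, zero_add] at h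
  exact h

lemma t3_two_ne (hT : 1 ≤ T) (n : ℕ) (m : ℤ) : t3 T (n + 1 + 1) m ≠ ∞ := by
  have h := t3_ne_top hT (n + 1) m
  push_cast at h
  exact h

/-- I4 in real numbers. -/
lemma I4_R (hT : 1 ≤ T) (n m : ℕ) :
    Real.sin (3 * Real.pi / 8) * (t3 T (n + 1 + 1) (m + 1)).toReal +
      Real.sin (Real.pi / 8) * (t3 T (n + 1) 1).toReal + (bE T n m).toReal + (cE T n m).toReal ≤
    Real.sin (3 * Real.pi / 8) * (t3 T (n + 1) (m + 1 + 1)).toReal + (aE T n m).toReal +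
      Real.sin (Real.pi / 8) * (t3 T 1 (m + 1)).toReal + (eE T n m).toReal := by
  have h := I4_sum hT (noTop hT) (n := n + 1) (m := m + 1) (by omega) (by omega)
  have h' : s3 * t3 T (n + 1 + 1) (m + 1) + s1 * t3 T (n + 1) 1 + bE T n m + cE T n m ≤
      s3 * t3 T (n + 1) (m + 1 + 1) + aE T n m + s1 * t3 T 1 (m + 1) + eE T n m := by
    unfold bE cE aE eE fB fL fR
    calc _ = _ := by rw [← add_assoc]
      _ ≤ _ := h
      _ = _ := by
        congr 2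
        rw [add_assoc]
  have h1 := toR44 (ENNReal.mul_ne_top s3_ne (t3_ne_top hT n (m + 1 + 1))) (aE_ne hT n m)
    (ENNReal.mul_ne_top s1_ne (t3_one_ne hT (m + 1))) (eE_ne hT n m) h'
  rw [ENNReal.toReal_mul, ENNReal.toReal_mul, ENNReal.toReal_mul, ENNReal.toReal_mul, s1_toReal, s3_toReal] at h1
  exact h1

lemma I3_R (hT : 1 ≤ T) (n : ℕ) :
    Real.sin (Real.pi / 8) * (t2 T 1).toReal + (eO T n).toReal +
      Real.sin (3 * Real.pi / 8) * (t2 T (n + 1)).toReal ≤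
    (cO T n).toReal + Real.sin (3 * Real.pi / 8) * (t2 T (n + 1 + 1)).toReal +
      Real.sin (3 * Real.pi / 8) * (t3 T (n + 1) 1).toReal := by
  have h := I3_sum hT (n := n + 1) (by omega)
  have h' : s1 * t2 T 1 + eO T n + s3 * t2 T (n + 1) + 0 ≤
      cO T n + s3 * t2 T (n + 1 + 1) + s3 * t3 T (n + 1) 1 + 0 := by
    rw [add_zero, add_zero]
    exact h
  have hn : t2 T (n + 1 + 1) ≠ ∞ := by
    have := t2_ne_top hT (n + 1)
    push_cast at this
    exact this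
  have h1 := toR44 (cO_ne hT n) (ENNReal.mul_ne_top s3_ne hn) (ENNReal.mul_ne_top s3_ne (t3_ne_top hT n 1))
    ENNReal.zero_ne_top h'
  rw [ENNReal.toReal_mul, ENNReal.toReal_mul, ENNReal.toReal_mul, ENNReal.toReal_mul, s1_toReal, s3_toReal,
    ENNReal.toReal_zero, add_zero, add_zero] at h1
  exact h1

lemma R_R (hT : 1 ≤ T) (n D : ℕ) :
    (1 - 1 / Real.sqrt 2) * (∑ j ∈ Finset.range D, (tail T (j + 1)).toReal) * (t3 T (n + 1) 1).toReal +
      ∑ m ∈ Finset.range D, (aE T n m).toReal ≤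
    D * (Real.sin (Real.pi / 8) * (t3 T (n + 1) 1).toReal) + ∑ m ∈ Finset.range D, (bE T n m).toReal := by
  have h := R_E hT n D
  have h' : k2 * (∑ j ∈ Finset.range D, tail T (j + 1)) * t3 T (n + 1) 1 + ∑ m ∈ Finset.range D, aE T n m ≤
      D * (s1 * t3 T (n + 1) 1) + ∑ m ∈ Finset.range D, bE T n m := by
    unfold aE bE
    refine h.trans (le_of_eq ?_)
    rw [Finset.sum_add_distrib, Finset.sum_const, Finset.card_range, nsmul_eq_mul]
  have h1 := toR22 (ENNReal.mul_ne_top (ENNReal.natCast_ne_top D) (ENNReal.mul_ne_top s1_ne (t3_ne_top hT n 1)))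
    (ENNReal.sum_ne_top.2 fun m _ => bE_ne hT n m) h'
  rw [ENNReal.toReal_sum (fun m _ => aE_ne hT n m), ENNReal.toReal_sum (fun m _ => bE_ne hT n m),
    ENNReal.toReal_mul, ENNReal.toReal_mul, ENNReal.toReal_mul, ENNReal.toReal_mul, s1_toReal, k2_toReal,
    ENNReal.toReal_sum (fun j _ => CB.tail_ne_top hT _), ENNReal.toReal_natCast] at h1
  exact h1

lemma L_R (hT : 1 ≤ T) (N : ℕ) :
    (1 - 1 / Real.sqrt 2) * (∑ j ∈ Finset.range N, (tail T (j + 1)).toReal) * (t2 T 1).toReal +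
      ∑ n ∈ Finset.range N, (cO T n).toReal ≤
    N * (Real.sin (Real.pi / 8) * (t2 T 1).toReal) + ∑ n ∈ Finset.range N, (eO T n).toReal := by
  have h := L_E hT N
  have h' : k2 * (∑ j ∈ Finset.range N, tail T (j + 1)) * t2 T 1 + ∑ n ∈ Finset.range N, cO T n ≤
      N * (s1 * t2 T 1) + ∑ n ∈ Finset.range N, eO T n := by
    unfold cO eO
    refine h.trans (le_of_eq ?_)
    rw [Finset.sum_add_distrib, Finset.sum_const, Finset.card_range, nsmul_eq_mul]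
  have h1 := toR22 (ENNReal.mul_ne_top (ENNReal.natCast_ne_top N) (ENNReal.mul_ne_top s1_ne (t2_one_ne_top hT)))
    (ENNReal.sum_ne_top.2 fun m _ => eO_ne hT m) h'
  rw [ENNReal.toReal_sum (fun m _ => cO_ne hT m), ENNReal.toReal_sum (fun m _ => eO_ne hT m),
    ENNReal.toReal_mul, ENNReal.toReal_mul, ENNReal.toReal_mul, ENNReal.toReal_mul, s1_toReal, k2_toReal,
    ENNReal.toReal_sum (fun j _ => CB.tail_ne_top hT _), ENNReal.toReal_natCast] at h1
  exact h1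

lemma W_R (hT : 1 ≤ T) (N m : ℕ) :
    N * (Real.sin (Real.pi / 8) * (t3 T 1 (m + 1)).toReal) + ∑ n ∈ Finset.range N, (eE T n m).toReal +
      bT T * ∑ n ∈ Finset.range N, (cO T n).toReal ≤
    ∑ n ∈ Finset.range N, (cE T n m).toReal +
      bT T * (N * (Real.sin (Real.pi / 8) * (t2 T 1).toReal) + ∑ n ∈ Finset.range N, (eO T n).toReal) := by
  have h := W_E hT N m
  have h' : N * (s1 * t3 T 1 (m + 1)) + ∑ n ∈ Finset.range N, eE T n m + BT T * ∑ n ∈ Finset.range N, cO T n + 0 ≤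
      ∑ n ∈ Finset.range N, cE T n m + BT T * (N * (s1 * t2 T 1)) + BT T * ∑ n ∈ Finset.range N, eO T n + 0 := by
    rw [add_zero, add_zero]
    unfold cO eO eE cE
    rw [Finset.sum_add_distrib, Finset.sum_const, Finset.card_range, nsmul_eq_mul,
      Finset.sum_add_distrib (f := fun _ => s1 * t2 T 1), Finset.sum_const, Finset.card_range, nsmul_eq_mul,
      mul_add] at h
    rw [add_assoc (∑ n ∈ Finset.range N, _)]
    exact h
  have hs : ∑ n ∈ Finset.range N, cE T n m ≠ ∞ := ENNReal.sum_ne_top.2 fun n _ => cE_ne hT n m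
  have hs2 : ∑ n ∈ Finset.range N, eO T n ≠ ∞ := ENNReal.sum_ne_top.2 fun n _ => eO_ne hT n
  have h1 := toR44 hs (ENNReal.mul_ne_top (BT_ne_top hT) (ENNReal.mul_ne_top (ENNReal.natCast_ne_top N)
    (ENNReal.mul_ne_top s1_ne (t2_one_ne_top hT)))) (ENNReal.mul_ne_top (BT_ne_top hT) hs2) ENNReal.zero_ne_top h'
  rw [ENNReal.toReal_mul, ENNReal.toReal_mul, ENNReal.toReal_mul, ENNReal.toReal_mul, ENNReal.toReal_mul,
    ENNReal.toReal_mul, ENNReal.toReal_mul, s1_toReal, ENNReal.toReal_natCast, ENNReal.toReal_zero, add_zero, add_zero,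
    ENNReal.toReal_sum (fun n _ => cE_ne hT n m), ENNReal.toReal_sum (fun n _ => eE_ne hT n m),
    ENNReal.toReal_sum (fun n _ => cO_ne hT n), ENNReal.toReal_sum (fun n _ => eO_ne hT n)] at h1
  have hb : bT T = (BT T).toReal := rfl
  rw [hb]
  linarith

/-- the main inequality for finitely many explorers. -/
theorem star_N (hT : 1 ≤ T) (N D : ℕ) :
    (∑ n ∈ Finset.range N, (t3 T (n + 1) 1).toReal) *
      ((1 - 1 / Real.sqrt 2) * (∑ j ∈ Finset.range D, (tail T (j + 1)).toReal) +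
        Real.sin (3 * Real.pi / 8) * (1 - D * bT T)) ≤
    Real.sin (3 * Real.pi / 8) * (bT T * ∑ n ∈ Finset.range N, (t2 T (n + 1)).toReal) +
      D * bT T * (Real.sin (3 * Real.pi / 8) * (t2 T (N + 1)).toReal) := by
  have h := star_num (N := N) (D := D) (s1 := Real.sin (Real.pi / 8)) (s3 := Real.sin (3 * Real.pi / 8))
    (k := 1 - 1 / Real.sqrt 2) (u := bT T) (tlD := ∑ j ∈ Finset.range D, (tail T (j + 1)).toReal)
    (r := (t2 T 1).toReal) sin38_nonneg (bT_nonneg T) (fun n => (t2 T (n : ℤ)).toReal)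
    (fun n => (eO T n).toReal) (fun n => (cO T n).toReal) (fun n m => (aE T n m).toReal)
    (fun n m => (bE T n m).toReal) (fun n m => (cE T n m).toReal) (fun n m => (eE T n m).toReal)
    (fun n m => (t3 T (n : ℤ) (m : ℤ)).toReal) (by simp) (fun _ _ => ENNReal.toReal_nonneg)
    (by
      intro m _
      have h1 := ENNReal.toReal_mono (ENNReal.mul_ne_top (BT_ne_top hT) (t2_one_ne_top hT)) (t3_le T 1 (m + 1))
      rw [ENNReal.toReal_mul] at h1
      push_cast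
      exact h1)
    (by
      intro n _
      have h1 := ENNReal.toReal_mono (ENNReal.mul_ne_top (BT_ne_top hT) (t2_ne_top hT n)) (t3_le T (n + 1) (D + 1))
      rw [ENNReal.toReal_mul] at h1
      push_cast
      exact h1)
    (by
      intro n _ m _
      have h1 := I4_R hT n m
      push_cast
      rw [show (n : ℤ) + 2 = n + 1 + 1 by ring, show (m : ℤ) + 2 = m + 1 + 1 by ring]
      exact h1)
    (by
      intro n _
      have h1 := R_R hT n D
      push_cast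
      exact h1)
    (by
      intro m _
      have h1 := W_R hT N m
      push_cast
      exact h1)
    (by
      intro n _
      have h1 := I3_R hT n
      push_cast
      rw [show (n : ℤ) + 2 = n + 1 + 1 by ring]
      exact h1)
  push_cast at h
  exact h

theorem star2_N (hT : 1 ≤ T) (N : ℕ) :
    (t2 T 1).toReal * ((1 - 1 / Real.sqrt 2) * (∑ j ∈ Finset.range N, (tail T (j + 1)).toReal) +
        Real.sin (3 * Real.pi / 8)) ≤
    Real.sin (3 * Real.pi / 8) * ((t2 T (N + 1)).toReal + ∑ n ∈ Finset.range N, (t3 T (n + 1) 1).toReal) := by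
  have h := star_num2 (N := N) (s1 := Real.sin (Real.pi / 8)) (s3 := Real.sin (3 * Real.pi / 8))
    (k := 1 - 1 / Real.sqrt 2) (tlN := ∑ j ∈ Finset.range N, (tail T (j + 1)).toReal)
    (r := (t2 T 1).toReal) (fun n => (t2 T (n : ℤ)).toReal)
    (fun n => (eO T n).toReal) (fun n => (cO T n).toReal)
    (fun n => (t3 T (n + 1) 1).toReal) (by simp)
    (by
      intro n _
      have h1 := I3_R hT n
      push_cast
      rw [show (n : ℤ) + 2 = n + 1 + 1 by ring]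
      exact h1)
    (L_R hT N)
  push_cast at h
  exact h

/-! the limit -/

lemma T3s_ne (hT : 1 ≤ T) : T3s T ≠ ∞ := by
  have h : T3s T ≤ BT T * ∑' n : ℕ, t2 T (n + 1) := by
    rw [← ENNReal.tsum_mul_left]
    exact ENNReal.tsum_le_tsum fun n => t3_le T (n + 1) 1
  exact ne_top_of_le_ne_top (ENNReal.mul_ne_top (BT_ne_top hT) (t2_tsum_ne_top hT)) h

lemma T3s_tendsto (hT : 1 ≤ T) :
    Tendsto (fun N => ∑ n ∈ Finset.range N, (t3 T (n + 1) 1).toReal) atTop (𝓝 (T3s T).toReal) := by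
  have h1 := (ENNReal.summable (f := fun n : ℕ => t3 T (n + 1) 1)).hasSum.tendsto_sum_nat
  have h2 := (ENNReal.tendsto_toReal (T3s_ne hT)).comp h1
  refine h2.congr (fun N => ?_)
  exact ENNReal.toReal_sum (fun n _ => t3_ne_top hT n 1)

lemma t2_tendsto (hT : 1 ≤ T) : Tendsto (fun N : ℕ => (t2 T (N + 1)).toReal) atTop (𝓝 0) := by
  have h1 : Tendsto (fun N : ℕ => t2 T (N + 1)) atTop (𝓝 0) :=
    ENNReal.tendsto_atTop_zero_of_tsum_ne_top (t2_tsum_ne_top hT)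
  exact limE h1

lemma t2_sum_le (hT : 1 ≤ T) (N : ℕ) : ∑ n ∈ Finset.range N, (t2 T (n + 1)).toReal ≤ (Pi2 T 1).toReal := by
  rw [← ENNReal.toReal_sum (fun n _ => t2_ne_top hT n)]
  apply ENNReal.toReal_mono (Pi2_ne_top hT 1)
  exact (ENNReal.sum_le_tsum _).trans (sum_t2 hT)

/-- (*) -/
theorem starI (hT : 1 ≤ T) (D : ℕ) :
    (T3s T).toReal * ((1 - 1 / Real.sqrt 2) * ∑ j ∈ Finset.range D, (tail T (j + 1)).toReal +
      Real.sin (3 * Real.pi / 8) * (1 - D * bT T)) ≤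
        Real.sin (3 * Real.pi / 8) * (bT T * (Pi2 T 1).toReal) := by
  have h1 := (T3s_tendsto hT).mul_const ((1 - 1 / Real.sqrt 2) * ∑ j ∈ Finset.range D, (tail T (j + 1)).toReal +
      Real.sin (3 * Real.pi / 8) * (1 - D * bT T))
  have h2 := (((t2_tendsto hT).const_mul (Real.sin (3 * Real.pi / 8))).const_mul (D * bT T)).const_add
    (Real.sin (3 * Real.pi / 8) * (bT T * (Pi2 T 1).toReal))
  rw [mul_zero, mul_zero, add_zero] at h2
  apply le_of_tendsto_of_tendsto' h1 h2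
  intro N
  refine (star_N hT N D).trans ?_
  have h3 := mul_le_mul_of_nonneg_left (mul_le_mul_of_nonneg_left (t2_sum_le hT N) (bT_nonneg T)) sin38_nonneg
  linarith

/-- pairs with adjacent feet and adjacent tops. -/
theorem starII (hT : 1 ≤ T) (D : ℕ) :
    (t2 T 1).toReal * ((1 - 1 / Real.sqrt 2) * ∑ j ∈ Finset.range D, (tail T (j + 1)).toReal +
      Real.sin (3 * Real.pi / 8)) ≤ Real.sin (3 * Real.pi / 8) * (T3s T).toReal := by
  have h2 := ((t2_tendsto hT).add (T3s_tendsto hT)).const_mul (Real.sin (3 * Real.pi / 8))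
  rw [zero_add] at h2
  apply ge_of_tendsto h2
  filter_upwards [eventually_ge_atTop D] with N hN
  refine le_trans ?_ (star2_N hT N)
  apply mul_le_mul_of_nonneg_left _ ENNReal.toReal_nonneg
  have h3 : ∑ j ∈ Finset.range D, (tail T (j + 1)).toReal ≤ ∑ j ∈ Finset.range N, (tail T (j + 1)).toReal :=
    Finset.sum_le_sum_of_subset_of_nonneg (Finset.range_mono hN) (fun _ _ _ => ENNReal.toReal_nonneg)
  have h4 : 0 ≤ 1 - 1 / Real.sqrt 2 := by
    rw [one_sub_inv_sqrt]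
    positivity
  have h5 := mul_le_mul_of_nonneg_left h3 h4
  linarith

end

end Ex

end HexObs
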