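import Pool.Agent.HexPoly.SumZ

/-!
POLY: the inequalities I4 and I3 summed over the tops, translated.
-/

set_option autoImplicit false

namespace HexObs

namespace Ex

open Complex Finset ENNReal

lemma Br_shift (T : ℕ) (a k : ℤ) (Y : Set Pt) :
    Br (St T) Y (foot oo up (a + k)) up = Br (St T) ((fun p => p + k • hz up) ⁻¹' Y) (foot oo up a) up := by
  unfold St
  rw [HexW.foot_add, HexW.Br_trans, HexW.strip_trans]

lemma Dn_shift (T : ℕ) (a k : ℤ) (Y : Set Pt) :
    Dn (St T) Y (foot oo up (a + k)) up = Dn (St T) ((fun p => p + k • hz up) ⁻¹' Y) (foot oo up a) up := by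
  have e : ∀ (Ω : Set Pt) (v c : Pt), Dn Ω Y (v + c) up =
      Dn ((fun p => p + c) ⁻¹' Ω) ((fun p => p + c) ⁻¹' Y) v up := by
    intro Ω v c
    ext t
    unfold Dn
    simp only [Set.mem_ofPred_eq]
    rw [HexW.saw_trans, HexW.tip_trans]
    rfl
  unfold St
  rw [HexW.foot_add, e, HexW.strip_trans]

lemma tip_shift (a k : ℤ) (t : List Bool) :
    tip (foot oo up (a + k)) up t - foot oo up (a + k) = tip (foot oo up a) up t - foot oo up a := by
  rw [HexW.foot_add, HexW.tip_trans]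
  abel

lemma DnL_shift (T : ℕ) (a k : ℤ) (Y : Set Pt) :
    DnL (St T) Y (foot oo up (a + k)) up = DnL (St T) ((fun p => p + k • hz up) ⁻¹' Y) (foot oo up a) up := by
  unfold DnL
  rw [Dn_shift]
  ext t
  simp only [Set.mem_ofPred_eq]
  rw [tip_shift]

lemma DnR_shift (T : ℕ) (a k : ℤ) (Y : Set Pt) :
    DnR (St T) Y (foot oo up (a + k)) up = DnR (St T) ((fun p => p + k • hz up) ⁻¹' Y) (foot oo up a) up := by
  unfold DnR
  rw [Dn_shift]
  ext t
  simp only [Set.mem_ofPred_eq]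
  rw [tip_shift]

/-- the statement of no_top. -/
def NoTop (T : ℕ) : Prop := ∀ (a b c : ℤ), a < b → b < c → ∀ (z : ℤ) (X Y Z : Set Pt) (s t : List Bool),
  s ∈ BrE (St T) X (foot oo up a) up (col z) → t ∈ BrE (St T) Y (foot oo up c) up (col (z + 2)) →
    vis (foot oo up a) up s ⊆ Z → vis (foot oo up c) up t ⊆ Z → Br (St T) Z (foot oo up b) up = ∅

lemma gf_empty : gf (∅ : Set (List Bool)) = 0 := by
  unfold gf
  exact tsum_empty

lemma overE_zero {Ω : Set Pt} {v d0 : Pt} {W : Set Pt} {F : Set Pt → ℝ≥0∞} {X : Set Pt}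
    (h : ∀ s ∈ BrE Ω X v d0 W, F (X ∪ vis v d0 s) = 0) : overE Ω v d0 W F X = 0 := by
  unfold overE
  rw [ENNReal.tsum_eq_zero]
  intro s
  by_cases hs : s ∈ BrE Ω X v d0 W
  · rw [Set.indicator_of_mem hs, h s hs, mul_zero]
  · rw [Set.indicator_of_notMem hs]

lemma q3_zero {T : ℕ} (hno : NoTop T) {a b c : ℤ} (hab : a < b) (z : ℤ) (U : Set Pt) :
    Q3E (St T) oo up a (col z) (b + 1) (col (z + 2)) c U (fun Z => Br (St T) Z (foot oo up b) up) ∅ = 0 := by
  unfold Q3E Q2E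
  apply overE_zero
  intro s hs
  apply overE_zero
  intro t ht
  apply overE_zero
  intro r hr
  have h := hno a b (b + 1) hab (by omega) z _ _
    (∅ ∪ vis (foot oo up a) up s ∪ vis (foot oo up (b + 1)) up t ∪ vis (foot oo up c) up r) s t hs ht
    (fun x hx => Or.inl (Or.inl (Or.inr hx))) (fun x hx => Or.inl (Or.inr hx))
  show gf (Br (St T) (∅ ∪ vis (foot oo up a) up s ∪ vis (foot oo up (b + 1)) up t ∪ vis (foot oo up c) up r)
    (foot oo up b) up) = 0
  rw [h]
  exact gf_empty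

/-- FOUR EXPLORERS, summed over the tops. -/
theorem I4_sum {T : ℕ} (hT : 1 ≤ T) (hno : NoTop T) {n m : ℤ} (hn : 1 ≤ n) (hm : 1 ≤ m) :
    s3 * t3 T (n + 1) m + s1 * t3 T n 1 +
      i2 * tF T 0 n (n + 1) (fun Z => gf (DnR (St T) Z (foot oo up (n + 1 + m)) up)) +
      s1 * tF T 0 1 (1 + m) (fun Z => gf (Br (St T) Z (foot oo up (-n)) up)) +
      tF T 0 1 (1 + m) (fun Z => gf (DnR (St T) Z (foot oo up (-n)) up)) ≤
    s3 * t3 T n (m + 1) +
      s1 * tF T 0 n (n + 1) (fun Z => gf (Br (St T) Z (foot oo up (n + 1 + m)) up)) +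
      tF T 0 n (n + 1) (fun Z => gf (DnL (St T) Z (foot oo up (n + 1 + m)) up)) +
      s1 * t3 T 1 m +
      i2 * tF T 0 1 (1 + m) (fun Z => gf (DnL (St T) Z (foot oo up (-n)) up)) := by
  have e1 : t3 T (n + 1) m = ∑' z : ℤ, P3E (St T) oo up 0 (col z) (n + 1) (col (z + 2)) (n + 1 + m) Set.univ ∅ :=
    tF_one T 0 (n + 1) (n + 1 + m)
  have e2 : t3 T n 1 = ∑' z : ℤ, P3E (St T) oo up 0 (col z) n (col (z + 2)) (n + 1) Set.univ ∅ :=
    tF_one T 0 n (n + 1)
  have e3 : t3 T n (m + 1) = ∑' z : ℤ, P3E (St T) oo up 0 (col z) n (col (z + 2)) (n + 1 + m) Set.univ ∅ := by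
    unfold t3
    rw [show n + (m + 1) = n + 1 + m by ring]
    exact tF_one T 0 n (n + 1 + m)
  have e4 : t3 T 1 m = ∑' z : ℤ, P3E (St T) oo up n (col z) (n + 1) (col (z + 2)) (n + 1 + m) Set.univ ∅ := by
    rw [← t3_foot T n 1 m]
    exact tF_one T n (n + 1) (n + 1 + m)
  have f1 : tF T 0 1 (1 + m) (fun Z => gf (Br (St T) Z (foot oo up (-n)) up)) =
      ∑' z : ℤ, Q3E (St T) oo up n (col z) (n + 1) (col (z + 2)) (n + 1 + m) Set.univ
        (fun Z => Br (St T) Z (foot oo up 0) up) ∅ := by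
    rw [← tF_gf, ← tF_trans T 0 1 (1 + m) n (F := fun Z => gf (Br (St T) Z (foot oo up 0) up))]
    · rw [zero_add, add_comm 1 n, show 1 + m + n = n + 1 + m by ring]
    · intro Y
      have := Br_shift T (-n) n Y
      rw [neg_add_cancel] at this
      rw [this]
  have f2 : tF T 0 1 (1 + m) (fun Z => gf (DnR (St T) Z (foot oo up (-n)) up)) =
      ∑' z : ℤ, Q3E (St T) oo up n (col z) (n + 1) (col (z + 2)) (n + 1 + m) Set.univ
        (fun Z => DnR (St T) Z (foot oo up 0) up) ∅ := by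
    rw [← tF_gf, ← tF_trans T 0 1 (1 + m) n (F := fun Z => gf (DnR (St T) Z (foot oo up 0) up))]
    · rw [zero_add, add_comm 1 n, show 1 + m + n = n + 1 + m by ring]
    · intro Y
      have := DnR_shift T (-n) n Y
      rw [neg_add_cancel] at this
      rw [this]
  have f3 : tF T 0 1 (1 + m) (fun Z => gf (DnL (St T) Z (foot oo up (-n)) up)) =
      ∑' z : ℤ, Q3E (St T) oo up n (col z) (n + 1) (col (z + 2)) (n + 1 + m) Set.univ
        (fun Z => DnL (St T) Z (foot oo up 0) up) ∅ := by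
    rw [← tF_gf, ← tF_trans T 0 1 (1 + m) n (F := fun Z => gf (DnL (St T) Z (foot oo up 0) up))]
    · rw [zero_add, add_comm 1 n, show 1 + m + n = n + 1 + m by ring]
    · intro Y
      have := DnL_shift T (-n) n Y
      rw [neg_add_cancel] at this
      rw [this]
  rw [e1, e2, e3, e4, f1, f2, f3, tF_gf, tF_gf, tF_gf]
  simp only [← ENNReal.tsum_mul_left, ← ENNReal.tsum_add]
  apply ENNReal.tsum_le_tsum
  intro z
  have h := I4_E hT (col z) (col (z + 2)) Set.univ (a := 0) (b := n) (c := n + 1 + m) (by omega) (by omega)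
  rw [q3_zero hno (by omega : (0 : ℤ) < n) z Set.univ, mul_zero, add_zero] at h
  exact h

/-- THREE EXPLORERS, summed over the tops. -/
theorem I3_sum {T : ℕ} (hT : 1 ≤ T) {n : ℤ} (hn : 1 ≤ n) :
    s1 * t2 T 1 + i2 * pF T 0 1 (fun Z => gf (DnL (St T) Z (foot oo up (-n)) up)) + s3 * t2 T n ≤
      s1 * pF T 0 1 (fun Z => gf (Br (St T) Z (foot oo up (-n)) up)) +
        pF T 0 1 (fun Z => gf (DnR (St T) Z (foot oo up (-n)) up)) + s3 * t2 T (n + 1) + s3 * t3 T n 1 := by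
  have e1 : t2 T 1 = ∑' z : ℤ, P2E (St T) oo up n (col z) (n + 1) (col (z + 2)) ∅ := by
    rw [← t2_foot T n 1]
    exact pF_one T n (n + 1)
  have e2 : t2 T n = ∑' z : ℤ, P2E (St T) oo up 0 (col z) n (col (z + 2)) ∅ := pF_one T 0 n
  have e3 : t2 T (n + 1) = ∑' z : ℤ, P2E (St T) oo up 0 (col z) (n + 1) (col (z + 2)) ∅ := pF_one T 0 (n + 1)
  have e4 : t3 T n 1 = ∑' z : ℤ, Q2E (St T) oo up 0 (col z) n (col (z + 2))
      (fun Z => Br (St T) Z (foot oo up (n + 1)) up) ∅ := by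
    unfold t3
    rw [tF_one]
    unfold P3E
    apply tsum_congr
    intro z
    congr 1
    funext Z
    exact brE_univ _ _ _ _
  have f1 : pF T 0 1 (fun Z => gf (Br (St T) Z (foot oo up (-n)) up)) =
      ∑' z : ℤ, Q2E (St T) oo up n (col z) (n + 1) (col (z + 2)) (fun Z => Br (St T) Z (foot oo up 0) up) ∅ := by
    rw [← pF_gf, ← pF_trans T 0 1 n (F := fun Z => gf (Br (St T) Z (foot oo up 0) up))]
    · rw [zero_add, add_comm 1 n]
    · intro Y
      have := Br_shift T (-n) n Y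
      rw [neg_add_cancel] at this
      rw [this]
  have f2 : pF T 0 1 (fun Z => gf (DnR (St T) Z (foot oo up (-n)) up)) =
      ∑' z : ℤ, Q2E (St T) oo up n (col z) (n + 1) (col (z + 2)) (fun Z => DnR (St T) Z (foot oo up 0) up) ∅ := by
    rw [← pF_gf, ← pF_trans T 0 1 n (F := fun Z => gf (DnR (St T) Z (foot oo up 0) up))]
    · rw [zero_add, add_comm 1 n]
    · intro Y
      have := DnR_shift T (-n) n Y
      rw [neg_add_cancel] at this
      rw [this]
  have f3 : pF T 0 1 (fun Z => gf (DnL (St T) Z (foot oo up (-n)) up)) =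
      ∑' z : ℤ, Q2E (St T) oo up n (col z) (n + 1) (col (z + 2)) (fun Z => DnL (St T) Z (foot oo up 0) up) ∅ := by
    rw [← pF_gf, ← pF_trans T 0 1 n (F := fun Z => gf (DnL (St T) Z (foot oo up 0) up))]
    · rw [zero_add, add_comm 1 n]
    · intro Y
      have := DnL_shift T (-n) n Y
      rw [neg_add_cancel] at this
      rw [this]
  rw [e1, e2, e3, e4, f1, f2, f3]
  simp only [← ENNReal.tsum_mul_left, ← ENNReal.tsum_add]
  apply ENNReal.tsum_le_tsum
  intro z
  exact I3_E hT (col z) (col (z + 2)) (a := 0) (b := n) (by omega)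

end Ex

end HexObs
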