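import Pool.Agent.HexPoly.LimI

/-!
POLY: the inequalities I4 and I3 summed over the tops.
-/

set_option autoImplicit false

namespace HexObs

namespace Ex

open Complex Finset ENNReal

/-- sin (pi / 8) -/
noncomputable def s1 : ℝ≥0∞ := ENNReal.ofReal (Real.sin (Real.pi / 8))
/-- sin (3 pi / 8) -/
noncomputable def s3 : ℝ≥0∞ := ENNReal.ofReal (Real.sin (3 * Real.pi / 8))
/-- 1 / sqrt 2 -/
noncomputable def i2 : ℝ≥0∞ := ENNReal.ofReal (1 / Real.sqrt 2)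
/-- 1 - 1 / sqrt 2 -/
noncomputable def k2 : ℝ≥0∞ := ENNReal.ofReal (1 - 1 / Real.sqrt 2)

lemma oR {c : ℝ} (hc : 0 ≤ c) {X : ℝ≥0∞} (hX : X ≠ ∞) :
    ENNReal.ofReal c * X = ENNReal.ofReal (c * X.toReal) := by
  rw [ENNReal.ofReal_mul hc, ENNReal.ofReal_toReal hX]

lemma oR1 {X : ℝ≥0∞} (hX : X ≠ ∞) : X = ENNReal.ofReal X.toReal := (ENNReal.ofReal_toReal hX).symm

lemma oRd {X : ℝ≥0∞} (hX : X ≠ ∞) :
    ENNReal.ofReal (1 / Real.sqrt 2) * X = ENNReal.ofReal (X.toReal / Real.sqrt 2) := by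
  rw [oR (by positivity) hX]
  congr 1
  ring

lemma add56 {x1 x2 x3 x4 x5 y1 y2 y3 y4 y5 y6 : ℝ} (a1 : 0 ≤ x1) (a2 : 0 ≤ x2) (a3 : 0 ≤ x3) (a4 : 0 ≤ x4)
    (a5 : 0 ≤ x5) (b1 : 0 ≤ y1) (b2 : 0 ≤ y2) (b3 : 0 ≤ y3) (b4 : 0 ≤ y4) (b5 : 0 ≤ y5) (b6 : 0 ≤ y6)
    (h : x1 + x2 + x3 + x4 + x5 ≤ y1 + y2 + y3 + y4 + y5 + y6) :
    ENNReal.ofReal x1 + ENNReal.ofReal x2 + ENNReal.ofReal x3 + ENNReal.ofReal x4 + ENNReal.ofReal x5 ≤
      ENNReal.ofReal y1 + ENNReal.ofReal y2 + ENNReal.ofReal y3 + ENNReal.ofReal y4 + ENNReal.ofReal y5 +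
        ENNReal.ofReal y6 := by
  rw [← ENNReal.ofReal_add a1 a2, ← ENNReal.ofReal_add (by positivity) a3, ← ENNReal.ofReal_add (by positivity) a4,
    ← ENNReal.ofReal_add (by positivity) a5, ← ENNReal.ofReal_add b1 b2, ← ENNReal.ofReal_add (by positivity) b3,
    ← ENNReal.ofReal_add (by positivity) b4, ← ENNReal.ofReal_add (by positivity) b5,
    ← ENNReal.ofReal_add (by positivity) b6]
  exact ENNReal.ofReal_le_ofReal h

lemma add34 {x1 x2 x3 y1 y2 y3 y4 : ℝ} (a1 : 0 ≤ x1) (a2 : 0 ≤ x2) (a3 : 0 ≤ x3) (b1 : 0 ≤ y1) (b2 : 0 ≤ y2)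
    (b3 : 0 ≤ y3) (b4 : 0 ≤ y4) (h : x1 + x2 + x3 ≤ y1 + y2 + y3 + y4) :
    ENNReal.ofReal x1 + ENNReal.ofReal x2 + ENNReal.ofReal x3 ≤
      ENNReal.ofReal y1 + ENNReal.ofReal y2 + ENNReal.ofReal y3 + ENNReal.ofReal y4 := by
  rw [← ENNReal.ofReal_add a1 a2, ← ENNReal.ofReal_add (by positivity) a3, ← ENNReal.ofReal_add b1 b2,
    ← ENNReal.ofReal_add (by positivity) b3, ← ENNReal.ofReal_add (by positivity) b4]
  exact ENNReal.ofReal_le_ofReal h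

lemma sin38_nonneg : 0 ≤ Real.sin (3 * Real.pi / 8) := by
  apply Real.sin_nonneg_of_nonneg_of_le_pi <;> linarith [Real.pi_pos]

/-- I4 with extended nonnegative reals. -/
theorem I4_E {T : ℕ} (hT : 1 ≤ T) (V W U : Set Pt) {a b c : ℤ} (hab : a < b) (hbc : b + 1 < c) :
    s3 * P3E (St T) oo up a V (b + 1) W c U ∅ + s1 * P3E (St T) oo up a V b W (b + 1) U ∅ +
      i2 * Q3E (St T) oo up a V b W (b + 1) U (fun Z => DnR (St T) Z (foot oo up c) up) ∅ +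
      s1 * Q3E (St T) oo up b V (b + 1) W c U (fun Z => Br (St T) Z (foot oo up a) up) ∅ +
      Q3E (St T) oo up b V (b + 1) W c U (fun Z => DnR (St T) Z (foot oo up a) up) ∅ ≤
    s3 * P3E (St T) oo up a V b W c U ∅ +
      s3 * Q3E (St T) oo up a V (b + 1) W c U (fun Z => Br (St T) Z (foot oo up b) up) ∅ +
      s1 * Q3E (St T) oo up a V b W (b + 1) U (fun Z => Br (St T) Z (foot oo up c) up) ∅ +
      Q3E (St T) oo up a V b W (b + 1) U (fun Z => DnL (St T) Z (foot oo up c) up) ∅ +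
      s1 * P3E (St T) oo up b V (b + 1) W c U ∅ +
      i2 * Q3E (St T) oo up b V (b + 1) W c U (fun Z => DnL (St T) Z (foot oo up a) up) ∅ := by
  have hA : AT T ≠ ∞ := AT_ne_top hT
  have hs := sin8_pos.le
  have hs3 := sin38_nonneg
  have h := I4_strip hT V W U hab hbc
  unfold s1 s3 i2
  rw [oR hs3 (P3E_ne_top hT a (b + 1) c V W U ∅), oR hs (P3E_ne_top hT a b (b + 1) V W U ∅),
    oRd (Q3E_ne_top hT a b (b + 1) V W U hA (fun Z => dnr_le c Z) ∅),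
    oR hs (Q3E_ne_top hT b (b + 1) c V W U ENNReal.one_ne_top (fun Z => br_le_one hT a Z) ∅),
    oR1 (Q3E_ne_top hT b (b + 1) c V W U hA (fun Z => dnr_le a Z) ∅),
    oR hs3 (P3E_ne_top hT a b c V W U ∅),
    oR hs3 (Q3E_ne_top hT a (b + 1) c V W U ENNReal.one_ne_top (fun Z => br_le_one hT b Z) ∅),
    oR hs (Q3E_ne_top hT a b (b + 1) V W U ENNReal.one_ne_top (fun Z => br_le_one hT c Z) ∅),
    oR1 (Q3E_ne_top hT a b (b + 1) V W U hA (fun Z => dnl_le c Z) ∅),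
    oR hs (P3E_ne_top hT b (b + 1) c V W U ∅),
    oRd (Q3E_ne_top hT b (b + 1) c V W U hA (fun Z => dnl_le a Z) ∅)]
  apply add56 _ _ _ _ _ _ _ _ _ _ _ h
  all_goals positivity

/-- I3 with extended nonnegative reals. -/
theorem I3_E {T : ℕ} (hT : 1 ≤ T) (V W : Set Pt) {a b : ℤ} (hab : a < b) :
    s1 * P2E (St T) oo up b V (b + 1) W ∅ +
      i2 * Q2E (St T) oo up b V (b + 1) W (fun Z => DnL (St T) Z (foot oo up a) up) ∅ +
      s3 * P2E (St T) oo up a V b W ∅ ≤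
    s1 * Q2E (St T) oo up b V (b + 1) W (fun Z => Br (St T) Z (foot oo up a) up) ∅ +
      Q2E (St T) oo up b V (b + 1) W (fun Z => DnR (St T) Z (foot oo up a) up) ∅ +
      s3 * P2E (St T) oo up a V (b + 1) W ∅ +
      s3 * Q2E (St T) oo up a V b W (fun Z => Br (St T) Z (foot oo up (b + 1)) up) ∅ := by
  have hA : AT T ≠ ∞ := AT_ne_top hT
  have hs := sin8_pos.le
  have hs3 := sin38_nonneg
  have h := I3_strip hT V W hab
  unfold s1 s3 i2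
  rw [oR hs (P2E_ne_top hT b (b + 1) V W ∅), oRd (Q2E_ne_top hT b (b + 1) V W hA (fun Z => dnl_le a Z) ∅),
    oR hs3 (P2E_ne_top hT a b V W ∅),
    oR hs (Q2E_ne_top hT b (b + 1) V W ENNReal.one_ne_top (fun Z => br_le_one hT a Z) ∅),
    oR1 (Q2E_ne_top hT b (b + 1) V W hA (fun Z => dnr_le a Z) ∅),
    oR hs3 (P2E_ne_top hT a (b + 1) V W ∅),
    oR hs3 (Q2E_ne_top hT a b V W ENNReal.one_ne_top (fun Z => br_le_one hT (b + 1) Z) ∅)]
  apply add34 _ _ _ _ _ _ _ h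
  all_goals positivity

end Ex

end HexObs
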